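import Pool.Agent.H992.LB.Fam

/-!
# A criterion for absolute continuity in terms of trigonometric sums
-/

set_option autoImplicit false
open MeasureTheory Filter Topology Complex
open scoped ContDiff ENNReal

namespace Pool.Agent.H992.LB

variable {X ι : Type*} [mX : MeasurableSpace X]

/-- the exponential of a finite linear combination -/
noncomputable def ex (Y : ι → X → ℝ) (τ : ι →₀ ℝ) (x : X) : ℂ :=
  Complex.exp (I * ((τ.sum fun i t => t * Y i x : ℝ) : ℂ))

/-- a trigonometric sum -/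
noncomputable def trig (Y : ι → X → ℝ) (c : (ι →₀ ℝ) →₀ ℂ) (x : X) : ℂ :=
  c.sum fun τ z => z * ex Y τ x

theorem norm_ex (Y : ι → X → ℝ) (τ : ι →₀ ℝ) (x : X) : ‖ex Y τ x‖ = 1 := by
  unfold ex
  rw [mul_comm, Complex.norm_exp_ofReal_mul_I]

theorem meas_ex {Y : ι → X → ℝ} (hY : ∀ i, Measurable (Y i)) (τ : ι →₀ ℝ) :
    Measurable (ex Y τ) := by
  unfold ex
  have : Measurable (fun x => (τ.sum fun i t => t * Y i x : ℝ)) := by
    unfold Finsupp.sum
    exact Finset.measurable_sum _ fun i _ => (hY i).const_mul _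
  fun_prop

theorem meas_trig {Y : ι → X → ℝ} (hY : ∀ i, Measurable (Y i)) (c : (ι →₀ ℝ) →₀ ℂ) :
    Measurable (trig Y c) := by
  unfold trig Finsupp.sum
  exact Finset.measurable_sum _ fun τ _ => (meas_ex hY τ).const_mul _

theorem bd_trig (Y : ι → X → ℝ) (c : (ι →₀ ℝ) →₀ ℂ) (x : X) :
    ‖trig Y c x‖ ≤ ∑ τ ∈ c.support, ‖c τ‖ := by
  unfold trig Finsupp.sum
  refine (norm_sum_le _ _).trans (Finset.sum_le_sum fun τ _ => ?_)
  rw [norm_mul, norm_ex, mul_one]

theorem memLp_trig {Y : ι → X → ℝ} (hY : ∀ i, Measurable (Y i)) (c : (ι →₀ ℝ) →₀ ℂ)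
    (γ : Measure X) [IsFiniteMeasure γ] : MemLp (trig Y c) 2 γ :=
  MemLp.of_bound (meas_trig hY c).aestronglyMeasurable _ (Eventually.of_forall (bd_trig Y c))

theorem int_trig {Y : ι → X → ℝ} (hY : ∀ i, Measurable (Y i)) (c : (ι →₀ ℝ) →₀ ℂ)
    (γ : Measure X) [IsFiniteMeasure γ] : Integrable (trig Y c) γ :=
  (memLp_trig hY c γ).integrable (by norm_num)

theorem trig_add (Y : ι → X → ℝ) (c d : (ι →₀ ℝ) →₀ ℂ) (x : X) :
    trig Y (c + d) x = trig Y c x + trig Y d x := by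
  unfold trig
  exact Finsupp.sum_add_index' (fun _ => zero_mul _) (fun _ _ _ => add_mul _ _ _)

theorem trig_smul (Y : ι → X → ℝ) (a : ℂ) (c : (ι →₀ ℝ) →₀ ℂ) (x : X) :
    trig Y (a • c) x = a * trig Y c x := by
  unfold trig
  rw [Finsupp.sum_smul_index' (fun _ => zero_mul _), Finsupp.mul_sum]
  refine Finsupp.sum_congr fun τ _ => ?_
  rw [smul_eq_mul, mul_assoc]

theorem trig_single (Y : ι → X → ℝ) (τ : ι →₀ ℝ) (x : X) :
    trig Y (Finsupp.single τ 1) x = ex Y τ x := by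
  unfold trig
  rw [Finsupp.sum_single_index (zero_mul _), one_mul]

/-- the map from trigonometric sums to `L²` -/
noncomputable def toL {Y : ι → X → ℝ} (hY : ∀ i, Measurable (Y i)) (γ : Measure X)
    [IsFiniteMeasure γ] : ((ι →₀ ℝ) →₀ ℂ) →ₗ[ℂ] Lp ℂ 2 γ where
  toFun c := (memLp_trig hY c γ).toLp
  map_add' c d := by
    rw [← MemLp.toLp_add]
    apply MemLp.toLp_congr
    exact Eventually.of_forall fun x => trig_add Y c d x
  map_smul' a c := by
    rw [RingHom.id_apply, ← MemLp.toLp_const_smul]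
    apply MemLp.toLp_congr
    exact Eventually.of_forall fun x => trig_smul Y a c x

/-- the mean of trigonometric sums -/
noncomputable def mean {Y : ι → X → ℝ} (hY : ∀ i, Measurable (Y i)) (μ : Measure X)
    [IsFiniteMeasure μ] : ((ι →₀ ℝ) →₀ ℂ) →ₗ[ℂ] ℂ where
  toFun c := ∫ x, trig Y c x ∂μ
  map_add' c d := by
    rw [← integral_add (int_trig hY c μ) (int_trig hY d μ)]
    exact integral_congr_ae (Eventually.of_forall fun x => trig_add Y c d x)
  map_smul' a c := by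
    rw [RingHom.id_apply, smul_eq_mul, ← integral_const_mul]
    exact integral_congr_ae (Eventually.of_forall fun x => trig_smul Y a c x)

theorem norm_toL {Y : ι → X → ℝ} (hY : ∀ i, Measurable (Y i)) (γ : Measure X)
    [IsFiniteMeasure γ] (c : (ι →₀ ℝ) →₀ ℂ) :
    ‖toL hY γ c‖ ^ 2 = ∫ x, ‖trig Y c x‖ ^ 2 ∂γ := by
  have h1 : ((‖toL hY γ c‖ ^ 2 : ℝ) : ℂ) = inner ℂ (toL hY γ c) (toL hY γ c) := by
    rw [inner_self_eq_norm_sq_to_K]
    norm_cast
  have h2 : (inner ℂ (toL hY γ c) (toL hY γ c) : ℂ) = ((∫ x, ‖trig Y c x‖ ^ 2 ∂γ : ℝ) : ℂ) := by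
    rw [L2.inner_def, ← integral_complex_ofReal]
    refine integral_congr_ae ?_
    filter_upwards [(memLp_trig hY c γ).coeFn_toLp] with x hx
    show inner ℂ ((memLp_trig hY c γ).toLp (trig Y c) x)
      ((memLp_trig hY c γ).toLp (trig Y c) x) = _
    rw [hx, inner_self_eq_norm_sq_to_K]
    norm_cast
  exact_mod_cast h1.trans h2

/-- the Riesz representation of a bounded functional on trigonometric sums -/
theorem riesz' {Y : ι → X → ℝ} (hY : ∀ i, Measurable (Y i)) (ℓ : ((ι →₀ ℝ) →₀ ℂ) →ₗ[ℂ] ℂ)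
    (γ : Measure X) [IsFiniteMeasure γ] {C : ℝ}
    (hC : ∀ c : (ι →₀ ℝ) →₀ ℂ, ‖ℓ c‖ ^ 2 ≤ C * ∫ x, ‖trig Y c x‖ ^ 2 ∂γ) :
    ∃ h : Lp ℂ 2 γ, ∀ c, ℓ c = inner ℂ h (toL hY γ c) := by
  have hC0 : 0 ≤ max C 0 := le_max_right _ _
  have hb : ∀ c, ‖ℓ c‖ ≤ √(max C 0) * ‖toL hY γ c‖ := by
    intro c
    have h1 := hC c
    rw [← norm_toL hY γ c] at h1
    have h2 : ‖ℓ c‖ ^ 2 ≤ (√(max C 0) * ‖toL hY γ c‖) ^ 2 := by
      rw [mul_pow, Real.sq_sqrt hC0]
      exact h1.trans (mul_le_mul_of_nonneg_right (le_max_left _ _) (sq_nonneg _))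
    exact le_of_sq_le_sq h2 (by positivity)
  have hker : LinearMap.ker (toL hY γ) ≤ LinearMap.ker ℓ := by
    intro c hc
    rw [LinearMap.mem_ker] at hc ⊢
    have h1 := hb c
    rw [hc, norm_zero, mul_zero] at h1
    exact norm_le_zero_iff.1 h1
  let L : LinearMap.range (toL hY γ) →ₗ[ℂ] ℂ :=
    ((LinearMap.ker (toL hY γ)).liftQ ℓ hker).comp
      (LinearMap.quotKerEquivRange (toL hY γ)).symm.toLinearMap
  have hL : ∀ c, L ⟨toL hY γ c, LinearMap.mem_range_self _ c⟩ = ℓ c := by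
    intro c
    have h1 : (LinearMap.quotKerEquivRange (toL hY γ)).symm
        ⟨toL hY γ c, LinearMap.mem_range_self _ c⟩ =
        (LinearMap.ker (toL hY γ)).mkQ c := by
      rw [LinearEquiv.symm_apply_eq]
      rfl
    show ((LinearMap.ker (toL hY γ)).liftQ ℓ hker)
      ((LinearMap.quotKerEquivRange (toL hY γ)).symm _) = _
    rw [h1]
    simp
  have hLb : ∀ s, ‖L s‖ ≤ √(max C 0) * ‖s‖ := by
    rintro ⟨s, c, rfl⟩
    rw [hL c]
    exact hb c
  obtain ⟨g, hg, -⟩ := exists_extension_norm_eq (LinearMap.range (toL hY γ))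
    (L.mkContinuous _ hLb)
  refine ⟨(InnerProductSpace.toDual ℂ (Lp ℂ 2 γ)).symm g, fun c => ?_⟩
  rw [InnerProductSpace.toDual_symm_apply]
  have := hg ⟨toL hY γ c, LinearMap.mem_range_self _ c⟩
  rw [this]
  exact (hL c).symm

/-- the Riesz representation of the mean -/
theorem riesz {Y : ι → X → ℝ} (hY : ∀ i, Measurable (Y i)) (μ γ : Measure X)
    [IsFiniteMeasure μ] [IsFiniteMeasure γ] {C : ℝ}
    (hC : ∀ c : (ι →₀ ℝ) →₀ ℂ, ‖∫ x, trig Y c x ∂μ‖ ^ 2 ≤ C * ∫ x, ‖trig Y c x‖ ^ 2 ∂γ) :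
    ∃ h : Lp ℂ 2 γ, ∀ c, ∫ x, trig Y c x ∂μ = inner ℂ h (toL hY γ c) :=
  riesz' hY (mean hY μ) γ hC

theorem inner_toL {Y : ι → X → ℝ} (hY : ∀ i, Measurable (Y i)) (γ : Measure X)
    [IsFiniteMeasure γ] (h : Lp ℂ 2 γ) (τ : ι →₀ ℝ) : inner ℂ h (toL hY γ (Finsupp.single τ 1)) =
      ∫ x, (starRingEnd ℂ) (h x) * ex Y τ x ∂γ := by
  rw [L2.inner_def]
  refine integral_congr_ae ?_
  filter_upwards [(memLp_trig hY (Finsupp.single τ 1) γ).coeFn_toLp] with x hx
  show inner ℂ (h x) ((memLp_trig hY (Finsupp.single τ 1) γ).toLp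
    (trig Y (Finsupp.single τ 1)) x) = _
  rw [hx, trig_single, RCLike.inner_apply, mul_comm]

theorem ex_neg (Y : ι → X → ℝ) (τ : ι →₀ ℝ) (x : X) :
    ex Y (-τ) x = (starRingEnd ℂ) (ex Y τ x) := by
  unfold ex
  rw [← Complex.exp_conj, map_mul, Complex.conj_I, Complex.conj_ofReal]
  congr 1
  have : ((-τ).sum fun i t => t * Y i x) = -(τ.sum fun i t => t * Y i x) := by
    rw [Finsupp.sum_neg_index (fun _ => zero_mul _)]
    unfold Finsupp.sum
    rw [← Finset.sum_neg_distrib]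
    exact Finset.sum_congr rfl fun i _ => neg_mul _ _
  rw [this]
  push_cast
  ring

/-- **Criterion.** If the means of all trigonometric sums under `μ` are bounded in terms of their
second moments under `γ`, then `μ` is absolutely continuous with respect to `γ` on the σ-algebra
generated by the family. -/
theorem ac_of_trig {Y : ι → X → ℝ} (hY : ∀ i, Measurable (Y i)) (μ γ : Measure X)
    [IsFiniteMeasure μ] [IsFiniteMeasure γ] {C : ℝ}
    (hC : ∀ c : (ι →₀ ℝ) →₀ ℂ, ‖∫ x, trig Y c x ∂μ‖ ^ 2 ≤ C * ∫ x, ‖trig Y c x‖ ^ 2 ∂γ)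
    {A : Set X} (hA : MeasurableSet[sig Y] A) (h0 : γ A = 0) : μ A = 0 := by
  classical
  obtain ⟨h, hh⟩ := riesz hY μ γ hC
  have hm : MemLp (h : X → ℂ) 2 γ := Lp.memLp h
  have hi : Integrable (h : X → ℂ) γ := hm.integrable (by norm_num)
  have hie : ∀ τ, Integrable (fun x => (starRingEnd ℂ) (h x) * ex Y τ x) γ := by
    intro τ
    have hb : Integrable (fun x => (starRingEnd ℂ) (h x)) γ :=
      (Complex.conjLIE.toContinuousLinearEquiv.toContinuousLinearMap.integrable_comp hi)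
    exact hb.mul_bdd (c := 1) (meas_ex hY τ).aestronglyMeasurable
      (Eventually.of_forall fun x => (norm_ex Y τ x).le)
  have h1 : ∀ τ, ∫ x, ex Y τ x ∂μ = ∫ x, (starRingEnd ℂ) (h x) * ex Y τ x ∂γ := by
    intro τ
    have e1 := hh (Finsupp.single τ 1)
    rw [L2.inner_def] at e1
    rw [show (∫ x, ex Y τ x ∂μ) = ∫ x, trig Y (Finsupp.single τ 1) x ∂μ from
      integral_congr_ae (Eventually.of_forall fun x => (trig_single Y τ x).symm), e1]
    refine integral_congr_ae ?_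
    filter_upwards [(memLp_trig hY (Finsupp.single τ 1) γ).coeFn_toLp] with x hx
    show inner ℂ (h x) ((memLp_trig hY (Finsupp.single τ 1) γ).toLp
      (trig Y (Finsupp.single τ 1)) x) = _
    rw [hx, trig_single, RCLike.inner_apply, mul_comm]
  have h2 : ∀ τ, ∫ x, ex Y τ x ∂μ = ∫ x, h x * ex Y τ x ∂γ := by
    intro τ
    have e1 := h1 (-τ)
    have e2 := congrArg (starRingEnd ℂ) e1
    rw [← integral_conj, ← integral_conj] at e2
    simp only [ex_neg, map_mul, Complex.conj_conj] at e2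
    exact e2
  have hie2 : ∀ τ, Integrable (fun x => h x * ex Y τ x) γ := by
    intro τ
    exact hi.mul_bdd (c := 1) (meas_ex hY τ).aestronglyMeasurable
      (Eventually.of_forall fun x => (norm_ex Y τ x).le)
  -- the real part
  have h3 : ∀ τ, ∫ x, ex Y τ x ∂μ = ∫ x, (((h x).re : ℝ) : ℂ) * ex Y τ x ∂γ := by
    intro τ
    have e1 := h1 τ
    have e2 := h2 τ
    have e3 : (2 : ℂ) * ∫ x, ex Y τ x ∂μ =
        ∫ x, ((starRingEnd ℂ) (h x) * ex Y τ x + h x * ex Y τ x) ∂γ := by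
      rw [integral_add (hie τ) (hie2 τ), ← e1, ← e2]
      ring
    have e4 : ∫ x, ((starRingEnd ℂ) (h x) * ex Y τ x + h x * ex Y τ x) ∂γ =
        2 * ∫ x, (((h x).re : ℝ) : ℂ) * ex Y τ x ∂γ := by
      rw [← integral_const_mul]
      refine integral_congr_ae (Eventually.of_forall fun x => ?_)
      show (starRingEnd ℂ) (h x) * ex Y τ x + h x * ex Y τ x = 2 * ((((h x).re : ℝ) : ℂ) * ex Y τ x)
      rw [← add_mul, add_comm ((starRingEnd ℂ) (h x)), Complex.add_conj]
      push_cast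
      ring
    rw [e4] at e3
    exact mul_left_cancel₀ two_ne_zero e3
  -- positive and negative parts
  obtain ⟨g, hg, hgh⟩ := (hi.re).aestronglyMeasurable.aemeasurable
  have hgi : Integrable g γ := (hi.re).congr hgh
  have h4 : ∀ τ, ∫ x, ex Y τ x ∂μ = ∫ x, ((g x : ℝ) : ℂ) * ex Y τ x ∂γ := by
    intro τ
    rw [h3 τ]
    refine integral_congr_ae ?_
    filter_upwards [hgh] with x hx
    rw [← hx]
    rfl
  set γp := γ.withDensity (fun x => ENNReal.ofReal (g x)) with hγp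
  set γn := γ.withDensity (fun x => ENNReal.ofReal (-g x)) with hγn
  haveI f1 : IsFiniteMeasure γp := isFiniteMeasure_withDensity_ofReal hgi.hasFiniteIntegral
  haveI f2 : IsFiniteMeasure γn := isFiniteMeasure_withDensity_ofReal hgi.neg.hasFiniteIntegral
  have hbx : ∀ (τ : ι →₀ ℝ) (ρ : Measure X) [IsFiniteMeasure ρ], Integrable (ex Y τ) ρ :=
    fun τ ρ _ => Integrable.of_bound (meas_ex hY τ).aestronglyMeasurable 1
      (Eventually.of_forall fun x => (norm_ex Y τ x).le)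
  have hwd : ∀ (τ : ι →₀ ℝ) (q : X → ℝ), Measurable q →
      ∫ x, ex Y τ x ∂(γ.withDensity fun x => ENNReal.ofReal (q x)) =
        ∫ x, ((max (q x) 0 : ℝ) : ℂ) * ex Y τ x ∂γ := by
    intro τ q hq
    rw [integral_withDensity_eq_integral_toReal_smul hq.ennreal_ofReal
      (Eventually.of_forall fun x => ENNReal.ofReal_lt_top)]
    refine integral_congr_ae (Eventually.of_forall fun x => ?_)
    show (ENNReal.ofReal (q x)).toReal • ex Y τ x = _
    rw [ENNReal.toReal_ofReal', Complex.real_smul]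
  have h5 : ∀ τ, ∫ x, ex Y τ x ∂(μ + γn) = ∫ x, ex Y τ x ∂γp := by
    intro τ
    rw [integral_add_measure (hbx τ μ) (hbx τ γn), h4 τ, hγn, hγp, hwd τ (fun x => -g x) hg.neg,
      hwd τ g hg, ← integral_add]
    · refine integral_congr_ae (Eventually.of_forall fun x => ?_)
      show ((g x : ℝ) : ℂ) * ex Y τ x + ((max (-g x) 0 : ℝ) : ℂ) * ex Y τ x =
        ((max (g x) 0 : ℝ) : ℂ) * ex Y τ x
      rw [← add_mul, ← Complex.ofReal_add]
      congr 2
      rcases le_total (g x) 0 with h | h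
      · rw [max_eq_left (by linarith), max_eq_right h]
        ring
      · rw [max_eq_right (by linarith), max_eq_left h]
        ring
    · exact (hgi.ofReal).mul_bdd (c := 1) (meas_ex hY τ).aestronglyMeasurable
        (Eventually.of_forall fun x => (norm_ex Y τ x).le)
    · exact ((hgi.neg.pos_part).ofReal).mul_bdd (c := 1) (meas_ex hY τ).aestronglyMeasurable
        (Eventually.of_forall fun x => (norm_ex Y τ x).le)
  have h6 : (μ + γn) A = γp A := by
    refine ext_family hY (μ + γn) γp (fun J t => ?_) hA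
    have e : ∀ x, Complex.exp (I * ((∑ j ∈ J, t j * Y j x : ℝ) : ℂ)) =
        ex Y (Finsupp.onFinset J (fun i => if i ∈ J then t i else 0) (by
          intro i hi
          by_contra hh
          exact hi (if_neg hh))) x := by
      intro x
      unfold ex
      congr 3
      rw [Finsupp.onFinset_sum _ (fun _ => zero_mul _)]
      exact Finset.sum_congr rfl fun j hj => by rw [if_pos hj]
    simp_rw [e]
    exact h5 _
  have h7 : γp A = 0 := withDensity_absolutelyContinuous _ _ h0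
  rw [h7, Measure.add_apply] at h6
  exact (add_eq_zero.1 h6).1

end Pool.Agent.H992.LB
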