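import Pool.Agent.H992.LB.Tay
import Pool.Agent.H992.LB.Riesz

/-!
# The values in an open set determine the derivatives at its points
-/

set_option autoImplicit false
open MeasureTheory Filter Topology Complex ProbabilityTheory
open scoped ContDiff ENNReal

namespace Pool.Agent.H992.LB

open Pool.Agent.N661.BR (MW lin shift W_smooth W_cont Dp_W Dm_W W_zero fd_lim meas_W meas_eval)
open Pool.Agent.W745.RW (dx dy Dp Dm W)

/-- the values at the points of `U` -/
def ev (U : Set ℂ) (w : U) (f : MW) : ℝ := f w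

theorem ev_meas (U : Set ℂ) (w : U) : Measurable (ev U w) := meas_eval w

theorem W_vals {U : Set ℂ} (hU : IsOpen U) (a : ℤ) (w : ℂ) (hw : w ∈ U) :
    Measurable[sig (ev U)] (fun f : MW => W 1 f a w) := by
  have key : ∀ k : ℕ, ∀ w ∈ U, Measurable[sig (ev U)] (fun f : MW => W 1 f (k : ℤ) w) ∧
      Measurable[sig (ev U)] (fun f : MW => W 1 f (-(k : ℤ)) w) := by
    intro k
    induction k with
    | zero =>
      intro w hw
      have h0 : Measurable[sig (ev U)] (fun f : MW => (f w : ℝ)) := meas_sig (ev U) ⟨w, hw⟩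
      have : Measurable[sig (ev U)] (fun f : MW => W 1 f 0 w) :=
        Complex.measurable_ofReal.comp h0
      exact ⟨by simpa using this, by simpa using this⟩
    | succ k ih =>
      intro w hw
      have hd : ∀ (f : MW) (a : ℤ), Differentiable ℝ (W 1 f a) := fun f a =>
        (W_smooth f a).differentiable (by simp)
      have hm : ∀ b : ℤ, (∀ w ∈ U, Measurable[sig (ev U)] (fun f : MW => W 1 f b w)) →
          ∀ v : ℂ, Measurable[sig (ev U)] (fun f : MW => fderiv ℝ (W 1 f b) w v) := by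
        intro b hb v
        have h1 : Tendsto (fun n : ℕ => w + ((1 / ((n : ℝ) + 1) : ℝ) : ℂ) * v) atTop (𝓝 w) := by
          have h2 : Tendsto (fun n : ℕ => ((1 / ((n : ℝ) + 1) : ℝ) : ℂ)) atTop (𝓝 ((0 : ℝ) : ℂ)) :=
            (Complex.continuous_ofReal.tendsto _).comp tendsto_one_div_add_atTop_nhds_zero_nat
          have h3 := (h2.mul_const v).const_add w
          simpa using h3
        obtain ⟨N, hN⟩ := eventually_atTop.1 (h1.eventually (hU.mem_nhds hw))
        refine @measurable_of_tendsto_metrizable MW ℂ (sig (ev U)) _ _ _ _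
          (fun (n : ℕ) (f : MW) => (((n + N : ℕ) : ℂ) + 1) *
            (W 1 f b (w + ((1 / (((n + N : ℕ) : ℝ) + 1) : ℝ) : ℂ) * v) - W 1 f b w)) _
          (fun n => ((hb _ (hN (n + N) (Nat.le_add_left _ _))).sub (hb w hw)).const_mul _) ?_
        exact tendsto_pi_nhds.2 fun f =>
          (fd_lim (hd f b) w v).comp (tendsto_add_atTop_nat N)
      constructor
      · have e : (fun f : MW => W 1 f ((k + 1 : ℕ) : ℤ) w) =
            fun f : MW => ((1 : ℝ) : ℂ) * (fderiv ℝ (W 1 f (k : ℤ)) w 1 -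
              I * fderiv ℝ (W 1 f (k : ℤ)) w I) := by
          funext f
          have := Dp_W f k w
          rw [Nat.cast_succ, ← this]
          rfl
        rw [e]
        exact ((hm _ (fun w hw => (ih w hw).1) 1).sub
          ((hm _ (fun w hw => (ih w hw).1) I).const_mul _)).const_mul _
      · have e : (fun f : MW => W 1 f (-((k + 1 : ℕ) : ℤ)) w) =
            fun f : MW => -(((1 : ℝ) : ℂ) * (fderiv ℝ (W 1 f (-(k : ℤ))) w 1 +
              I * fderiv ℝ (W 1 f (-(k : ℤ))) w I)) := by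
          funext f
          have := Dm_W f (-(k : ℤ)) w
          rw [Nat.cast_succ, neg_add, ← sub_eq_add_neg, ← neg_eq_iff_eq_neg.2 this.symm.symm]
          rfl
        rw [e]
        exact (((hm _ (fun w hw => (ih w hw).2) 1).add
          ((hm _ (fun w hw => (ih w hw).2) I).const_mul _)).const_mul _).neg
  obtain ⟨k, rfl | rfl⟩ := Int.eq_nat_or_neg a
  · exact (key k w hw).1
  · exact (key k w hw).2

theorem jet_le_vals {U : Set ℂ} (hU : IsOpen U) {x : ℂ} (hx : x ∈ U) : jet x ≤ sig (ev U) :=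
  iSup_le fun a => (W_vals hU a x hx).comap_le

/-- a trigonometric sum in the values at finitely many points -/
noncomputable def trigSum {k n : ℕ} (w : Fin k → ℂ) (t : Fin n → Fin k → ℝ) (c : Fin n → ℂ)
    (f : MW) : ℂ := ∑ m, c m * Complex.exp (I * (lin w (t m) f : ℝ))

theorem trig_eq {U : Set ℂ} (c : (U →₀ ℝ) →₀ ℂ) :
    ∃ (n k : ℕ) (w : Fin k → ℂ) (t : Fin n → Fin k → ℝ) (d : Fin n → ℂ),
      (∀ j, w j ∈ U) ∧ ∀ f : MW, trig (ev U) c f = trigSum w t d f := by
  classical
  let s := c.support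
  let J : Finset U := s.biUnion fun τ => τ.support
  refine ⟨s.card, J.card, fun j => ((J.equivFin.symm j : J) : U), fun m j =>
    ((s.equivFin.symm m : s) : U →₀ ℝ) ((J.equivFin.symm j : J) : U),
    fun m => c ((s.equivFin.symm m : s) : U →₀ ℝ), fun j => Subtype.coe_prop _, fun f => ?_⟩
  unfold trig trigSum Finsupp.sum
  rw [← Finset.sum_coe_sort s, ← Equiv.sum_comp s.equivFin.symm]
  refine Finset.sum_congr rfl fun m _ => ?_
  set τ : U →₀ ℝ := ((s.equivFin.symm m : s) : U →₀ ℝ) with hτ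
  have h1 : τ.support ⊆ J := Finset.subset_biUnion_of_mem (fun τ : U →₀ ℝ => τ.support)
    (s.equivFin.symm m).2
  have h2 : ∑ a ∈ τ.support, τ a * ev U a f =
      ∑ j, τ ((J.equivFin.symm j : J) : U) * f ((((J.equivFin.symm j : J) : U)) : ℂ) := by
    rw [Finset.sum_subset h1 (fun i _ hi => by
      rw [Finsupp.notMem_support_iff.1 hi, zero_mul]), ← Finset.sum_coe_sort J,
      ← Equiv.sum_comp J.equivFin.symm]
    rfl
  show c τ * Complex.exp (I * ((∑ a ∈ τ.support, τ a * ev U a f : ℝ) : ℂ)) =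
    c τ * Complex.exp (I * ((∑ j, τ ((J.equivFin.symm j : J) : U) *
      f ((((J.equivFin.symm j : J) : U)) : ℂ) : ℝ) : ℂ))
  rw [h2]

/-- **Criterion** for absolute continuity on the values in `U` -/
theorem ac_vals {U : Set ℂ} (μ γ : Measure MW) [IsFiniteMeasure μ] [IsFiniteMeasure γ] {C : ℝ}
    (hC : ∀ (n k : ℕ) (w : Fin k → ℂ) (t : Fin n → Fin k → ℝ) (c : Fin n → ℂ), (∀ j, w j ∈ U) →
      ‖∫ f, trigSum w t c f ∂μ‖ ^ 2 ≤ C * ∫ f, ‖trigSum w t c f‖ ^ 2 ∂γ)
    {A : Set MW} (hA : MeasurableSet[sig (ev U)] A) (h0 : γ A = 0) : μ A = 0 := by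
  refine ac_of_trig (ev_meas U) μ γ (C := C) (fun c => ?_) hA h0
  obtain ⟨n, k, w, t, d, hw, hd⟩ := trig_eq c
  simp_rw [hd]
  exact hC n k w t d hw

end Pool.Agent.H992.LB
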