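import Pool.Agent.H992.LB.Mix
import Pool.Agent.H992.LB.Vals

/-!
# Rigidity: laws which are locally absolutely continuous with respect to the random wave
-/

set_option autoImplicit false
open MeasureTheory Filter Topology Complex ProbabilityTheory
open scoped ContDiff ENNReal

namespace Pool.Agent.H992.LB

open Pool.Agent.N661.BR (J0 MW lin shift IsStationary IsErgodic IsRandomWave meas_eval meas_shift)

/-- averages of translates which converge almost surely -/
theorem exists_av' {γ : Measure MW} [IsProbabilityMeasure γ] (hγ : IsRandomWave γ) {k : ℕ}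
    (w : Fin k → ℂ) (t : Fin k → ℝ) : ∃ (R : ℕ → ℝ) (m : ℕ → ℕ),
      ∀ᵐ f ∂γ, Tendsto (fun n => av w t (R n) (m n) f) atTop (𝓝 (cc w t : ℂ)) := by
  have hR : ∀ n : ℕ, ∃ R : ℝ, 0 < R ∧ ∀ z : ℂ, R ≤ ‖z‖ →
      |Real.exp (-(max (2 * Q w t - 2 * S w t z) 0) / 2) - cc w t ^ 2| ≤ 1 / ((n : ℝ) + 1) :=
    fun n => corr_lim w t (by positivity)
  choose R hR0 hR using hR
  refine ⟨fun n => R (2 ^ n), fun n => 2 ^ n, ?_⟩
  have hm : ∀ n, Measurable fun f => ENNReal.ofReal (‖av w t (R (2 ^ n)) (2 ^ n) f - (cc w t : ℂ)‖ ^ 2) :=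
    fun n => (((av_meas w t _ _).sub_const _).norm.pow_const 2).ennreal_ofReal
  have h1 : ∀ n, ∫⁻ f, ENNReal.ofReal (‖av w t (R (2 ^ n)) (2 ^ n) f - (cc w t : ℂ)‖ ^ 2) ∂γ ≤
      ENNReal.ofReal (2 * (1 / 2) ^ n) := by
    intro n
    rw [← ofReal_integral_eq_lintegral_ofReal]
    · apply ENNReal.ofReal_le_ofReal
      refine (av_sq hγ w t (hR0 _) (2 ^ n) (by exact_mod_cast hR (2 ^ n))).trans ?_
      have e0 : (0:ℝ) < 2 ^ n := by positivity
      rw [div_le_iff₀ (by positivity)]
      have e1 : (2 : ℝ) * (1 / 2) ^ n * (((2 ^ n : ℕ) : ℝ) + 1) = 2 * ((1/2)^n * 2^n) + 2 * (1/2)^n := by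
        push_cast
        ring
      rw [e1, ← mul_pow]
      norm_num
    · refine Integrable.of_bound (C := 4)
        (((av_meas w t _ _).sub_const _).norm.pow_const 2).aestronglyMeasurable
        (Eventually.of_forall fun f => ?_)
      rw [Real.norm_eq_abs, abs_of_nonneg (by positivity)]
      have e2 : ‖av w t (R (2 ^ n)) (2 ^ n) f - (cc w t : ℂ)‖ ≤ 2 := by
        refine (norm_sub_le _ _).trans ?_
        rw [Complex.norm_real, Real.norm_eq_abs, abs_of_pos (cc_pos w t)]
        linarith [cc_le w t, av_norm w t (R (2 ^ n)) (2 ^ n) f]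
      nlinarith [norm_nonneg (av w t (R (2 ^ n)) (2 ^ n) f - (cc w t : ℂ))]
    · exact Eventually.of_forall fun f => by positivity
  have h2 : ∫⁻ f, ∑' n, ENNReal.ofReal (‖av w t (R (2 ^ n)) (2 ^ n) f - (cc w t : ℂ)‖ ^ 2) ∂γ ≠ ⊤ := by
    rw [lintegral_tsum fun n => (hm n).aemeasurable]
    refine ne_top_of_le_ne_top ?_ (ENNReal.tsum_le_tsum h1)
    rw [← ENNReal.ofReal_tsum_of_nonneg (fun n => by positivity)
      ((summable_geometric_of_lt_one (by norm_num) (by norm_num)).mul_left 2)]
    exact ENNReal.ofReal_ne_top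
  have h3 := ae_lt_top (Measurable.ennreal_tsum hm) h2
  filter_upwards [h3] with f hf
  have h4 := ENNReal.tendsto_atTop_zero_of_tsum_ne_top hf.ne
  have h5 : Tendsto (fun n => ‖av w t (R (2 ^ n)) (2 ^ n) f - (cc w t : ℂ)‖ ^ 2) atTop (𝓝 0) := by
    have := (ENNReal.tendsto_toReal ENNReal.zero_ne_top).comp h4
    refine this.congr fun n => ?_
    simp only [Function.comp_apply]
    rw [ENNReal.toReal_ofReal (by positivity)]
  have h6 : Tendsto (fun n => ‖av w t (R (2 ^ n)) (2 ^ n) f - (cc w t : ℂ)‖) atTop (𝓝 0) := by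
    have := h5.sqrt
    rw [Real.sqrt_zero] at this
    exact this.congr fun n => Real.sqrt_sq (norm_nonneg _)
  exact tendsto_iff_norm_sub_tendsto_zero.2 h6

/-- averages of translates which converge almost surely -/
theorem exists_av {γ : Measure MW} [IsProbabilityMeasure γ] (hγ : IsRandomWave γ) {k : ℕ}
    (w : Fin k → ℂ) (t : Fin k → ℝ) : ∃ B : ℕ → MW → ℂ, (∀ n, Measurable (B n)) ∧
      (∀ n f, ‖B n f‖ ≤ 1) ∧ (∀ n (μ : Measure MW) [IsFiniteMeasure μ], IsStationary μ →
        ∫ f, B n f ∂μ = ∫ f, Complex.exp (I * (lin w t f : ℝ)) ∂μ) ∧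
      ∀ᵐ f ∂γ, Tendsto (fun n => B n f) atTop (𝓝 (cc w t : ℂ)) := by
  obtain ⟨R, m, h⟩ := exists_av' hγ w t
  exact ⟨fun n => av w t (R n) (m n), fun n => av_meas w t _ _, fun n f => av_norm w t _ _ f,
    fun n μ _ hμ => av_mean hμ w t _ _, h⟩

/-- the characteristic functional of a stationary measure which is absolutely continuous with
respect to the random wave -/
theorem ac_char {γ : Measure MW} [IsProbabilityMeasure γ] (hγ : IsRandomWave γ) {μ : Measure MW}
    [IsFiniteMeasure μ] (hμ : IsStationary μ) (hac : μ ≪ γ) {k : ℕ} (w : Fin k → ℂ)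
    (t : Fin k → ℝ) : ∫ f, Complex.exp (I * (lin w t f : ℝ)) ∂μ = μ.real Set.univ * (cc w t : ℂ) := by
  obtain ⟨B, hBm, hB1, hBs, hBl⟩ := exists_av hγ w t
  have h1 : Tendsto (fun n => ∫ f, B n f ∂μ) atTop (𝓝 (∫ _, (cc w t : ℂ) ∂μ)) :=
    tendsto_integral_of_dominated_convergence (fun _ => (1 : ℝ))
      (fun n => (hBm n).aestronglyMeasurable) (integrable_const _)
      (fun n => Eventually.of_forall (hB1 n)) (hac.ae_le hBl)
  have h2 : (fun n => ∫ f, B n f ∂μ) = fun _ => ∫ f, Complex.exp (I * (lin w t f : ℝ)) ∂μ :=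
    funext fun n => hBs n μ hμ
  rw [h2] at h1
  have h3 := tendsto_nhds_unique tendsto_const_nhds h1
  rw [h3, integral_const, Complex.real_smul]

/-- finite measures on `MW` with the same characteristic functionals are equal -/
theorem ext_MW (μ ν : Measure MW) [IsFiniteMeasure μ] [IsFiniteMeasure ν]
    (h : ∀ (k : ℕ) (w : Fin k → ℂ) (t : Fin k → ℝ),
      ∫ f, Complex.exp (I * (lin w t f : ℝ)) ∂μ = ∫ f, Complex.exp (I * (lin w t f : ℝ)) ∂ν) :
    μ = ν := by
  ext A hA
  refine ext_family (Y := fun (w : ℂ) (f : MW) => f w) (fun w => meas_eval w) μ ν (fun J t => ?_) hA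
  have e : ∀ f : MW, (∑ j ∈ J, t j * f j) =
      lin (fun i : Fin J.card => ((J.equivFin.symm i : J) : ℂ))
        (fun i => t ((J.equivFin.symm i : J) : ℂ)) f := by
    intro f
    unfold lin
    rw [← Finset.sum_coe_sort J, ← Equiv.sum_comp J.equivFin.symm]
  simp_rw [e]
  exact h _ _ _

/-- a stationary finite measure which is absolutely continuous with respect to the random wave is
a multiple of it -/
theorem eq_smul {γ : Measure MW} [IsProbabilityMeasure γ] (hγ : IsRandomWave γ) {μ : Measure MW}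
    [IsFiniteMeasure μ] (hμ : IsStationary μ) (hac : μ ≪ γ) : μ = μ Set.univ • γ := by
  haveI : IsFiniteMeasure (μ Set.univ • γ) := ⟨by
    rw [Measure.smul_apply, smul_eq_mul, measure_univ (μ := γ), mul_one]
    exact measure_lt_top _ _⟩
  refine ext_MW _ _ fun k w t => ?_
  rw [ac_char hγ hμ hac, integral_smul_measure, ft hγ, ← cc, Complex.real_smul]
  rfl

theorem shift_neg (x : ℂ) (f : MW) : shift (-x) (shift x f) = f := by
  apply Subtype.ext
  funext y
  show f.1 (y + -x + x) = f.1 y
  rw [neg_add_cancel_right]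

theorem shift_neg' (x : ℂ) (f : MW) : shift x (shift (-x) f) = f := by
  apply Subtype.ext
  funext y
  show f.1 (y + x + -x) = f.1 y
  rw [add_neg_cancel_right]

theorem rw_stat {γ : Measure MW} [IsProbabilityMeasure γ] (hγ : IsRandomWave γ) :
    IsStationary γ := by
  intro x
  haveI : IsProbabilityMeasure (γ.map (shift x)) :=
    Measure.isProbabilityMeasure_map (meas_shift x).aemeasurable
  refine ext_MW _ _ fun k w t => ?_
  rw [integral_map (meas_shift x).aemeasurable]
  · have h1 := ee_mean hγ w t x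
    rw [ft hγ]
    exact h1
  · have := meas_lin w t
    exact Measurable.aestronglyMeasurable (by fun_prop)

/-- mutual singularity of the image under a translation -/
theorem sing_map {γ s : Measure MW} (hγ : IsStationary γ) (h : s ⟂ₘ γ) (x : ℂ) :
    s.map (shift x) ⟂ₘ γ := by
  obtain ⟨T, hT, h1, h2⟩ := h
  refine ⟨shift (-x) ⁻¹' T, meas_shift _ hT, ?_, ?_⟩
  · rw [Measure.map_apply (meas_shift x) (meas_shift _ hT)]
    have : shift x ⁻¹' (shift (-x) ⁻¹' T) = T := by
      ext f
      simp only [Set.mem_preimage, shift_neg]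
    rw [this, h1]
  · rw [← hγ x, Measure.map_apply (meas_shift x) (meas_shift _ hT).compl]
    have : shift x ⁻¹' (shift (-x) ⁻¹' T)ᶜ = Tᶜ := by
      ext f
      simp only [Set.mem_preimage, Set.mem_compl_iff, shift_neg]
    rw [this, h2]

theorem ac_map {γ s : Measure MW} (hγ : IsStationary γ) (h : s ≪ γ) (x : ℂ) :
    s.map (shift x) ≪ γ := by
  have h1 := h.map (meas_shift x)
  rwa [hγ x] at h1

/-- **Decomposition.** A stationary law is the sum of a multiple of the random wave and of a
stationary measure which is singular to it. -/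
theorem decomp {γ : Measure MW} [IsProbabilityMeasure γ] (hγ : IsRandomWave γ) {μ : Measure MW}
    [IsProbabilityMeasure μ] (hμ : IsStationary μ) :
    ∃ (p : ℝ≥0∞) (s : Measure MW), p ≤ 1 ∧ μ = p • γ + s ∧ IsStationary s ∧ s ⟂ₘ γ := by
  have hγs := rw_stat hγ
  set s := μ.singularPart γ with hs
  set a := γ.withDensity (μ.rnDeriv γ) with ha
  have hadd : μ = s + a := Measure.haveLebesgueDecomposition_add μ γ
  have hsing : s ⟂ₘ γ := Measure.mutuallySingular_singularPart μ γ
  have hfa : IsFiniteMeasure a := by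
    refine ⟨lt_of_le_of_lt ?_ (measure_lt_top μ Set.univ)⟩
    conv_rhs => rw [hadd]
    rw [Measure.add_apply]
    exact le_add_self
  have hac : a ≪ γ := withDensity_absolutelyContinuous _ _
  have hkey : ∀ x : ℂ, s.map (shift x) = s ∧ a.map (shift x) = a := by
    intro x
    have h1 : μ = s.map (shift x) + a.map (shift x) := by
      rw [← Measure.map_add _ _ (meas_shift x), ← hadd, hμ x]
    have h2 : a.map (shift x) ≪ γ := ac_map hγs hac x
    have h3 : γ.withDensity ((a.map (shift x)).rnDeriv γ) = a.map (shift x) :=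
      Measure.withDensity_rnDeriv_eq _ _ h2
    have h4 := sing_map hγs hsing x
    rw [← h3] at h1
    constructor
    · exact Measure.eq_singularPart (Measure.measurable_rnDeriv _ _) h4 h1
    · rw [← h3]
      exact Measure.eq_withDensity_rnDeriv (Measure.measurable_rnDeriv _ _) h4 h1
  have h5 := eq_smul hγ (fun x => (hkey x).2) hac
  refine ⟨a Set.univ, s, ?_, ?_, fun x => (hkey x).1, hsing⟩
  · calc a Set.univ ≤ μ Set.univ := by
          conv_rhs => rw [hadd]
          rw [Measure.add_apply]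
          exact le_add_self
      _ = 1 := measure_univ
  · rw [← h5, add_comm]
    exact hadd

end Pool.Agent.H992.LB
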