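import Pool.Agent.H992.LB.Ult

/-!
# The criterion in terms of the local characteristic functions
-/

set_option autoImplicit false
open MeasureTheory Filter Topology Complex ProbabilityTheory
open scoped ContDiff ENNReal

namespace Pool.Agent.H992.LB

open Pool.Agent.N661.BR (J0 MW lin shift IsStationary IsErgodic IsRandomWave meas_eval meas_shift
  meas_W)
open Pool.Agent.Y265.RW (sy rr)
open Pool.Agent.N814.BHM
open Pool.Agent.N814.BHASM

variable {Ω : Set ℂ} {lam : ℕ → ℝ} {u : ℕ → ℂ → ℝ}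

/-- the finitely supported function of a list of points and coefficients -/
noncomputable def fs {k : ℕ} (w : Fin k → ℂ) (t : Fin k → ℝ) : ℂ →₀ ℝ :=
  ∑ j, Finsupp.single (w j) (t j)

theorem val_fs {k : ℕ} (w : Fin k → ℂ) (t : Fin k → ℝ) (f : MW) : val (fs w t) f = lin w t f := by
  unfold val fs lin
  rw [← Finsupp.sum_finset_sum_index (fun _ => by simp) (fun _ _ _ => by ring)]
  refine Finset.sum_congr rfl fun j _ => ?_
  rw [Finsupp.sum_single_index (by simp)]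

theorem SX_fs {k : ℕ} (lam : ℝ) (u : ℂ → ℝ) (w : Fin k → ℂ) (t : Fin k → ℝ)
    (p : ℂ × (ℝ × Bool)) : SX lam u (fs w t) p = ∑ j, ((t j : ℝ) : ℂ) * X lam u 0 (w j) p := by
  unfold SX fs
  rw [← Finsupp.sum_finset_sum_index (fun _ => by simp) (fun _ _ _ => by push_cast; ring)]
  refine Finset.sum_congr rfl fun j _ => ?_
  rw [Finsupp.sum_single_index (by simp)]

theorem G_fs (H : Hyp Ω lam u) {k : ℕ} (w : Fin k → ℂ) (t : Fin k → ℝ) :
    ∀ᶠ n in atTop, G Ω (lam n) (u n) (fs w t) = locChar Ω (lam n) (u n) w t := by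
  have hsm : ∀ᶠ n in atTop, ∀ j, 1 / √(lam n) * ‖w j‖ < 1 :=
    Filter.eventually_all.2 fun j => small H _
  filter_upwards [hsm] with n hn
  have h := chr H (n := n) (fun j => ((t j : ℝ) : ℂ)) w hn
  simp only [Complex.ofReal_re] at h
  unfold locChar
  rw [← h]
  unfold G eX Pool.Agent.N814.BHASM.ex
  simp_rw [SX_fs]

theorem trig_eq' {U : Set ℂ} (c : (U →₀ ℝ) →₀ ℂ) :
    ∃ (n k : ℕ) (w : Fin k → ℂ) (t : Fin n → Fin k → ℝ) (d : Fin n → ℂ),
      (∀ j, w j ∈ U) ∧ ∀ Φ : (ℂ →₀ ℝ) → ℂ,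
        (c.sum fun τ z => z * Φ (τ.mapDomain Subtype.val)) = ∑ m, d m * Φ (fs w (t m)) := by
  classical
  let s := c.support
  let J : Finset U := s.biUnion fun τ => τ.support
  refine ⟨s.card, J.card, fun j => ((J.equivFin.symm j : J) : U), fun m j =>
    ((s.equivFin.symm m : s) : U →₀ ℝ) ((J.equivFin.symm j : J) : U),
    fun m => c ((s.equivFin.symm m : s) : U →₀ ℝ), fun j => Subtype.coe_prop _, fun Φ => ?_⟩
  unfold Finsupp.sum
  rw [← Finset.sum_coe_sort s, ← Equiv.sum_comp s.equivFin.symm]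
  refine Finset.sum_congr rfl fun m _ => ?_
  set τ : U →₀ ℝ := ((s.equivFin.symm m : s) : U →₀ ℝ) with hτ
  have h1 : τ.support ⊆ J := Finset.subset_biUnion_of_mem (fun τ : U →₀ ℝ => τ.support)
    (s.equivFin.symm m).2
  have h2 : τ.mapDomain Subtype.val =
      fs (fun j => ((((J.equivFin.symm j : J) : U)) : ℂ)) (fun j => τ ((J.equivFin.symm j : J) : U)) := by
    unfold Finsupp.mapDomain Finsupp.sum fs
    rw [Finset.sum_subset h1 (fun i _ hi => by
      have h0 := Finsupp.notMem_support_iff.1 hi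
      simp [h0]), ← Finset.sum_coe_sort J,
      ← Equiv.sum_comp J.equivFin.symm]
  show c τ * Φ (τ.mapDomain Subtype.val) = c τ * Φ (fs _ _)
  rw [h2]

theorem ex_map {U : Set ℂ} (τ : U →₀ ℝ) (f : MW) :
    ex (ev U) τ f = eγ (τ.mapDomain Subtype.val) f := by
  unfold ex eγ val
  rw [Finsupp.sum_mapDomain_index (fun _ => by simp) (fun _ _ _ => by ring)]
  rfl

/-- **The criterion**, one direction -/
theorem criterion (H : Hyp Ω lam u) {γ : Measure MW} [IsProbabilityMeasure γ]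
    (hγ : IsRandomWave γ) {U : Set ℂ} (hU : IsOpen U) (hne : U.Nonempty) {C : ℝ}
    (hC : ∀ (n k : ℕ) (w : Fin k → ℂ) (t : Fin n → Fin k → ℝ) (c : Fin n → ℂ), (∀ j, w j ∈ U) →
      ∀ ε : ℝ, 0 < ε → ∀ᶠ i in atTop,
        ‖∑ m, c m * locChar Ω (lam i) (u i) w (t m)‖ ^ 2 ≤
          C * (∫ f, ‖trigSum w t c f‖ ^ 2 ∂γ) + ε)
    (k : ℕ) (w : Fin k → ℂ) (t : Fin k → ℝ) :
    Tendsto (fun i => locChar Ω (lam i) (u i) w t) atTop
      (𝓝 (∫ f, Complex.exp (I * (lin w t f : ℝ)) ∂γ)) := by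
  have h1 := conv_rw H hγ hU hne (C := C) (fun c ε hε => by
    obtain ⟨n, k, w, t, d, hw, hΦ⟩ := trig_eq' c
    have e1 : ∀ᶠ i in atTop, ∀ m, G Ω (lam i) (u i) (fs w (t m)) =
        locChar Ω (lam i) (u i) w (t m) := Filter.eventually_all.2 fun m => G_fs H w (t m)
    have e2 : ∀ f : MW, trig (ev U) c f = trigSum w t d f := by
      intro f
      have h3 := hΦ fun τ => eγ τ f
      have h4 : ∑ m, d m * eγ (fs w (t m)) f = trigSum w t d f := by
        unfold trigSum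
        refine Finset.sum_congr rfl fun m _ => ?_
        rw [eγ, val_fs]
      rw [← h4, ← h3]
      unfold trig Finsupp.sum
      refine Finset.sum_congr rfl fun τ _ => ?_
      show c τ * ex (ev U) τ f = c τ * eγ (τ.mapDomain Subtype.val) f
      rw [ex_map]
    filter_upwards [hC n k w t d hw ε hε, e1] with i hi hi2
    rw [hΦ fun τ => G Ω (lam i) (u i) τ]
    simp_rw [hi2, e2]
    exact hi) (fs w t)
  have h2 : ∫ f, eγ (fs w t) f ∂γ = ∫ f, Complex.exp (I * (lin w t f : ℝ)) ∂γ := by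
    refine integral_congr_ae (Eventually.of_forall fun f => ?_)
    simp only [eγ, val_fs]
  rw [h2] at h1
  exact h1.congr' (G_fs H w t)

theorem trigSum_meas {k n : ℕ} (w : Fin k → ℂ) (t : Fin n → Fin k → ℝ) (c : Fin n → ℂ) :
    Measurable (trigSum w t c) := by
  unfold trigSum
  refine Finset.measurable_sum _ fun m _ => Measurable.const_mul ?_ _
  have := meas_lin w (t m)
  fun_prop

theorem trigSum_bd {k n : ℕ} (w : Fin k → ℂ) (t : Fin n → Fin k → ℝ) (c : Fin n → ℂ) (f : MW) :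
    ‖trigSum w t c f‖ ≤ ∑ m, ‖c m‖ := by
  unfold trigSum
  refine (norm_sum_le _ _).trans (Finset.sum_le_sum fun m _ => ?_)
  rw [norm_mul, mul_comm I, Complex.norm_exp_ofReal_mul_I, mul_one]

/-- **The criterion**, the other direction -/
theorem criterion_conv {γ : Measure MW} [IsProbabilityMeasure γ]
    (h : ∀ (k : ℕ) (w : Fin k → ℂ) (t : Fin k → ℝ),
      Tendsto (fun i => locChar Ω (lam i) (u i) w t) atTop
        (𝓝 (∫ f, Complex.exp (I * (lin w t f : ℝ)) ∂γ)))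
    (n k : ℕ) (w : Fin k → ℂ) (t : Fin n → Fin k → ℝ) (c : Fin n → ℂ) (ε : ℝ) (hε : 0 < ε) :
    ∀ᶠ i in atTop, ‖∑ m, c m * locChar Ω (lam i) (u i) w (t m)‖ ^ 2 ≤
      1 * (∫ f, ‖trigSum w t c f‖ ^ 2 ∂γ) + ε := by
  have h1 : Tendsto (fun i => ‖∑ m, c m * locChar Ω (lam i) (u i) w (t m)‖ ^ 2) atTop
      (𝓝 (‖∫ f, trigSum w t c f ∂γ‖ ^ 2)) := by
    rw [int_trigSum]
    exact (tendsto_finset_sum _ fun m _ => (h k w (t m)).const_mul (c m)).norm.pow 2
  have hi : Integrable (fun f => ‖trigSum w t c f‖) γ :=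
    Integrable.of_bound (trigSum_meas w t c).norm.aestronglyMeasurable (∑ m, ‖c m‖)
      (Eventually.of_forall fun f => by rw [norm_norm]; exact trigSum_bd w t c f)
  have hi2 : Integrable (fun f => ‖trigSum w t c f‖ ^ 2) γ :=
    Integrable.of_bound ((trigSum_meas w t c).norm.pow_const 2).aestronglyMeasurable
      ((∑ m, ‖c m‖) ^ 2) (Eventually.of_forall fun f => by
        rw [Real.norm_eq_abs, abs_of_nonneg (by positivity)]
        exact pow_le_pow_left₀ (norm_nonneg _) (trigSum_bd w t c f) 2)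
  have h2 : ‖∫ f, trigSum w t c f ∂γ‖ ^ 2 ≤ ∫ f, ‖trigSum w t c f‖ ^ 2 ∂γ := by
    set m := ∫ f, ‖trigSum w t c f‖ ∂γ with hm
    have e1 : ‖∫ f, trigSum w t c f ∂γ‖ ≤ m := norm_integral_le_integral_norm _
    have e2 : 0 ≤ ∫ f, (‖trigSum w t c f‖ - m) ^ 2 ∂γ := integral_nonneg fun f => sq_nonneg _
    have e3 : ∫ f, (‖trigSum w t c f‖ - m) ^ 2 ∂γ = (∫ f, ‖trigSum w t c f‖ ^ 2 ∂γ) - m ^ 2 := by
      have e4 : ∀ f, (‖trigSum w t c f‖ - m) ^ 2 =
          ‖trigSum w t c f‖ ^ 2 - 2 * m * ‖trigSum w t c f‖ + m ^ 2 := fun f => by ring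
      simp_rw [e4]
      have s1 := integral_sub hi2 (hi.const_mul (2 * m))
      have s2 := integral_add (hi2.sub (hi.const_mul (2 * m))) (integrable_const (m ^ 2))
      simp only [Pi.sub_apply] at s2
      rw [s2, s1, integral_const_mul, ← hm]
      simp only [integral_const, probReal_univ, one_smul]
      ring
    calc ‖∫ f, trigSum w t c f ∂γ‖ ^ 2 ≤ m ^ 2 := pow_le_pow_left₀ (norm_nonneg _) e1 2
      _ ≤ ∫ f, ‖trigSum w t c f‖ ^ 2 ∂γ := by linarith
  exact (h1.eventually (gt_mem_nhds (show ‖∫ f, trigSum w t c f ∂γ‖ ^ 2 <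
    1 * (∫ f, ‖trigSum w t c f‖ ^ 2 ∂γ) + ε by linarith))).mono fun i hi => hi.le

end Pool.Agent.H992.LB
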