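import Pool.Graph.R_pool_sql_team_seeded_63374d34.N661.BR.Defs

/-!
# The Bessel function `J0` tends to zero
-/

set_option autoImplicit false
open MeasureTheory Filter Topology Complex
open scoped ContDiff ENNReal

namespace Pool.Agent.H992.LB

open Pool.Agent.N661.BR (J0)

/-- the density of the cosine of a random angle, up to a factor -/
noncomputable def dens : ℝ → ℂ := (Set.Ioo (-1 : ℝ) 1).indicator fun x => ((1 / √(1 - x ^ 2) : ℝ) : ℂ)

theorem cos_image : Real.cos '' Set.Ioo 0 Real.pi = Set.Ioo (-1 : ℝ) 1 := by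
  ext y
  constructor
  · rintro ⟨x, hx, rfl⟩
    constructor
    · have := Real.cos_lt_cos_of_nonneg_of_le_pi hx.1.le le_rfl hx.2
      rwa [Real.cos_pi] at this
    · have := Real.cos_lt_cos_of_nonneg_of_le_pi le_rfl hx.2.le hx.1
      rwa [Real.cos_zero] at this
  · intro hy
    refine ⟨Real.arccos y, ⟨?_, ?_⟩, Real.cos_arccos hy.1.le hy.2.le⟩
    · exact Real.arccos_pos.2 hy.2
    · have := Real.arccos_lt_arccos (x := -1) (y := y) le_rfl hy.1 hy.2.le
      rwa [Real.arccos_neg_one] at this

theorem half (r : ℝ) : ∫ x, Complex.exp (((-(x * r) : ℝ) : ℂ) * I) * dens x =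
    ∫ α in Set.Ioo (0:ℝ) Real.pi, Complex.exp (((-(Real.cos α * r) : ℝ) : ℂ) * I) := by
  have h1 : ∀ x, Complex.exp (((-(x * r) : ℝ) : ℂ) * I) * dens x =
      (Set.Ioo (-1 : ℝ) 1).indicator (fun x => Complex.exp (((-(x * r) : ℝ) : ℂ) * I) *
        ((1 / √(1 - x ^ 2) : ℝ) : ℂ)) x := by
    intro x
    unfold dens
    by_cases hx : x ∈ Set.Ioo (-1 : ℝ) 1
    · rw [Set.indicator_of_mem hx, Set.indicator_of_mem hx]
    · rw [Set.indicator_of_notMem hx, Set.indicator_of_notMem hx, mul_zero]
  simp_rw [h1]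
  rw [integral_indicator measurableSet_Ioo, ← cos_image,
    integral_image_eq_integral_abs_deriv_smul measurableSet_Ioo
      (fun x _ => (Real.hasDerivAt_cos x).hasDerivWithinAt)
      (Real.injOn_cos.mono (Set.Ioo_subset_Icc_self))]
  refine setIntegral_congr_fun measurableSet_Ioo fun α hα => ?_
  have hs : 0 < Real.sin α := Real.sin_pos_of_mem_Ioo hα
  show |(-Real.sin α)| • (Complex.exp (((-(Real.cos α * r) : ℝ) : ℂ) * I) *
        ((1 / √(1 - Real.cos α ^ 2) : ℝ) : ℂ)) = _
  rw [abs_neg, abs_of_pos hs]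
  have : √(1 - Real.cos α ^ 2) = Real.sin α := by
    rw [← Real.sin_sq, Real.sqrt_sq hs.le]
  rw [this, Complex.real_smul, mul_comm, mul_assoc, ← Complex.ofReal_mul,
    one_div_mul_cancel hs.ne', Complex.ofReal_one, mul_one]

theorem J0_half (r : ℝ) : J0 r = (1 / Real.pi) *
    (∫ α in Set.Ioo (0:ℝ) Real.pi, Complex.exp (((-(Real.cos α * r) : ℝ) : ℂ) * I)).re := by
  have h1 : ∫ α in (0:ℝ)..(2 * Real.pi), Real.cos (r * Real.cos α) =
      2 * ∫ α in (0:ℝ)..Real.pi, Real.cos (r * Real.cos α) := by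
    have hc : Continuous fun α => Real.cos (r * Real.cos α) := by fun_prop
    rw [← intervalIntegral.integral_add_adjacent_intervals (hc.intervalIntegrable 0 Real.pi)
      (hc.intervalIntegrable Real.pi (2 * Real.pi))]
    have h2 : ∫ α in Real.pi..(2 * Real.pi), Real.cos (r * Real.cos α) =
        ∫ α in (0:ℝ)..Real.pi, Real.cos (r * Real.cos α) := by
      have := intervalIntegral.integral_comp_add_right (a := 0) (b := Real.pi)
        (fun α => Real.cos (r * Real.cos α)) Real.pi
      rw [zero_add, ← two_mul] at this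
      rw [← this]
      refine intervalIntegral.integral_congr fun α _ => ?_
      simp only [Real.cos_add_pi, mul_neg, Real.cos_neg]
    rw [h2]
    ring
  have h3 : (∫ α in Set.Ioo (0:ℝ) Real.pi, Complex.exp (((-(Real.cos α * r) : ℝ) : ℂ) * I)).re =
      ∫ α in (0:ℝ)..Real.pi, Real.cos (r * Real.cos α) := by
    rw [intervalIntegral.integral_of_le Real.pi_pos.le, ← integral_Ioc_eq_integral_Ioo,
      ← Complex.reCLM_apply, ← ContinuousLinearMap.integral_comp_comm]
    · refine integral_congr_ae (Eventually.of_forall fun α => ?_)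
      show Complex.re (Complex.exp (((-(Real.cos α * r) : ℝ) : ℂ) * I)) = _
      rw [Complex.exp_ofReal_mul_I_re, Real.cos_neg, mul_comm]
    · have : Continuous fun α : ℝ => Complex.exp (((-(Real.cos α * r) : ℝ) : ℂ) * I) := by
        fun_prop
      exact (this.integrableOn_Icc (a := 0) (b := Real.pi)).mono_set Set.Ioc_subset_Icc_self
  unfold J0
  rw [h1, h3]
  field_simp

theorem J0_tendsto : Tendsto J0 atTop (𝓝 0) := by
  have h1 := (Real.tendsto_integral_exp_smul_cocompact dens).mono_left
    (show atTop ≤ cocompact ℝ by rw [cocompact_eq_atBot_atTop]; exact le_sup_right)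
  have h2 : Tendsto (fun r : ℝ => ∫ x, Complex.exp (((-(x * r) : ℝ) : ℂ) * I) * dens x) atTop
      (𝓝 0) := by
    have h3 : Tendsto (fun r : ℝ => r / (2 * Real.pi)) atTop atTop :=
      tendsto_id.atTop_div_const (by positivity)
    refine (h1.comp h3).congr fun r => ?_
    simp only [Function.comp_apply]
    refine integral_congr_ae (Eventually.of_forall fun x => ?_)
    show Real.fourierChar (-(x * (r / (2 * Real.pi)))) • dens x = _
    rw [Circle.smul_def, Real.fourierChar_apply, smul_eq_mul]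
    congr 3
    push_cast
    field_simp
  have h4 : Tendsto (fun r : ℝ => (1 / Real.pi) *
      (∫ x, Complex.exp (((-(x * r) : ℝ) : ℂ) * I) * dens x).re) atTop
      (𝓝 ((1 / Real.pi) * (0 : ℂ).re)) :=
    ((Complex.continuous_re.tendsto _).comp h2).const_mul _
  rw [Complex.zero_re, mul_zero] at h4
  refine h4.congr fun r => ?_
  rw [half, ← J0_half]

end Pool.Agent.H992.LB
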