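import Pool.Agent.H992.LB.Loc

/-!
# Convergence of the local laws to the random wave
-/

set_option autoImplicit false
open MeasureTheory Filter Topology Complex ProbabilityTheory
open scoped ContDiff ENNReal

namespace Pool.Agent.H992.LB

open Pool.Agent.N661.BR (J0 MW lin shift IsStationary IsErgodic IsRandomWave meas_eval meas_shift
  meas_W)
open Pool.Agent.Y265.RW (sy rr)
open Pool.Agent.N814.BHM
open Pool.Agent.N814.BHASM

variable {Ω : Set ℂ} {lam : ℕ → ℝ} {u : ℕ → ℂ → ℝ}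

/-- the linear statistic of the local field -/
noncomputable def SX (lam : ℝ) (u : ℂ → ℝ) (τ : ℂ →₀ ℝ) (p : ℂ × (ℝ × Bool)) : ℂ :=
  τ.sum fun w t => (t : ℂ) * X lam u 0 w p

theorem SX_pt (lam : ℝ) (u : ℂ → ℝ) (τ : ℂ →₀ ℝ) (p : ℂ × (ℝ × Bool)) :
    SX lam u τ p = ∑ j, ((τ (pt τ j) : ℝ) : ℂ) * X lam u 0 (pt τ j) p := sum_pt τ _

theorem SX_add (lam : ℝ) (u : ℂ → ℝ) (τ τ' : ℂ →₀ ℝ) (p : ℂ × (ℝ × Bool)) :
    SX lam u (τ + τ') p = SX lam u τ p + SX lam u τ' p := by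
  unfold SX
  exact Finsupp.sum_add_index' (fun _ => by simp) (fun _ _ _ => by push_cast; ring)

theorem SX_sub (lam : ℝ) (u : ℂ → ℝ) (τ τ' : ℂ →₀ ℝ) (p : ℂ × (ℝ × Bool)) :
    SX lam u (τ - τ') p = SX lam u τ p - SX lam u τ' p := by
  have h := SX_add lam u (τ - τ') τ' p
  rw [sub_add_cancel] at h
  rw [h]
  ring

/-- the exponential -/
noncomputable def eX (lam : ℝ) (u : ℂ → ℝ) (τ : ℂ →₀ ℝ) (p : ℂ × (ℝ × Bool)) : ℂ :=
  Complex.exp (I * (((SX lam u τ p).re : ℝ) : ℂ))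

theorem eX_ex (lam : ℝ) (u : ℂ → ℝ) (τ : ℂ →₀ ℝ) (p : ℂ × (ℝ × Bool)) : eX lam u τ p =
    Pool.Agent.N814.BHASM.ex lam u (fun j => ((τ (pt τ j) : ℝ) : ℂ)) (pt τ) p := by
  unfold eX Pool.Agent.N814.BHASM.ex
  rw [SX_pt]

theorem eX_norm (lam : ℝ) (u : ℂ → ℝ) (τ : ℂ →₀ ℝ) (p : ℂ × (ℝ × Bool)) : ‖eX lam u τ p‖ = 1 := by
  rw [eX_ex, Pool.Agent.N814.BHASM.ex_norm]

theorem SX_meas {lam : ℝ} {u : ℂ → ℝ} (hu : ContDiffOn ℝ ∞ u Pool.Agent.N661.BH.HP) (τ : ℂ →₀ ℝ) :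
    Measurable (SX lam u τ) := by
  have : SX lam u τ = fun p => ∑ j, ((τ (pt τ j) : ℝ) : ℂ) * X lam u 0 (pt τ j) p :=
    funext (SX_pt lam u τ)
  rw [this]
  exact Finset.measurable_fun_sum _ fun j _ => (X_meas hu 0 (pt τ j)).const_mul _

theorem eX_meas {lam : ℝ} {u : ℂ → ℝ} (hu : ContDiffOn ℝ ∞ u Pool.Agent.N661.BH.HP) (τ : ℂ →₀ ℝ) :
    Measurable (eX lam u τ) := by
  unfold eX
  exact Complex.measurable_exp.comp
    ((Complex.measurable_ofReal.comp (Complex.measurable_re.comp (SX_meas hu τ))).const_mul I)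

theorem eX_sub (lam : ℝ) (u : ℂ → ℝ) (τ τ' : ℂ →₀ ℝ) (p : ℂ × (ℝ × Bool)) :
    ‖eX lam u τ p - eX lam u τ' p‖ ≤ ‖SX lam u (τ - τ') p‖ := by
  unfold eX
  refine (Pool.Agent.N40.BRSTATH.exp_sub _ _).trans ?_
  rw [← Complex.sub_re, ← SX_sub]
  exact Complex.abs_re_le_norm _

/-- the mean of the exponential -/
noncomputable def G (Ω : Set ℂ) (lam : ℝ) (u : ℂ → ℝ) (τ : ℂ →₀ ℝ) : ℂ := ∫ p, eX lam u τ p ∂(P Ω)

theorem G_bd (H : Hyp Ω lam u) (n : ℕ) (τ : ℂ →₀ ℝ) : ‖G Ω (lam n) (u n) τ‖ ≤ 1 := by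
  haveI := probP H
  refine (norm_integral_le_of_norm_le (integrable_const (1:ℝ))
    (Eventually.of_forall fun p => (eX_norm _ _ _ p).le)).trans ?_
  simp

theorem iso_SX (H : Hyp Ω lam u) {φ : ℂ → ℝ} (hφ : Wt Ω φ) (τ : ℂ →₀ ℝ) :
    Tendsto (fun n => ∫ p, φ p.1 * ‖SX (lam n) (u n) τ p‖ ^ 2 ∂(P Ω)) atTop
      (𝓝 (nn τ * ∫ p, φ p.1 ∂(P Ω))) := by
  have h := iso H Pool.Agent.N87.BH.BDH Pool.Agent.N645.BH.ISOH hφ
    (fun j => ((τ (pt τ j) : ℝ) : ℂ)) (fun _ => 0) (pt τ)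
  simp only [zpow_zero, one_mul] at h
  have e1 : (1 / (2 * Real.pi) * ∫ α in (0:ℝ)..(2 * Real.pi),
      ‖∑ j, ((τ (pt τ j) : ℝ) : ℂ) * Complex.exp ((rr (pt τ j) α : ℂ) * I)‖ ^ 2) = nn τ := by
    unfold nn
    congr 1
    refine intervalIntegral.integral_congr fun α _ => ?_
    simp only [sb]
    rw [sum_pt τ]
  rw [e1] at h
  refine h.congr fun n => ?_
  refine integral_congr_ae (Eventually.of_forall fun p => ?_)
  simp only [SX_pt]

theorem fst_le (H : Hyp Ω lam u) {φ : ℂ → ℝ} (hφ : Wt Ω φ) :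
    Integrable (fun p : ℂ × (ℝ × Bool) => φ p.1) (P Ω) ∧ ∫ p, φ p.1 ∂(P Ω) ≤ 1 ∧
      0 ≤ ∫ p, φ p.1 ∂(P Ω) := by
  haveI := probP H
  have hm : Measurable fun p : ℂ × (ℝ × Bool) => φ p.1 :=
    hφ.tf.1.continuous.measurable.comp measurable_fst
  have hi : Integrable (fun p : ℂ × (ℝ × Bool) => φ p.1) (P Ω) :=
    Integrable.of_bound hm.aestronglyMeasurable 1 (Eventually.of_forall fun p => by
      rw [Real.norm_eq_abs, abs_of_nonneg (hφ.mem _).1]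
      exact (hφ.mem _).2)
  refine ⟨hi, ?_, integral_nonneg fun p => (hφ.mem _).1⟩
  have h1 : ∫ _ : ℂ × (ℝ × Bool), (1 : ℝ) ∂(P Ω) = 1 := by simp
  rw [← h1]
  exact integral_mono hi (integrable_const _) fun p => (hφ.mem _).2

/-- a bound of a mean by a weighted mean -/
theorem split_bd (H : Hyp Ω lam u) {φ : ℂ → ℝ} (hφ : Wt Ω φ) {F : ℂ × (ℝ × Bool) → ℂ}
    (hF : Measurable F) (h2 : ∀ p, ‖F p‖ ≤ 2) :
    ‖∫ p, F p ∂(P Ω)‖ ≤ 2 * (1 - ∫ p, φ p.1 ∂(P Ω)) + ‖∫ p, (φ p.1 : ℂ) * F p ∂(P Ω)‖ := by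
  haveI := probP H
  obtain ⟨hi, hle, -⟩ := fst_le H hφ
  have hFi : Integrable F (P Ω) := Integrable.of_bound hF.aestronglyMeasurable 2
    (Eventually.of_forall h2)
  have hm : Measurable fun p : ℂ × (ℝ × Bool) => φ p.1 :=
    hφ.tf.1.continuous.measurable.comp measurable_fst
  have hφF : Integrable (fun p => (φ p.1 : ℂ) * F p) (P Ω) :=
    hFi.bdd_mul (c := 1) (f := fun p : ℂ × (ℝ × Bool) => (φ p.1 : ℂ))
      (Complex.measurable_ofReal.comp hm).aestronglyMeasurable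
      (Eventually.of_forall fun p => Pool.Agent.N40.BRSTATH.wnorm hφ _)
  have e1 : ∫ p, F p ∂(P Ω) = ∫ p, (1 - (φ p.1 : ℂ)) * F p ∂(P Ω) + ∫ p, (φ p.1 : ℂ) * F p ∂(P Ω) := by
    rw [← integral_add]
    · refine integral_congr_ae (Eventually.of_forall fun p => ?_)
      simp only
      ring
    · have := hFi.sub hφF
      refine this.congr (Eventually.of_forall fun p => ?_)
      simp only [Pi.sub_apply]
      ring
    · exact hφF
  have e2 : ‖∫ p, (1 - (φ p.1 : ℂ)) * F p ∂(P Ω)‖ ≤ 2 * (1 - ∫ p, φ p.1 ∂(P Ω)) := by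
    have e3 : ∫ p, (1 - φ p.1) * 2 ∂(P Ω) = 2 * (1 - ∫ p, φ p.1 ∂(P Ω)) := by
      rw [integral_mul_const, integral_sub (integrable_const _) hi]
      simp
      ring
    rw [← e3]
    refine norm_integral_le_of_norm_le (((integrable_const _).sub hi).mul_const _)
      (Eventually.of_forall fun p => ?_)
    rw [norm_mul, ← Complex.ofReal_one, ← Complex.ofReal_sub, Complex.norm_real, Real.norm_eq_abs,
      abs_of_nonneg (by linarith [(hφ.mem p.1).2])]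
    exact mul_le_mul_of_nonneg_left (h2 p) (by linarith [(hφ.mem p.1).2])
  rw [e1]
  exact (norm_add_le _ _).trans (by gcongr)

/-- **(E1)** -/
theorem G_diff (H : Hyp Ω lam u) (τ τ' : ℂ →₀ ℝ) {ε : ℝ} (hε : 0 < ε) :
    ∀ᶠ n in atTop, ‖G Ω (lam n) (u n) τ - G Ω (lam n) (u n) τ'‖ ≤ √(nn (τ - τ')) + ε := by
  haveI := probP H
  obtain ⟨φ, hφ, hφ1⟩ := exists_wt H
  obtain ⟨i, hi⟩ := (hφ1.eventually (lt_mem_nhds (show 1 - ε / 4 < 1 by linarith))).exists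
  rw [← fstP H] at hi
  obtain ⟨hfi, hle, hnn⟩ := fst_le H (hφ i)
  set A : ℝ := √(nn (τ - τ')) + ε / 2 with hA
  have hA0 : 0 < A := by positivity
  have h1 : nn (τ - τ') * ∫ p, φ i p.1 ∂(P Ω) < A ^ 2 := by
    calc nn (τ - τ') * ∫ p, φ i p.1 ∂(P Ω) ≤ nn (τ - τ') * 1 := by
          gcongr
          exact nn_nonneg _
      _ = √(nn (τ - τ')) ^ 2 := by rw [mul_one, Real.sq_sqrt (nn_nonneg _)]
      _ < A ^ 2 := by
          apply pow_lt_pow_left₀ _ (Real.sqrt_nonneg _) two_ne_zero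
          rw [hA]
          linarith
  have hsm : ∀ᶠ n in atTop, ∀ j, 1 / √(lam n) * ‖pt (τ - τ') j‖ < 1 :=
    Filter.eventually_all.2 fun j => small H _
  filter_upwards [(iso_SX H (hφ i) (τ - τ')).eventually (gt_mem_nhds h1), hsm] with n hn hn2
  have hm : Measurable fun p : ℂ × (ℝ × Bool) => φ i p.1 :=
    (hφ i).tf.1.continuous.measurable.comp measurable_fst
  have hme : Measurable fun p => eX (lam n) (u n) τ p - eX (lam n) (u n) τ' p :=
    (eX_meas (H.sm n) τ).sub (eX_meas (H.sm n) τ')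
  have e1 : G Ω (lam n) (u n) τ - G Ω (lam n) (u n) τ' =
      ∫ p, (eX (lam n) (u n) τ p - eX (lam n) (u n) τ' p) ∂(P Ω) := by
    unfold G
    rw [integral_sub]
    · exact Integrable.of_bound (eX_meas (H.sm n) τ).aestronglyMeasurable 1
        (Eventually.of_forall fun p => (eX_norm _ _ _ p).le)
    · exact Integrable.of_bound (eX_meas (H.sm n) τ').aestronglyMeasurable 1
        (Eventually.of_forall fun p => (eX_norm _ _ _ p).le)
  rw [e1]
  refine (split_bd H (hφ i) hme fun p => ?_).trans ?_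
  · refine (norm_sub_le _ _).trans ?_
    rw [eX_norm, eX_norm]
    norm_num
  have hsi : Integrable (fun p => φ i p.1 * ‖SX (lam n) (u n) (τ - τ') p‖ ^ 2) (P Ω) := by
    have := sumInt H (hφ i) n (fun j => (((τ - τ') (pt (τ - τ') j) : ℝ) : ℂ)) (fun _ => 0)
      (pt (τ - τ')) hn2
    refine this.congr (Eventually.of_forall fun p => ?_)
    simp only [SX_pt]
  have e2 : ‖∫ p, (φ i p.1 : ℂ) * (eX (lam n) (u n) τ p - eX (lam n) (u n) τ' p) ∂(P Ω)‖ ≤ A := by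
    have e3 : ‖∫ p, (φ i p.1 : ℂ) * (eX (lam n) (u n) τ p - eX (lam n) (u n) τ' p) ∂(P Ω)‖ ≤
        ∫ p, (A / 2 * φ i p.1 + 1 / (2 * A) * (φ i p.1 * ‖SX (lam n) (u n) (τ - τ') p‖ ^ 2)) ∂(P Ω) := by
      refine norm_integral_le_of_norm_le ((hfi.const_mul _).add (hsi.const_mul _))
        (Eventually.of_forall fun p => ?_)
      rw [norm_mul, Complex.norm_real, Real.norm_eq_abs, abs_of_nonneg ((hφ i).mem _).1]
      have e4 := eX_sub (lam n) (u n) τ τ' p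
      set s := ‖SX (lam n) (u n) (τ - τ') p‖
      have e5 : s ≤ A / 2 + 1 / (2 * A) * s ^ 2 := by
        have : 0 ≤ 1 / (2 * A) * (s - A) ^ 2 := by positivity
        have e6 : 1 / (2 * A) * (s - A) ^ 2 = A / 2 + 1 / (2 * A) * s ^ 2 - s := by
          field_simp
          ring
        linarith
      calc φ i p.1 * ‖eX (lam n) (u n) τ p - eX (lam n) (u n) τ' p‖
          ≤ φ i p.1 * (A / 2 + 1 / (2 * A) * s ^ 2) :=
            mul_le_mul_of_nonneg_left (e4.trans e5) ((hφ i).mem _).1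
        _ = A / 2 * φ i p.1 + 1 / (2 * A) * (φ i p.1 * s ^ 2) := by ring
    rw [integral_add (hfi.const_mul _) (hsi.const_mul _), integral_const_mul,
      integral_const_mul] at e3
    calc _ ≤ A / 2 * ∫ p, φ i p.1 ∂(P Ω) +
          1 / (2 * A) * ∫ p, φ i p.1 * ‖SX (lam n) (u n) (τ - τ') p‖ ^ 2 ∂(P Ω) := e3
      _ ≤ A / 2 * 1 + 1 / (2 * A) * A ^ 2 := by gcongr
      _ = A := by
          field_simp
          ring
  rw [hA] at e2
  linarith

theorem mapDomain_sum {E : Type*} [AddCommMonoid E] (τ : ℂ →₀ ℝ) (x : ℂ) (F : ℂ → ℝ → E)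
    (h0 : ∀ w, F w 0 = 0) (ha : ∀ w s t, F w (s + t) = F w s + F w t) :
    (τ.mapDomain (· + x)).sum F = τ.sum fun w t => F (w + x) t :=
  Finsupp.sum_mapDomain_index h0 ha

/-- translation invariance in the limit -/
theorem G_shift (H : Hyp Ω lam u) (τ : ℂ →₀ ℝ) (x : ℂ) {ε : ℝ} (hε : 0 < ε) :
    ∀ᶠ n in atTop, ‖G Ω (lam n) (u n) (τ.mapDomain (· + x)) - G Ω (lam n) (u n) τ‖ ≤ ε := by
  haveI := probP H
  obtain ⟨φ, hφ, hφ1⟩ := exists_wt H
  obtain ⟨i, hi⟩ := (hφ1.eventually (lt_mem_nhds (show 1 - ε / 4 < 1 by linarith))).exists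
  rw [← fstP H] at hi
  have h1 := Pool.Agent.N40.BRSTATH.outer_lim H (hφ i) (fun j => τ (pt τ j)) (pt τ) x
  have h2 := (tendsto_zero_iff_norm_tendsto_zero.1 h1).eventually
    (gt_mem_nhds (show (0:ℝ) < ε / 2 by positivity))
  filter_upwards [h2] with n hn
  have hs : ∀ p, eX (lam n) (u n) (τ.mapDomain (· + x)) p =
      Pool.Agent.N814.BHASM.ex (lam n) (u n) (fun j => ((τ (pt τ j) : ℝ) : ℂ)) (fun j => pt τ j + x) p := by
    intro p
    unfold eX Pool.Agent.N814.BHASM.ex SX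
    rw [mapDomain_sum τ x _ (fun _ => by simp) (fun _ _ _ => by push_cast; ring), sum_pt τ]
  have hme : Measurable fun p => eX (lam n) (u n) (τ.mapDomain (· + x)) p - eX (lam n) (u n) τ p :=
    (eX_meas (H.sm n) _).sub (eX_meas (H.sm n) τ)
  have e1 : G Ω (lam n) (u n) (τ.mapDomain (· + x)) - G Ω (lam n) (u n) τ =
      ∫ p, (eX (lam n) (u n) (τ.mapDomain (· + x)) p - eX (lam n) (u n) τ p) ∂(P Ω) := by
    unfold G
    rw [integral_sub]
    · exact Integrable.of_bound (eX_meas (H.sm n) _).aestronglyMeasurable 1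
        (Eventually.of_forall fun p => (eX_norm _ _ _ p).le)
    · exact Integrable.of_bound (eX_meas (H.sm n) τ).aestronglyMeasurable 1
        (Eventually.of_forall fun p => (eX_norm _ _ _ p).le)
  rw [e1]
  refine (split_bd H (hφ i) hme fun p => ?_).trans ?_
  · refine (norm_sub_le _ _).trans ?_
    rw [eX_norm, eX_norm]
    norm_num
  have e2 : ∫ p, (φ i p.1 : ℂ) * (eX (lam n) (u n) (τ.mapDomain (· + x)) p -
      eX (lam n) (u n) τ p) ∂(P Ω) = ∫ p, (φ i p.1 : ℂ) *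
      (Pool.Agent.N814.BHASM.ex (lam n) (u n) (fun j => ((τ (pt τ j) : ℝ) : ℂ)) (fun j => pt τ j + x) p -
        Pool.Agent.N814.BHASM.ex (lam n) (u n) (fun j => ((τ (pt τ j) : ℝ) : ℂ)) (pt τ) p) ∂(P Ω) := by
    refine integral_congr_ae (Eventually.of_forall fun p => ?_)
    simp only
    rw [hs p, eX_ex]
  rw [e2]
  linarith [hn.le]

end Pool.Agent.H992.LB
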