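import Mathlib

/-!
# Families of real random variables: characteristic functionals and absolute continuity

General facts: a finite measure is determined on the σ-algebra generated by a family of real
functions by the integrals of the exponentials of the finite linear combinations, and absolute
continuity on this σ-algebra follows from a bound for the means of trigonometric sums in terms of
their second moments.
-/

set_option autoImplicit false
open MeasureTheory Filter Topology Complex
open scoped ContDiff ENNReal

namespace Pool.Agent.H992.LB

variable {X ι : Type*} [mX : MeasurableSpace X]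

/-- the σ-algebra generated by the family `Y` -/
def sig (Y : ι → X → ℝ) : MeasurableSpace X := MeasurableSpace.comap (fun x i => Y i x) inferInstance

theorem sig_le {Y : ι → X → ℝ} (hY : ∀ i, Measurable (Y i)) : sig Y ≤ mX := by
  have h : Measurable (fun x i => Y i x) := measurable_pi_lambda _ hY
  exact h.comap_le

theorem meas_sig (Y : ι → X → ℝ) (i : ι) : Measurable[sig Y] (Y i) :=
  (measurable_pi_apply i).comp (comap_measurable (fun x i => Y i x))

/-- finite measures with the same characteristic functional agree on the σ-algebra generated by
the family -/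
theorem ext_family {Y : ι → X → ℝ} (hY : ∀ i, Measurable (Y i)) (μ ν : Measure X)
    [IsFiniteMeasure μ] [IsFiniteMeasure ν]
    (H : ∀ (J : Finset ι) (t : ι → ℝ),
      ∫ x, Complex.exp (I * ((∑ j ∈ J, t j * Y j x : ℝ) : ℂ)) ∂μ =
      ∫ x, Complex.exp (I * ((∑ j ∈ J, t j * Y j x : ℝ) : ℂ)) ∂ν)
    {A : Set X} (hA : MeasurableSet[sig Y] A) : μ A = ν A := by
  classical
  have hval : Measurable (fun x i => Y i x) := measurable_pi_lambda _ hY
  have hp1 : IsFiniteMeasure (μ.map (fun x i => Y i x)) := inferInstance
  have hp2 : IsFiniteMeasure (ν.map (fun x i => Y i x)) := inferInstance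
  have key : ∀ J : Finset ι, (μ.map (fun x i => Y i x)).map J.restrict =
      (ν.map (fun x i => Y i x)).map J.restrict := by
    intro J
    have hr : Measurable (J.restrict : (ι → ℝ) → (J → ℝ)) := Finset.measurable_restrict J
    apply Measure.ext_of_charFunDual
    funext L
    have hchar : ∀ (ρ : Measure X), charFunDual ((ρ.map (fun x i => Y i x)).map
        (J.restrict : (ι → ℝ) → (J → ℝ))) L =
        ∫ x, Complex.exp (I * ((∑ j ∈ J, (fun i => if h : i ∈ J then
          L (Pi.single (⟨i, h⟩ : J) 1) else 0) j * Y j x : ℝ) : ℂ)) ∂ρ := by
      intro ρ
      rw [charFunDual_apply, Measure.map_map hr hval, integral_map (hr.comp hval).aemeasurable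
        (by fun_prop)]
      refine integral_congr_ae (Eventually.of_forall fun x => ?_)
      simp only [Function.comp_apply]
      rw [mul_comm]
      congr 3
      rw [← Finset.sum_coe_sort J]
      have h1 : (J.restrict (fun i => Y i x) : J → ℝ) =
          ∑ j : J, (Y (j : ι) x) • (Pi.single j (1 : ℝ) : J → ℝ) := by
        funext j
        rw [Finset.sum_apply, Finset.sum_eq_single j]
        · simp [Finset.restrict]
        · intro b _ hb
          simp [hb.symm]
        · intro h
          exact absurd (Finset.mem_univ _) h
      rw [h1, map_sum]
      refine Finset.sum_congr rfl fun j _ => ?_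
      rw [map_smul, smul_eq_mul, mul_comm, dif_pos j.2]
    rw [hchar μ, hchar ν, H]
  have h1 : μ.map (fun x i => Y i x) = ν.map (fun x i => Y i x) := by
    have hq : ∀ J : Finset ι, IsFiniteMeasure ((ν.map (fun x i => Y i x)).map
        (J.restrict : (ι → ℝ) → (J → ℝ))) := fun J => inferInstance
    exact IsProjectiveLimit.unique
      (P := fun J : Finset ι => (ν.map (fun x i => Y i x)).map J.restrict)
      (fun J => key J) (fun J => rfl)
  obtain ⟨B, hB, rfl⟩ := hA
  rw [← Measure.map_apply hval hB, ← Measure.map_apply hval hB, h1]

end Pool.Agent.H992.LB
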