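import Pool.Agent.H992.LB.Gen
import Pool.Graph.R_pool_sql_team_seeded_63374d34.N661.BH.Fin2
import Pool.Graph.R_pool_sql_team_seeded_63374d34.N40.BRSTATH

/-!
# The final statements
-/

set_option autoImplicit false
open MeasureTheory Filter Topology Complex ProbabilityTheory
open scoped ContDiff ENNReal

namespace Pool.Agent.H992.LB

open Pool.Agent.W745.RW (lap)
open Pool.Agent.N661.BR (J0 MW lin shift IsStationary IsErgodic IsRandomWave meas_eval meas_shift
  meas_W)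
open Pool.Agent.N661.BH (HP IsQuantumErgodic IsLocalLimit loc frames area)

/-- the random wave is ergodic -/
theorem rw_erg {γ : Measure MW} [IsProbabilityMeasure γ] (hγ : IsRandomWave γ) : IsErgodic γ := by
  intro A hA hinv
  have hs := rw_stat hγ
  have h1 : IsStationary (γ.restrict A) := by
    intro x
    ext B hB
    rw [Measure.map_apply (meas_shift x) hB, Measure.restrict_apply (meas_shift x hB),
      Measure.restrict_apply hB]
    have h2 : γ (shift x ⁻¹' B ∩ A) = γ (shift x ⁻¹' B ∩ shift x ⁻¹' A) :=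
      measure_congr (Filter.EventuallyEq.rfl.inter (hinv x).symm)
    rw [h2, ← Set.preimage_inter, ← Measure.map_apply (meas_shift x) (hB.inter hA), hs x]
  have h3 := eq_smul hγ h1 Measure.absolutelyContinuous_restrict
  rw [Measure.restrict_apply_univ] at h3
  have h4 := congrArg (fun ρ : Measure MW => ρ Aᶜ) h3
  simp only [Measure.restrict_apply hA.compl, Set.compl_inter_self, measure_empty,
    Measure.smul_apply, smul_eq_mul] at h4
  rcases mul_eq_zero.1 h4.symm with h | h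
  · exact Or.inl h
  · exact Or.inr ((prob_compl_eq_zero_iff hA).1 h)

theorem general {γ : Measure MW} [IsProbabilityMeasure γ] (hγ : IsRandomWave γ) {μ : Measure MW}
    [IsProbabilityMeasure μ] (hμ : IsStationary μ) (hi : Integrable (fun f : MW => f 0 ^ 2) μ) :
    ∃ (p : ℝ≥0∞) (s : Measure MW), p ≤ 1 ∧ μ = p • γ + s ∧ IsStationary s ∧
      ∀ x : ℂ, ∃ A : Set MW, MeasurableSet[jet x] A ∧ s A = 0 ∧ γ Aᶜ = 0 := by
  obtain ⟨p, s, hp, hadd, hs, hsing⟩ := decomp hγ hμ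
  refine ⟨p, s, hp, hadd, hs, fun x => ?_⟩
  refine sing_jet hμ (rw_stat hγ) hi (rw_var hγ) x ?_ hsing
  rw [hadd]
  exact Measure.le_add_left le_rfl

theorem eq_of_jet {γ : Measure MW} [IsProbabilityMeasure γ] (hγ : IsRandomWave γ) {μ : Measure MW}
    [IsProbabilityMeasure μ] (hμ : IsStationary μ) (hi : Integrable (fun f : MW => f 0 ^ 2) μ)
    (x : ℂ) (h : ∀ A : Set MW, MeasurableSet[jet x] A → γ A = 0 → μ A = 0) : μ = γ := by
  have hac := ac_of_jet hμ (rw_stat hγ) hi (rw_var hγ) x h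
  have := eq_smul hγ hμ hac
  rwa [measure_univ, one_smul] at this

theorem eq_of_trig {γ : Measure MW} [IsProbabilityMeasure γ] (hγ : IsRandomWave γ) {μ : Measure MW}
    [IsProbabilityMeasure μ] (hμ : IsStationary μ) (hi : Integrable (fun f : MW => f 0 ^ 2) μ)
    {U : Set ℂ} (hU : IsOpen U) (hne : U.Nonempty) {C : ℝ}
    (hC : ∀ (n k : ℕ) (w : Fin k → ℂ) (t : Fin n → Fin k → ℝ) (c : Fin n → ℂ), (∀ j, w j ∈ U) →
      ‖∫ f, trigSum w t c f ∂μ‖ ^ 2 ≤ C * ∫ f, ‖trigSum w t c f‖ ^ 2 ∂γ) : μ = γ := by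
  obtain ⟨x, hx⟩ := hne
  exact eq_of_jet hγ hμ hi x fun A hA h0 => ac_vals μ γ hC (jet_le_vals hU hx A hA) h0

/-- the limits of eigenfunctions are stationary, of finite variance -/
theorem limit_stat {Ω : Set ℂ} (hΩ : IsOpen Ω) (hHP : Ω ⊆ HP) (hne : Ω.Nonempty)
    (hA : IntegrableOn (fun z : ℂ => 1 / z.im ^ 2) Ω)
    {lam : ℕ → ℝ} (hpos : ∀ n, 0 < lam n) (hlam : Tendsto lam atTop atTop)
    {u : ℕ → ℂ → ℝ} (hu : ∀ n, ContDiffOn ℝ ∞ (u n) HP)
    (heq : ∀ n, ∀ z ∈ HP, z.im ^ 2 * lap (u n) z + lam n * u n z = 0)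
    (hqe : IsQuantumErgodic Ω lam u)
    {μ : Measure MW} [IsProbabilityMeasure μ] (hμ : IsLocalLimit Ω lam u μ) :
    IsStationary μ ∧ Integrable (fun f : MW => f 0 ^ 2) μ := by
  refine ⟨Pool.Agent.N40.BRSTATH.STATH Ω hΩ hHP hne hA lam hpos hlam u hu heq hqe μ
    inferInstance hμ, ?_⟩
  obtain ⟨-, h2, -⟩ := Pool.Agent.N661.BH.limit_all hΩ hHP hne hA hpos hlam hu heq hqe
    inferInstance hμ
  refine ⟨((meas_eval 0).pow_const 2).aestronglyMeasurable, ?_⟩
  rw [hasFiniteIntegral_iff_ofReal (Eventually.of_forall fun f => sq_nonneg _)]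
  exact lt_of_le_of_lt h2 ENNReal.one_lt_top

/-- the characteristic functions of the local laws of `u` -/
noncomputable def locChar (Ω : Set ℂ) (lam : ℝ) (u : ℂ → ℝ) {k : ℕ} (w : Fin k → ℂ)
    (t : Fin k → ℝ) : ℂ :=
  (area Ω fun z => frames (fun v => Complex.exp (I * ((∑ j, t j * loc lam u z (v j) : ℝ) : ℂ))) w) /
    area Ω fun _ => 1

theorem int_trigSum {k n : ℕ} (w : Fin k → ℂ) (t : Fin n → Fin k → ℝ) (c : Fin n → ℂ)
    (μ : Measure MW) [IsFiniteMeasure μ] : ∫ f, trigSum w t c f ∂μ =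
      ∑ m, c m * ∫ f, Complex.exp (I * (lin w (t m) f : ℝ)) ∂μ := by
  unfold trigSum
  rw [integral_finset_sum]
  · exact Finset.sum_congr rfl fun m _ => integral_const_mul _ _
  · intro m _
    refine Integrable.const_mul ?_ _
    have := meas_lin w (t m)
    refine Integrable.of_bound (Measurable.aestronglyMeasurable (by fun_prop)) 1
      (Eventually.of_forall fun f => ?_)
    rw [mul_comm, Complex.norm_exp_ofReal_mul_I]

theorem limit_trig {Ω : Set ℂ} {lam : ℕ → ℝ} {u : ℕ → ℂ → ℝ} {μ : Measure MW}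
    [IsProbabilityMeasure μ] (hμ : IsLocalLimit Ω lam u μ) {k n : ℕ} (w : Fin k → ℂ)
    (t : Fin n → Fin k → ℝ) (c : Fin n → ℂ) {B : ℝ}
    (hB : ∀ ε : ℝ, 0 < ε → ∀ᶠ i in atTop,
      ‖∑ m, c m * locChar Ω (lam i) (u i) w (t m)‖ ^ 2 ≤ B + ε) :
    ‖∫ f, trigSum w t c f ∂μ‖ ^ 2 ≤ B := by
  obtain ⟨σ, hσ, hlim⟩ := hμ
  rw [int_trigSum]
  have h1 : Tendsto (fun i => ‖∑ m, c m * locChar Ω (lam (σ i)) (u (σ i)) w (t m)‖ ^ 2) atTop
      (𝓝 (‖∑ m, c m * ∫ f, Complex.exp (I * (lin w (t m) f : ℝ)) ∂μ‖ ^ 2)) :=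
    (tendsto_finset_sum _ fun m _ => (hlim k w (t m)).const_mul (c m)).norm.pow 2
  refine le_of_forall_pos_le_add fun ε hε => ?_
  exact le_of_tendsto h1 (hσ.tendsto_atTop.eventually (hB ε hε))

end Pool.Agent.H992.LB
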