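import Pool.Agent.H992.LB.Rig
import Pool.Graph.R_pool_sql_team_seeded_63374d34.N916.BRSEC
import Pool.Graph.R_pool_sql_team_seeded_63374d34.N878.BRBOCH
import Pool.Graph.R_pool_sql_team_seeded_63374d34.N661.BR.Main

/-!
# The general theorems on stationary waves of finite variance
-/

set_option autoImplicit false
open MeasureTheory Filter Topology Complex ProbabilityTheory
open scoped ContDiff ENNReal

namespace Pool.Agent.H992.LB

open Pool.Agent.N661.BR (J0 MW lin shift IsStationary IsErgodic IsRandomWave meas_eval meas_shift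
  meas_W)
open Pool.Agent.W745.RW (W)

theorem bd_of_var {μ : Measure MW} [IsProbabilityMeasure μ] (hs : IsStationary μ)
    (hi : Integrable (fun f : MW => f 0 ^ 2) μ) : ∃ M : ℝ≥0∞, M ≠ ⊤ ∧ Bd μ M := by
  obtain ⟨m, ν, hν, -, hc⟩ := Pool.Agent.N878.BR.BOCH μ inferInstance hs hi
  have h1 := Pool.Agent.N916.BR.SEC μ inferInstance (fun w => Pool.Agent.N661.BR.sq_int hs hi w)
    m ν hν hc
  refine ⟨1 + ENNReal.ofReal m, by simp, fun a w => ?_⟩
  calc ∫⁻ f : MW, ‖W 1 f a w‖ₑ ∂μ ≤ ∫⁻ f : MW, (1 + ENNReal.ofReal (‖W 1 f a w‖ ^ 2)) ∂μ := by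
        refine lintegral_mono fun f => ?_
        rw [← ofReal_norm_eq_enorm, ← ENNReal.ofReal_one,
          ← ENNReal.ofReal_add zero_le_one (sq_nonneg _)]
        apply ENNReal.ofReal_le_ofReal
        nlinarith [sq_nonneg (‖W 1 f a w‖ - 1), norm_nonneg (W 1 f a w)]
    _ = 1 + ∫⁻ f : MW, ENNReal.ofReal (‖W 1 f a w‖ ^ 2) ∂μ := by
        rw [lintegral_add_left measurable_const, lintegral_one, measure_univ]
    _ ≤ 1 + ENNReal.ofReal m := by
        gcongr
        exact h1 a w

theorem rw_var {γ : Measure MW} (hγ : IsRandomWave γ) : Integrable (fun f : MW => f 0 ^ 2) γ := by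
  have h1 := hγ 1 (fun _ => 0) (fun _ => 1)
  have h2 : MemLp (id : ℝ → ℝ) 2 (gaussianReal 0 (∑ i : Fin 1, ∑ j : Fin 1,
      (fun _ : Fin 1 => (1:ℝ)) i * (fun _ : Fin 1 => (1:ℝ)) j *
        J0 ‖(fun _ : Fin 1 => (0:ℂ)) i - (fun _ : Fin 1 => (0:ℂ)) j‖).toNNReal) :=
    memLp_id_gaussianReal 2
  rw [← h1] at h2
  have h3 := h2.integrable_sq
  rw [integrable_map_measure (by fun_prop) (meas_lin _ _).aemeasurable] at h3
  refine h3.congr (Eventually.of_forall fun f => ?_)
  simp [lin]

theorem Bd.add {μ ν : Measure MW} {M N : ℝ≥0∞} (h1 : Bd μ M) (h2 : Bd ν N) : Bd (μ + ν) (M + N) := by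
  intro a w
  rw [lintegral_add_measure]
  exact add_le_add (h1 a w) (h2 a w)

theorem Bd.mono {μ ν : Measure MW} {M : ℝ≥0∞} (h1 : Bd μ M) (h : ν ≤ μ) : Bd ν M :=
  fun a w => (lintegral_mono' h le_rfl).trans (h1 a w)

/-- an event for the derivatives at `x` which is almost surely equal to a given event, for two
measures -/
theorem determ2 {μ ν : Measure MW} [IsProbabilityMeasure μ] [IsProbabilityMeasure ν]
    (hμ : IsStationary μ) (hν : IsStationary ν) (h1 : Integrable (fun f : MW => f 0 ^ 2) μ)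
    (h2 : Integrable (fun f : MW => f 0 ^ 2) ν) (x : ℂ) {A : Set MW} (hA : MeasurableSet A) :
    ∃ B : Set MW, MeasurableSet[jet x] B ∧ A =ᵐ[μ] B ∧ A =ᵐ[ν] B := by
  obtain ⟨M, hM, hM'⟩ := bd_of_var hμ h1
  obtain ⟨N, hN, hN'⟩ := bd_of_var hν h2
  obtain ⟨B, hB, hAB⟩ := determ (hM'.add hN') (ENNReal.add_ne_top.2 ⟨hM, hN⟩) x hA
  rw [Filter.EventuallyEq, ae_add_measure_iff] at hAB
  exact ⟨B, hB, hAB.1, hAB.2⟩

/-- absolute continuity for the derivatives at one point is absolute continuity -/
theorem ac_of_jet {μ ν : Measure MW} [IsProbabilityMeasure μ] [IsProbabilityMeasure ν]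
    (hμ : IsStationary μ) (hν : IsStationary ν) (h1 : Integrable (fun f : MW => f 0 ^ 2) μ)
    (h2 : Integrable (fun f : MW => f 0 ^ 2) ν) (x : ℂ)
    (h : ∀ A : Set MW, MeasurableSet[jet x] A → ν A = 0 → μ A = 0) : μ ≪ ν := by
  refine Measure.AbsolutelyContinuous.mk fun A hA hA0 => ?_
  obtain ⟨B, hB, hB1, hB2⟩ := determ2 hμ hν h1 h2 x hA
  rw [measure_congr hB1]
  apply h B hB
  rwa [← measure_congr hB2]

/-- singularity is visible in the derivatives at one point -/
theorem sing_jet {μ ν s : Measure MW} [IsProbabilityMeasure μ] [IsProbabilityMeasure ν]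
    (hμ : IsStationary μ) (hν : IsStationary ν) (h1 : Integrable (fun f : MW => f 0 ^ 2) μ)
    (h2 : Integrable (fun f : MW => f 0 ^ 2) ν) (x : ℂ) (hs : s ≤ μ) (h : s ⟂ₘ ν) :
    ∃ A : Set MW, MeasurableSet[jet x] A ∧ s A = 0 ∧ ν Aᶜ = 0 := by
  obtain ⟨T, hT, hT1, hT2⟩ := h
  obtain ⟨B, hB, hB1, hB2⟩ := determ2 hμ hν h1 h2 x hT
  refine ⟨B, hB, ?_, ?_⟩
  · have : T =ᵐ[s] B := ae_mono hs hB1
    rw [← measure_congr this, hT1]
  · rw [← measure_congr hB2.compl, hT2]

/-- a stationary law which is absolutely continuous with respect to an ergodic one is equal to it -/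
theorem eq_of_ac {μ ν : Measure MW} [IsProbabilityMeasure μ] [IsProbabilityMeasure ν]
    (hμ : IsStationary μ) (hν : IsStationary ν) (he : IsErgodic ν) (hac : μ ≪ ν) : μ = ν := by
  set h := μ.rnDeriv ν with hh
  have hm : Measurable h := Measure.measurable_rnDeriv _ _
  have hd : ν.withDensity h = μ := Measure.withDensity_rnDeriv_eq _ _ hac
  have hfin : ∫⁻ f, h f ∂ν = 1 := by
    have := congrArg (fun ρ : Measure MW => ρ Set.univ) hd
    simp only [measure_univ, withDensity_apply _ MeasurableSet.univ, Measure.restrict_univ] at this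
    exact this
  have hinv : ∀ x : ℂ, (fun f => h (shift x f)) =ᵐ[ν] h := by
    intro x
    have h1 : ν.withDensity (fun f => h (shift x f)) = ν.withDensity h := by
      rw [hd, ← hμ (-x)]
      ext B hB
      rw [Measure.map_apply (meas_shift _) hB, ← hd,
        withDensity_apply _ (meas_shift _ hB), withDensity_apply _ hB,
        ← lintegral_indicator (meas_shift _ hB), ← lintegral_indicator hB]
      conv_rhs => rw [← hν x]
      rw [lintegral_map (hm.indicator (meas_shift _ hB)) (meas_shift x)]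
      refine lintegral_congr fun f => ?_
      by_cases hf : f ∈ B
      · have hf' : shift x f ∈ shift (-x) ⁻¹' B := by
          rw [Set.mem_preimage, shift_neg]
          exact hf
        rw [Set.indicator_of_mem hf, Set.indicator_of_mem hf']
      · have hf' : shift x f ∉ shift (-x) ⁻¹' B := by
          rw [Set.mem_preimage, shift_neg]
          exact hf
        rw [Set.indicator_of_notMem hf, Set.indicator_of_notMem hf']
    have hfin2 : ∫⁻ f, h (shift x f) ∂ν ≠ ⊤ := by
      have e1 : ∫⁻ f, h (shift x f) ∂ν = ∫⁻ f, h f ∂ν := by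
        conv_rhs => rw [← hν x]
        rw [lintegral_map hm (meas_shift x)]
      rw [e1, hfin]
      exact ENNReal.one_ne_top
    exact (withDensity_eq_iff (hm.comp (meas_shift x)).aemeasurable hm.aemeasurable hfin2).1 h1
  have hset : ν {f | 1 < h f} = 0 ∨ ν {f | 1 < h f} = 1 := by
    apply he _ (measurableSet_lt measurable_const hm)
    intro x
    filter_upwards [hinv x] with f hf
    show (1 < h (shift x f)) = (1 < h f)
    rw [hf]
  have h1 : h =ᵐ[ν] fun _ => 1 := by
    rcases hset with h0 | h0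
    · have hle : h ≤ᵐ[ν] fun _ => 1 := by
        have : ∀ᵐ f ∂ν, f ∉ {f | 1 < h f} := measure_eq_zero_iff_ae_notMem.1 h0
        filter_upwards [this] with f hf
        exact not_lt.1 hf
      refine ae_eq_of_ae_le_of_lintegral_le hle (by rw [hfin]; exact ENNReal.one_ne_top)
        measurable_const.aemeasurable ?_
      rw [hfin, lintegral_const, measure_univ, mul_one]
    · have hle : (fun _ => 1) ≤ᵐ[ν] h := by
        have : ∀ᵐ f ∂ν, f ∈ {f | 1 < h f} := by
          rw [← prob_compl_eq_zero_iff (measurableSet_lt measurable_const hm)] at h0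
          exact h0
        filter_upwards [this] with f hf
        exact le_of_lt hf
      refine (ae_eq_of_ae_le_of_lintegral_le hle ?_ hm.aemeasurable ?_).symm
      · rw [lintegral_const, measure_univ, mul_one]
        exact ENNReal.one_ne_top
      · rw [hfin, lintegral_const, measure_univ, mul_one]
  rw [← hd, withDensity_congr_ae h1]
  simp

/-- **Dichotomy** for two ergodic laws -/
theorem dichotomy {μ ν : Measure MW} [IsProbabilityMeasure μ] [IsProbabilityMeasure ν]
    (hμ : IsStationary μ) (hν : IsStationary ν) (h1 : Integrable (fun f : MW => f 0 ^ 2) μ)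
    (h2 : Integrable (fun f : MW => f 0 ^ 2) ν) (e1 : IsErgodic μ) (e2 : IsErgodic ν) :
    μ = ν ∨ ∀ x : ℂ, ∃ A : Set MW, MeasurableSet[jet x] A ∧ μ A = 0 ∧ ν Aᶜ = 0 := by
  set s := μ.singularPart ν with hs
  set a := ν.withDensity (μ.rnDeriv ν) with ha
  have hadd : μ = s + a := Measure.haveLebesgueDecomposition_add μ ν
  have hsing : s ⟂ₘ ν := Measure.mutuallySingular_singularPart μ ν
  have hac : a ≪ ν := withDensity_absolutelyContinuous _ _
  have hkey : ∀ x : ℂ, s.map (shift x) = s := by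
    intro x
    have h1 : μ = s.map (shift x) + a.map (shift x) := by
      rw [← Measure.map_add _ _ (meas_shift x), ← hadd, hμ x]
    have hfa : IsFiniteMeasure a := by
      refine ⟨lt_of_le_of_lt ?_ (measure_lt_top μ Set.univ)⟩
      conv_rhs => rw [hadd]
      rw [Measure.add_apply]
      exact le_add_self
    have h2 : a.map (shift x) ≪ ν := ac_map hν hac x
    have h3 : ν.withDensity ((a.map (shift x)).rnDeriv ν) = a.map (shift x) :=
      Measure.withDensity_rnDeriv_eq _ _ h2
    have h4 := sing_map hν hsing x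
    rw [← h3] at h1
    exact Measure.eq_singularPart (Measure.measurable_rnDeriv _ _) h4 h1
  obtain ⟨T, hT, hT1, hT2⟩ := hsing
  -- `T` is invariant
  have hinv : ∀ x : ℂ, shift x ⁻¹' T =ᵐ[μ] T := by
    intro x
    have hsx : s (shift x ⁻¹' T) = 0 := by
      rw [← Measure.map_apply (meas_shift x) hT, hkey x, hT1]
    have hνx : ν (shift x ⁻¹' T)ᶜ = 0 := by
      rw [← Set.preimage_compl, ← Measure.map_apply (meas_shift x) hT.compl, hν x, hT2]
    have q1 : shift x ⁻¹' T =ᵐ[s] T :=
      (ae_eq_empty.2 hsx).trans (ae_eq_empty.2 hT1).symm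
    have q2 : shift x ⁻¹' T =ᵐ[a] T := by
      have r1 := hac hνx
      have r2 := hac hT2
      exact (ae_eq_univ.2 r1).trans (ae_eq_univ.2 r2).symm
    rw [hadd, Filter.EventuallyEq, ae_add_measure_iff]
    exact ⟨q1, q2⟩
  rcases e1 T hT hinv with h0 | h0
  · -- singular
    right
    intro x
    have hμν : μ ⟂ₘ ν := ⟨T, hT, h0, hT2⟩
    exact sing_jet hμ hν h1 h2 x le_rfl hμν
  · left
    refine eq_of_ac hμ hν e2 ?_
    have hs0 : s = 0 := by
      rw [← Measure.measure_univ_eq_zero, ← Set.union_compl_self T]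
      refine le_antisymm ((measure_union_le _ _).trans ?_) bot_le
      rw [hT1, zero_add]
      calc s Tᶜ ≤ μ Tᶜ := by
            conv_rhs => rw [hadd]
            rw [Measure.add_apply]
            exact le_self_add
        _ ≤ 0 := (prob_compl_eq_zero_iff hT).2 h0 |>.le
    rw [hadd, hs0, zero_add]
    exact hac

end Pool.Agent.H992.LB
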