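import Pool.Agent.H992.LB.Spec
import Pool.Agent.H992.LB.Fin

/-!
# The local laws of eigenfunctions, in terms of finitely supported functions
-/

set_option autoImplicit false
open MeasureTheory Filter Topology Complex ProbabilityTheory
open scoped ContDiff ENNReal

namespace Pool.Agent.H992.LB

open Pool.Agent.N661.BR (J0 MW lin shift IsStationary IsErgodic IsRandomWave meas_eval meas_shift
  meas_W)
open Pool.Agent.Y265.RW (sy rr)
open Pool.Agent.N814.BHM
open Pool.Agent.N814.BHASM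

/-- the points of a finitely supported function -/
noncomputable def pt (τ : ℂ →₀ ℝ) (j : Fin τ.support.card) : ℂ :=
  ((τ.support.equivFin.symm j : τ.support) : ℂ)

theorem sum_pt {E : Type*} [AddCommMonoid E] (τ : ℂ →₀ ℝ) (F : ℂ → ℝ → E) :
    τ.sum F = ∑ j, F (pt τ j) (τ (pt τ j)) := by
  unfold Finsupp.sum
  rw [← Finset.sum_coe_sort τ.support, ← Equiv.sum_comp τ.support.equivFin.symm]
  rfl

/-- the square of the norm of a linear statistic -/
noncomputable def nn (τ : ℂ →₀ ℝ) : ℝ :=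
  1 / (2 * Real.pi) * ∫ α in (0:ℝ)..(2 * Real.pi), ‖sb τ α‖ ^ 2

theorem nn_le {τ : ℂ →₀ ℝ} {ε : ℝ} (hε : 0 ≤ ε) (h : ∀ α, ‖sb τ α‖ ≤ ε) : nn τ ≤ ε ^ 2 := by
  unfold nn
  have hpi := Real.pi_pos
  have hc : Continuous fun α => ‖sb τ α‖ ^ 2 := by
    have e : ∀ α, sb τ α = ∑ j, ((τ (pt τ j) : ℝ) : ℂ) * Complex.exp ((rr (pt τ j) α : ℂ) * I) :=
      fun α => sum_pt τ _
    simp_rw [e]
    unfold rr
    fun_prop
  have h1 : ∫ α in (0:ℝ)..(2 * Real.pi), ‖sb τ α‖ ^ 2 ≤ ∫ α in (0:ℝ)..(2 * Real.pi), ε ^ 2 := by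
    apply intervalIntegral.integral_mono_on (by positivity) (hc.intervalIntegrable _ _)
      (continuous_const.intervalIntegrable _ _)
    intro α _
    exact pow_le_pow_left₀ (norm_nonneg _) (h α) 2
  rw [intervalIntegral.integral_const, smul_eq_mul, sub_zero] at h1
  calc 1 / (2 * Real.pi) * ∫ α in (0:ℝ)..(2 * Real.pi), ‖sb τ α‖ ^ 2
      ≤ 1 / (2 * Real.pi) * (2 * Real.pi * ε ^ 2) := by gcongr
    _ = ε ^ 2 := by field_simp

theorem nn_nonneg (τ : ℂ →₀ ℝ) : 0 ≤ nn τ := by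
  unfold nn
  have hpi := Real.pi_pos
  have : 0 ≤ ∫ α in (0:ℝ)..(2 * Real.pi), ‖sb τ α‖ ^ 2 :=
    intervalIntegral.integral_nonneg (by positivity) fun _ _ => by positivity
  positivity

/-- the value of a linear statistic -/
noncomputable def val (τ : ℂ →₀ ℝ) (f : MW) : ℝ := τ.sum fun w t => t * f w

theorem val_lin (τ : ℂ →₀ ℝ) (f : MW) : val τ f = lin (pt τ) (fun j => τ (pt τ j)) f :=
  sum_pt τ _

theorem val_meas (τ : ℂ →₀ ℝ) : Measurable (val τ) := by
  have : val τ = lin (pt τ) (fun j => τ (pt τ j)) := funext (val_lin τ)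
  rw [this]
  exact meas_lin _ _

theorem val_add (τ τ' : ℂ →₀ ℝ) (f : MW) : val (τ + τ') f = val τ f + val τ' f := by
  unfold val
  exact Finsupp.sum_add_index' (fun _ => by simp) (fun _ _ _ => by ring)

theorem val_neg (τ : ℂ →₀ ℝ) (f : MW) : val (-τ) f = - val τ f := by
  have h := val_add τ (-τ) f
  rw [add_neg_cancel] at h
  have h0 : val 0 f = 0 := by simp [val]
  rw [h0] at h
  linarith

theorem J0_eq (w : ℂ) : J0 ‖w‖ = 1 / (2 * Real.pi) * ∫ α in (0:ℝ)..(2 * Real.pi), Real.cos (rr w α) := by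
  unfold J0
  congr 1
  have h1 : ∀ α, rr w α = ‖w‖ * Real.cos (α - Complex.arg w) := by
    intro α
    unfold rr
    rw [Real.cos_sub]
    have e1 := Complex.norm_mul_cos_arg w
    have e2 := Complex.norm_mul_sin_arg w
    rw [← e1, ← e2]
    simp only [Complex.norm_mul_cos_arg, Complex.norm_mul_sin_arg]
    rw [← e1, ← e2]
    ring_nf
  simp_rw [h1]
  have hper : Function.Periodic (fun α => Real.cos (‖w‖ * Real.cos α)) (2 * Real.pi) := by
    intro α
    simp only [Real.cos_add_two_pi]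
  have h2 := intervalIntegral.integral_comp_sub_right (a := 0) (b := 2 * Real.pi)
    (fun α => Real.cos (‖w‖ * Real.cos α)) (Complex.arg w)
  rw [h2]
  have h3 := hper.intervalIntegral_add_eq 0 (0 - Complex.arg w)
  rw [zero_add] at h3
  rw [h3]
  congr 1
  ring

theorem Q_eq (τ : ℂ →₀ ℝ) : Q (pt τ) (fun j => τ (pt τ j)) = nn τ := by
  unfold Q nn
  have h1 : ∀ α, ‖sb τ α‖ ^ 2 = ∑ i, ∑ j, τ (pt τ i) * τ (pt τ j) *
      Real.cos (rr (pt τ i - pt τ j) α) := by
    intro α
    have e0 : sb τ α = ∑ j, ((τ (pt τ j) : ℝ) : ℂ) * Complex.exp ((rr (pt τ j) α : ℂ) * I) :=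
      sum_pt τ _
    have e1 : ((‖sb τ α‖ ^ 2 : ℝ) : ℂ) = sb τ α * (starRingEnd ℂ) (sb τ α) := by
      rw [Complex.mul_conj, Complex.normSq_eq_norm_sq]
    have e2 : sb τ α * (starRingEnd ℂ) (sb τ α) = ∑ i, ∑ j, ((τ (pt τ i) * τ (pt τ j) : ℝ) : ℂ) *
        Complex.exp ((rr (pt τ i - pt τ j) α : ℂ) * I) := by
      rw [e0, map_sum, Finset.sum_mul_sum]
      refine Finset.sum_congr rfl fun i _ => Finset.sum_congr rfl fun j _ => ?_
      rw [map_mul, Complex.conj_ofReal, ← Complex.exp_conj, map_mul, Complex.conj_ofReal,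
        Complex.conj_I]
      have e3 : rr (pt τ i) α = rr (pt τ i - pt τ j) α + rr (pt τ j) α := by
        rw [← rr_add, sub_add_cancel]
      rw [show ((τ (pt τ i) : ℝ) : ℂ) * Complex.exp ((rr (pt τ i) α : ℂ) * I) *
        (((τ (pt τ j) : ℝ) : ℂ) * Complex.exp ((rr (pt τ j) α : ℂ) * -I)) =
        ((τ (pt τ i) : ℝ) : ℂ) * ((τ (pt τ j) : ℝ) : ℂ) * (Complex.exp ((rr (pt τ i) α : ℂ) * I) *
          Complex.exp ((rr (pt τ j) α : ℂ) * -I)) by ring, ← Complex.exp_add, e3]
      push_cast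
      congr 2
      ring
    have e4 := congrArg Complex.re (e1.trans e2)
    rw [Complex.ofReal_re] at e4
    rw [e4, Complex.re_sum]
    refine Finset.sum_congr rfl fun i _ => ?_
    rw [Complex.re_sum]
    refine Finset.sum_congr rfl fun j _ => ?_
    rw [Complex.re_ofReal_mul, Complex.exp_ofReal_mul_I_re]
  simp_rw [h1]
  have hc : ∀ w : ℂ, Continuous fun α => Real.cos (rr w α) := by
    intro w
    unfold rr
    fun_prop
  rw [intervalIntegral.integral_finset_sum]
  · rw [Finset.mul_sum]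
    refine Finset.sum_congr rfl fun i _ => ?_
    rw [intervalIntegral.integral_finset_sum]
    · rw [Finset.mul_sum]
      refine Finset.sum_congr rfl fun j _ => ?_
      rw [intervalIntegral.integral_const_mul, J0_eq]
      ring
    · intro j _
      exact ((hc _).const_mul _).intervalIntegrable _ _
  · intro i _
    refine Continuous.intervalIntegrable ?_ _ _
    exact continuous_finset_sum _ fun j _ => (hc _).const_mul _

theorem val_sq {γ : Measure MW} (hγ : IsRandomWave γ) (τ : ℂ →₀ ℝ) :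
    Integrable (fun f => val τ f ^ 2) γ ∧ ∫ f, val τ f ^ 2 ∂γ = nn τ := by
  have h1 := hγ _ (pt τ) (fun j => τ (pt τ j))
  have h0 : (∑ i, ∑ j, (fun j => τ (pt τ j)) i * (fun j => τ (pt τ j)) j *
      J0 ‖pt τ i - pt τ j‖) = nn τ := Q_eq τ
  rw [h0] at h1
  have h2 : MemLp (id : ℝ → ℝ) 2 (gaussianReal 0 (nn τ).toNNReal) := memLp_id_gaussianReal 2
  have h3 := h2.integrable_sq
  have h4 : ∫ x, (id x : ℝ) ^ 2 ∂(gaussianReal 0 (nn τ).toNNReal) = nn τ := by
    have h5 := variance_id_gaussianReal (μ := 0) (v := (nn τ).toNNReal)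
    rw [variance_eq_integral measurable_id.aemeasurable] at h5
    simp only [id_eq, integral_id_gaussianReal, sub_zero] at h5
    simp only [id_eq]
    rw [h5, Real.coe_toNNReal _ (nn_nonneg τ)]
  rw [← h1] at h3 h4
  rw [integrable_map_measure (by fun_prop) (meas_lin _ _).aemeasurable] at h3
  rw [integral_map (meas_lin _ _).aemeasurable (by fun_prop)] at h4
  have h6 : val τ = lin (pt τ) (fun j => τ (pt τ j)) := funext (val_lin τ)
  rw [h6]
  exact ⟨h3, h4⟩

end Pool.Agent.H992.LB
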