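import Pool.Agent.H992.LB.Bes
import Pool.Agent.H992.LB.Fam
import Pool.Graph.R_pool_sql_team_seeded_63374d34.N661.BR.Base

/-!
# Mixing of the random wave
-/

set_option autoImplicit false
open MeasureTheory Filter Topology Complex ProbabilityTheory
open scoped ContDiff ENNReal

namespace Pool.Agent.H992.LB

open Pool.Agent.N661.BR (J0 MW lin shift IsStationary IsRandomWave meas_eval meas_shift)

/-- the quadratic form of the covariance -/
noncomputable def Q {k : ℕ} (w : Fin k → ℂ) (t : Fin k → ℝ) : ℝ :=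
  ∑ i, ∑ j, t i * t j * J0 ‖w i - w j‖

/-- the cross covariance of a linear statistic and its translate -/
noncomputable def S {k : ℕ} (w : Fin k → ℂ) (t : Fin k → ℝ) (z : ℂ) : ℝ :=
  ∑ i, ∑ j, t i * t j * J0 ‖w i - w j + z‖

theorem meas_lin {k : ℕ} (w : Fin k → ℂ) (t : Fin k → ℝ) : Measurable (lin w t) := by
  unfold lin
  exact Finset.measurable_sum _ fun j _ => (meas_eval (w j)).const_mul _

theorem ft {γ : Measure MW} (hγ : IsRandomWave γ) {k : ℕ} (w : Fin k → ℂ) (t : Fin k → ℝ) :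
    ∫ f, Complex.exp (I * (lin w t f : ℝ)) ∂γ = ((Real.exp (-(max (Q w t) 0) / 2) : ℝ) : ℂ) := by
  have h1 := charFun_gaussianReal (μ := 0) (v := (Q w t).toNNReal) 1
  have h2 : γ.map (lin w t) = gaussianReal 0 (Q w t).toNNReal := hγ k w t
  rw [← h2, charFun_apply, integral_map (meas_lin w t).aemeasurable (by fun_prop)] at h1
  have h3 : ∫ f, Complex.exp (I * (lin w t f : ℝ)) ∂γ =
      ∫ f, Complex.exp (((inner ℝ (lin w t f) (1:ℝ) : ℝ) : ℂ) * I) ∂γ := by
    refine integral_congr_ae (Eventually.of_forall fun f => ?_)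
    show _ = Complex.exp (((inner ℝ (lin w t f) (1:ℝ) : ℝ) : ℂ) * I)
    rw [mul_comm]
    congr 3
    simp
  rw [h3, h1, Complex.ofReal_exp]
  congr 1
  rw [Complex.ofReal_one, Complex.ofReal_zero]
  have : (((Q w t).toNNReal : ℝ) : ℂ) = ((max (Q w t) 0 : ℝ) : ℂ) := by
    rw [Real.coe_toNNReal']
  rw [this]
  push_cast
  ring

theorem lin_append {k : ℕ} (w v : Fin k → ℂ) (s t : Fin k → ℝ) (f : MW) :
    lin (Fin.append w v) (Fin.append s t) f = lin w s f + lin v t f := by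
  unfold lin
  rw [Fin.sum_univ_add]
  congr 1
  · exact Finset.sum_congr rfl fun i _ => by rw [Fin.append_left, Fin.append_left]
  · exact Finset.sum_congr rfl fun i _ => by rw [Fin.append_right, Fin.append_right]

theorem Q_append {k : ℕ} (w : Fin k → ℂ) (t : Fin k → ℝ) (x y : ℂ) :
    Q (Fin.append (fun i => w i + x) (fun i => w i + y)) (Fin.append t (-t)) =
      2 * Q w t - 2 * S w t (x - y) := by
  unfold Q S
  rw [Fin.sum_univ_add]
  simp only [Fin.sum_univ_add, Fin.append_left, Fin.append_right, Pi.neg_apply]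
  have e1 : ∀ i j : Fin k, w i + x - (w j + x) = w i - w j := fun i j => by ring
  have e2 : ∀ i j : Fin k, w i + y - (w j + y) = w i - w j := fun i j => by ring
  have e3 : ∀ i j : Fin k, w i + x - (w j + y) = w i - w j + (x - y) := fun i j => by ring
  have e4 : ∀ i j : Fin k, ‖w i + y - (w j + x)‖ = ‖w j - w i + (x - y)‖ := fun i j => by
    rw [← norm_neg]
    congr 1
    ring
  simp only [e1, e2, e3, e4]
  simp only [Finset.sum_add_distrib]
  have e5 : ∑ x_1 : Fin k, ∑ x_2 : Fin k, -t x_1 * t x_2 * J0 ‖w x_2 - w x_1 + (x - y)‖ =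
      - ∑ i : Fin k, ∑ j : Fin k, t i * t j * J0 ‖w i - w j + (x - y)‖ := by
    rw [Finset.sum_comm, ← Finset.sum_neg_distrib]
    refine Finset.sum_congr rfl fun i _ => ?_
    rw [← Finset.sum_neg_distrib]
    refine Finset.sum_congr rfl fun j _ => ?_
    ring
  have e6 : ∑ x_1 : Fin k, ∑ x_2 : Fin k, t x_1 * -t x_2 * J0 ‖w x_1 - w x_2 + (x - y)‖ =
      - ∑ i : Fin k, ∑ j : Fin k, t i * t j * J0 ‖w i - w j + (x - y)‖ := by
    rw [← Finset.sum_neg_distrib]
    refine Finset.sum_congr rfl fun i _ => ?_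
    rw [← Finset.sum_neg_distrib]
    refine Finset.sum_congr rfl fun j _ => ?_
    ring
  have e7 : ∑ x : Fin k, ∑ x_1 : Fin k, -t x * -t x_1 * J0 ‖w x - w x_1‖ =
      ∑ i : Fin k, ∑ j : Fin k, t i * t j * J0 ‖w i - w j‖ := by
    refine Finset.sum_congr rfl fun i _ => Finset.sum_congr rfl fun j _ => ?_
    ring
  rw [e5, e6, e7]
  ring

/-- the exponential of the translate of a linear statistic -/
noncomputable def ee {k : ℕ} (w : Fin k → ℂ) (t : Fin k → ℝ) (x : ℂ) (f : MW) : ℂ :=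
  Complex.exp (I * (lin (fun i => w i + x) t f : ℝ))

theorem ee_norm {k : ℕ} (w : Fin k → ℂ) (t : Fin k → ℝ) (x : ℂ) (f : MW) : ‖ee w t x f‖ = 1 := by
  unfold ee
  rw [mul_comm, Complex.norm_exp_ofReal_mul_I]

theorem ee_meas {k : ℕ} (w : Fin k → ℂ) (t : Fin k → ℝ) (x : ℂ) : Measurable (ee w t x) := by
  unfold ee
  have := meas_lin (fun i => w i + x) t
  fun_prop

theorem ee_int {k : ℕ} (w : Fin k → ℂ) (t : Fin k → ℝ) (x : ℂ) (μ : Measure MW)
    [IsFiniteMeasure μ] : Integrable (ee w t x) μ :=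
  Integrable.of_bound (ee_meas w t x).aestronglyMeasurable 1
    (Eventually.of_forall fun f => (ee_norm w t x f).le)

theorem ee_shift {μ : Measure MW} (hμ : IsStationary μ) {k : ℕ} (w : Fin k → ℂ) (t : Fin k → ℝ)
    (x : ℂ) : ∫ f, ee w t x f ∂μ = ∫ f, Complex.exp (I * (lin w t f : ℝ)) ∂μ := by
  have h1 : ∫ f, Complex.exp (I * (lin w t f : ℝ)) ∂(μ.map (shift x)) = ∫ f, ee w t x f ∂μ := by
    rw [integral_map (meas_shift x).aemeasurable]
    · rfl
    · have := meas_lin w t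
      exact Measurable.aestronglyMeasurable (by fun_prop)
  rw [← h1, hμ x]

/-- the limit of the correlations -/
noncomputable def cc {k : ℕ} (w : Fin k → ℂ) (t : Fin k → ℝ) : ℝ := Real.exp (-(max (Q w t) 0) / 2)

theorem cc_pos {k : ℕ} (w : Fin k → ℂ) (t : Fin k → ℝ) : 0 < cc w t := Real.exp_pos _

theorem cc_le {k : ℕ} (w : Fin k → ℂ) (t : Fin k → ℝ) : cc w t ≤ 1 := by
  unfold cc
  rw [Real.exp_le_one_iff]
  have := le_max_right (Q w t) 0
  linarith

theorem ee_mean {γ : Measure MW} (hγ : IsRandomWave γ) {k : ℕ} (w : Fin k → ℂ) (t : Fin k → ℝ)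
    (x : ℂ) : ∫ f, ee w t x f ∂γ = (cc w t : ℂ) := by
  have hQ : Q (fun i => w i + x) t = Q w t := by
    unfold Q
    refine Finset.sum_congr rfl fun i _ => Finset.sum_congr rfl fun j _ => ?_
    rw [add_sub_add_right_eq_sub]
  unfold ee
  rw [ft hγ, cc, hQ]

theorem ee_corr {γ : Measure MW} (hγ : IsRandomWave γ) {k : ℕ} (w : Fin k → ℂ) (t : Fin k → ℝ)
    (x y : ℂ) : ∫ f, ee w t x f * (starRingEnd ℂ) (ee w t y f) ∂γ =
      ((Real.exp (-(max (2 * Q w t - 2 * S w t (x - y)) 0) / 2) : ℝ) : ℂ) := by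
  rw [← Q_append w t x y, ← ft hγ]
  refine integral_congr_ae (Eventually.of_forall fun f => ?_)
  show ee w t x f * (starRingEnd ℂ) (ee w t y f) = Complex.exp (I * (lin
    (Fin.append (fun i => w i + x) (fun i => w i + y)) (Fin.append t (-t)) f : ℝ))
  unfold ee
  rw [← Complex.exp_conj, ← Complex.exp_add, lin_append]
  congr 1
  rw [map_mul, Complex.conj_I, Complex.conj_ofReal]
  have : lin (fun i => w i + y) (-t) f = - lin (fun i => w i + y) t f := by
    unfold lin
    rw [← Finset.sum_neg_distrib]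
    exact Finset.sum_congr rfl fun i _ => by rw [Pi.neg_apply, neg_mul]
  rw [this]
  push_cast
  ring

theorem S_tendsto {k : ℕ} (w : Fin k → ℂ) (t : Fin k → ℝ) :
    Tendsto (S w t) (cocompact ℂ) (𝓝 0) := by
  have h1 : ∀ i j : Fin k, Tendsto (fun z : ℂ => t i * t j * J0 ‖w i - w j + z‖) (cocompact ℂ)
      (𝓝 (t i * t j * 0)) := by
    intro i j
    refine Tendsto.const_mul _ (J0_tendsto.comp ?_)
    have h2 : Tendsto (fun z : ℂ => ‖z‖ - ‖w i - w j‖) (cocompact ℂ) atTop :=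
      tendsto_atTop_add_const_right _ _ tendsto_norm_cocompact_atTop
    refine tendsto_atTop_mono (fun z => ?_) h2
    have h3 := norm_sub_norm_le z (-(w i - w j))
    rw [norm_neg, sub_neg_eq_add, add_comm z] at h3
    exact h3
  have h2 := tendsto_finset_sum (Finset.univ : Finset (Fin k)) fun i _ =>
    tendsto_finset_sum (Finset.univ : Finset (Fin k)) fun j _ => h1 i j
  unfold S
  simpa using h2

theorem corr_lim {k : ℕ} (w : Fin k → ℂ) (t : Fin k → ℝ) {ε : ℝ} (hε : 0 < ε) :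
    ∃ R : ℝ, 0 < R ∧ ∀ z : ℂ, R ≤ ‖z‖ →
      |Real.exp (-(max (2 * Q w t - 2 * S w t z) 0) / 2) - cc w t ^ 2| ≤ ε := by
  have h1 : Tendsto (fun z => Real.exp (-(max (2 * Q w t - 2 * S w t z) 0) / 2)) (cocompact ℂ)
      (𝓝 (Real.exp (-(max (2 * Q w t - 2 * 0) 0) / 2))) := by
    have h2 : Continuous fun s : ℝ => Real.exp (-(max (2 * Q w t - 2 * s) 0) / 2) := by fun_prop
    exact (h2.tendsto 0).comp (S_tendsto w t)
  have h3 : Real.exp (-(max (2 * Q w t - 2 * 0) 0) / 2) = cc w t ^ 2 := by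
    unfold cc
    rw [← Real.exp_nat_mul]
    congr 1
    rcases le_total (Q w t) 0 with h | h
    · rw [max_eq_right h, max_eq_right (by linarith)]
      ring
    · rw [max_eq_left h, max_eq_left (by linarith)]
      push_cast
      ring
  rw [h3] at h1
  have h4 := h1.eventually (Metric.closedBall_mem_nhds _ hε)
  rw [← Metric.cobounded_eq_cocompact] at h4
  have h4' : Bornology.IsBounded {x | Real.exp (-(max (2 * Q w t - 2 * S w t x) 0) / 2) ∈
      Metric.closedBall (cc w t ^ 2) ε}ᶜ := Bornology.isBounded_compl_iff.2 h4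
  obtain ⟨R, hR⟩ := h4'.subset_ball (0 : ℂ)
  refine ⟨max R 1, by positivity, fun z hz => ?_⟩
  have h5 : z ∉ Metric.ball (0 : ℂ) R := by
    rw [mem_ball_zero_iff, not_lt]
    exact (le_max_left _ _).trans hz
  have h6 : z ∈ {x | Real.exp (-(max (2 * Q w t - 2 * S w t x) 0) / 2) ∈
      Metric.closedBall (cc w t ^ 2) ε} := by
    by_contra h
    exact h5 (hR h)
  exact h6

/-- averages over distant translates -/
noncomputable def av {k : ℕ} (w : Fin k → ℂ) (t : Fin k → ℝ) (R : ℝ) (n : ℕ) (f : MW) : ℂ :=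
  (1 / ((n : ℂ) + 1)) * ∑ j ∈ Finset.range (n + 1), ee w t ((R * j : ℝ) : ℂ) f

theorem av_norm {k : ℕ} (w : Fin k → ℂ) (t : Fin k → ℝ) (R : ℝ) (n : ℕ) (f : MW) :
    ‖av w t R n f‖ ≤ 1 := by
  unfold av
  rw [norm_mul]
  have h1 : ‖∑ j ∈ Finset.range (n + 1), ee w t ((R * j : ℝ) : ℂ) f‖ ≤ (n : ℝ) + 1 := by
    refine (norm_sum_le _ _).trans ?_
    simp [ee_norm]
  have h2 : ‖(1 / ((n : ℂ) + 1))‖ = 1 / ((n : ℝ) + 1) := by
    rw [norm_div, norm_one]
    congr 1
    have : ((n : ℂ) + 1) = ((n + 1 : ℕ) : ℂ) := by push_cast; ring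
    rw [this, Complex.norm_natCast]
    push_cast
    ring
  rw [h2]
  calc 1 / ((n : ℝ) + 1) * ‖∑ j ∈ Finset.range (n + 1), ee w t ((R * j : ℝ) : ℂ) f‖
      ≤ 1 / ((n : ℝ) + 1) * ((n : ℝ) + 1) := by gcongr
    _ = 1 := by field_simp

theorem av_meas {k : ℕ} (w : Fin k → ℂ) (t : Fin k → ℝ) (R : ℝ) (n : ℕ) :
    Measurable (av w t R n) := by
  unfold av
  exact (Finset.measurable_sum _ fun j _ => ee_meas w t _).const_mul _

theorem av_mean {μ : Measure MW} [IsFiniteMeasure μ] (hμ : IsStationary μ) {k : ℕ} (w : Fin k → ℂ)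
    (t : Fin k → ℝ) (R : ℝ) (n : ℕ) :
    ∫ f, av w t R n f ∂μ = ∫ f, Complex.exp (I * (lin w t f : ℝ)) ∂μ := by
  unfold av
  rw [integral_const_mul, integral_finset_sum _ fun j _ => ee_int w t _ μ]
  simp_rw [ee_shift hμ]
  rw [Finset.sum_const, Finset.card_range, nsmul_eq_mul]
  have : ((n : ℂ) + 1) ≠ 0 := by exact_mod_cast Nat.succ_ne_zero n
  push_cast
  field_simp

theorem av_sq {γ : Measure MW} [IsProbabilityMeasure γ] (hγ : IsRandomWave γ) {k : ℕ}
    (w : Fin k → ℂ) (t : Fin k → ℝ) {R : ℝ} (hR : 0 < R) (n : ℕ)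
    (h : ∀ z : ℂ, R ≤ ‖z‖ →
      |Real.exp (-(max (2 * Q w t - 2 * S w t z) 0) / 2) - cc w t ^ 2| ≤ 1 / ((n : ℝ) + 1)) :
    ∫ f, ‖av w t R n f - (cc w t : ℂ)‖ ^ 2 ∂γ ≤ 2 / ((n : ℝ) + 1) := by
  set c := cc w t with hc
  set a : ℕ → MW → ℂ := fun j f => ee w t ((R * j : ℝ) : ℂ) f - (c : ℂ) with ha
  have hn : (0 : ℝ) < (n : ℝ) + 1 := by positivity
  have hnc : ((n : ℂ) + 1) ≠ 0 := by exact_mod_cast Nat.succ_ne_zero n
  have h1 : ∀ f, av w t R n f - (c : ℂ) = (1 / ((n : ℂ) + 1)) * ∑ j ∈ Finset.range (n + 1), a j f := by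
    intro f
    unfold av
    simp only [ha]
    rw [Finset.sum_sub_distrib, Finset.sum_const, Finset.card_range, nsmul_eq_mul]
    push_cast
    field_simp
  have h2 : ∀ f, ‖av w t R n f - (c : ℂ)‖ ^ 2 = (1 / ((n : ℝ) + 1)) ^ 2 *
      ‖∑ j ∈ Finset.range (n + 1), a j f‖ ^ 2 := by
    intro f
    rw [h1 f, norm_mul, mul_pow]
    congr 2
    rw [norm_div, norm_one]
    congr 1
    have : ((n : ℂ) + 1) = ((n + 1 : ℕ) : ℂ) := by push_cast; ring
    rw [this, Complex.norm_natCast]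
    push_cast
    ring
  simp_rw [h2]
  rw [integral_const_mul]
  have hbd : ∀ j f, ‖a j f‖ ≤ 2 := by
    intro j f
    refine (norm_sub_le _ _).trans ?_
    rw [ee_norm, Complex.norm_real, Real.norm_eq_abs, abs_of_pos (cc_pos w t)]
    linarith [cc_le w t]
  have ham : ∀ j, Measurable (a j) := fun j => (ee_meas w t _).sub_const _
  have hint : ∀ i j, Integrable (fun f => a i f * (starRingEnd ℂ) (a j f)) γ := by
    intro i j
    refine Integrable.of_bound ?_ 4 (Eventually.of_forall fun f => ?_)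
    · have h1 := ham i
      have h2 := ham j
      have h3 : Measurable (fun f => (starRingEnd ℂ) (a j f)) :=
        Complex.continuous_conj.measurable.comp h2
      exact (h1.mul h3).aestronglyMeasurable
    · rw [norm_mul, RCLike.norm_conj]
      nlinarith [hbd i f, hbd j f, norm_nonneg (a i f), norm_nonneg (a j f)]
  have h3 : ((∫ f, ‖∑ j ∈ Finset.range (n + 1), a j f‖ ^ 2 ∂γ : ℝ) : ℂ) =
      ∑ i ∈ Finset.range (n + 1), ∑ j ∈ Finset.range (n + 1),
        ∫ f, a i f * (starRingEnd ℂ) (a j f) ∂γ := by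
    rw [← integral_complex_ofReal]
    have e1 : ∀ f, (((‖∑ j ∈ Finset.range (n + 1), a j f‖ ^ 2 : ℝ)) : ℂ) =
        ∑ i ∈ Finset.range (n + 1), ∑ j ∈ Finset.range (n + 1),
          a i f * (starRingEnd ℂ) (a j f) := by
      intro f
      rw [← Finset.sum_mul_sum, ← map_sum, Complex.mul_conj, Complex.normSq_eq_norm_sq]
    simp_rw [e1]
    rw [integral_finset_sum _ fun i _ => integrable_finset_sum _ fun j _ => hint i j]
    exact Finset.sum_congr rfl fun i _ => integral_finset_sum _ fun j _ => hint i j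
  have h4 : ∀ i j, ∫ f, a i f * (starRingEnd ℂ) (a j f) ∂γ =
      ((Real.exp (-(max (2 * Q w t - 2 * S w t (((R * i : ℝ) : ℂ) - ((R * j : ℝ) : ℂ))) 0) / 2) -
        c ^ 2 : ℝ) : ℂ) := by
    intro i j
    have e1 : ∀ f, a i f * (starRingEnd ℂ) (a j f) =
        ee w t ((R * i : ℝ) : ℂ) f * (starRingEnd ℂ) (ee w t ((R * j : ℝ) : ℂ) f) -
          (c : ℂ) * ee w t ((R * i : ℝ) : ℂ) f -
          (c : ℂ) * (starRingEnd ℂ) (ee w t ((R * j : ℝ) : ℂ) f) + (c : ℂ) ^ 2 := by
      intro f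
      simp only [ha, map_sub, Complex.conj_ofReal]
      ring
    simp_rw [e1]
    have i1 : Integrable (fun f => ee w t ((R * i : ℝ) : ℂ) f *
        (starRingEnd ℂ) (ee w t ((R * j : ℝ) : ℂ) f)) γ := by
      refine Integrable.of_bound ?_ 1 (Eventually.of_forall fun f => ?_)
      · exact ((ee_meas w t _).mul
          (Complex.continuous_conj.measurable.comp (ee_meas w t _))).aestronglyMeasurable
      · rw [norm_mul, RCLike.norm_conj, ee_norm, ee_norm, mul_one]
    have i2 : Integrable (fun f => (c : ℂ) * ee w t ((R * i : ℝ) : ℂ) f) γ :=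
      (ee_int w t _ γ).const_mul _
    have i3 : Integrable (fun f => (c : ℂ) * (starRingEnd ℂ) (ee w t ((R * j : ℝ) : ℂ) f)) γ := by
      refine Integrable.const_mul ?_ _
      exact (Complex.conjLIE.toContinuousLinearEquiv.toContinuousLinearMap.integrable_comp
        (ee_int w t _ γ))
    have s1 := integral_sub i1 i2
    have s2 := integral_sub (i1.sub i2) i3
    have s3 := integral_add ((i1.sub i2).sub i3) (integrable_const ((c : ℂ) ^ 2))
    simp only [Pi.sub_apply] at s2 s3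
    rw [s3, s2, s1, integral_const_mul, integral_const_mul, ee_corr hγ, ee_mean hγ,
      integral_conj, ee_mean hγ, Complex.conj_ofReal]
    simp only [integral_const, probReal_univ, one_smul]
    push_cast
    ring
  have h5 : ∀ i j : ℕ, |Real.exp (-(max (2 * Q w t - 2 * S w t
      (((R * i : ℝ) : ℂ) - ((R * j : ℝ) : ℂ))) 0) / 2) - c ^ 2| ≤
      (if i = j then 1 else 0) + 1 / ((n : ℝ) + 1) := by
    intro i j
    by_cases hij : i = j
    · rw [if_pos hij]
      have e0 := Real.exp_pos (-(max (2 * Q w t - 2 * S w t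
        (((R * i : ℝ) : ℂ) - ((R * j : ℝ) : ℂ))) 0) / 2)
      have e1 : Real.exp (-(max (2 * Q w t - 2 * S w t
        (((R * i : ℝ) : ℂ) - ((R * j : ℝ) : ℂ))) 0) / 2) ≤ 1 := by
        rw [Real.exp_le_one_iff]
        have := le_max_right (2 * Q w t - 2 * S w t (((R * i : ℝ) : ℂ) - ((R * j : ℝ) : ℂ))) 0
        linarith
      have e2 : c ^ 2 ≤ 1 := pow_le_one₀ (cc_pos w t).le (cc_le w t)
      have e3 : 0 ≤ c ^ 2 := sq_nonneg c
      have e4 : (0:ℝ) < 1 / ((n : ℝ) + 1) := by positivity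
      rw [abs_le]
      constructor <;> linarith
    · rw [if_neg hij, zero_add]
      apply h
      rw [← Complex.ofReal_sub, Complex.norm_real, Real.norm_eq_abs, ← mul_sub, abs_mul,
        abs_of_pos hR]
      have : (1 : ℝ) ≤ |(i : ℝ) - j| := by
        have h1 : (1 : ℤ) ≤ |(i : ℤ) - j| := Int.one_le_abs (by
          intro h0
          exact hij (by exact_mod_cast sub_eq_zero.1 h0))
        exact_mod_cast h1
      nlinarith
  have h6 : ∫ f, ‖∑ j ∈ Finset.range (n + 1), a j f‖ ^ 2 ∂γ ≤ 2 * ((n : ℝ) + 1) := by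
    have e1 : ∫ f, ‖∑ j ∈ Finset.range (n + 1), a j f‖ ^ 2 ∂γ =
        ∑ i ∈ Finset.range (n + 1), ∑ j ∈ Finset.range (n + 1),
          (Real.exp (-(max (2 * Q w t - 2 * S w t
            (((R * i : ℝ) : ℂ) - ((R * j : ℝ) : ℂ))) 0) / 2) - c ^ 2) := by
      have := h3
      simp_rw [h4] at this
      exact_mod_cast this
    rw [e1]
    calc ∑ i ∈ Finset.range (n + 1), ∑ j ∈ Finset.range (n + 1),
          (Real.exp (-(max (2 * Q w t - 2 * S w t
            (((R * i : ℝ) : ℂ) - ((R * j : ℝ) : ℂ))) 0) / 2) - c ^ 2)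
        ≤ ∑ i ∈ Finset.range (n + 1), ∑ j ∈ Finset.range (n + 1),
          ((if i = j then 1 else 0) + 1 / ((n : ℝ) + 1)) :=
          Finset.sum_le_sum fun i _ => Finset.sum_le_sum fun j _ => (le_abs_self _).trans (h5 i j)
      _ = 2 * ((n : ℝ) + 1) := by
          simp only [Finset.sum_add_distrib, Finset.sum_ite_eq, Finset.sum_const,
            Finset.card_range, nsmul_eq_mul]
          rw [Finset.sum_congr rfl (fun i hi => if_pos hi), Finset.sum_const, Finset.card_range,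
            nsmul_eq_mul]
          push_cast
          field_simp
          ring
  calc (1 / ((n : ℝ) + 1)) ^ 2 * ∫ f, ‖∑ j ∈ Finset.range (n + 1), a j f‖ ^ 2 ∂γ
      ≤ (1 / ((n : ℝ) + 1)) ^ 2 * (2 * ((n : ℝ) + 1)) := by gcongr
    _ = 2 / ((n : ℝ) + 1) := by field_simp

end Pool.Agent.H992.LB
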