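import Pool.Agent.H992.LB.Gen

/-!
# Approximation of plane waves by combinations of values in an open set
-/

set_option autoImplicit false
open MeasureTheory Filter Topology Complex ProbabilityTheory
open scoped ContDiff ENNReal

namespace Pool.Agent.H992.LB

open Pool.Agent.N661.BR (J0 MW lin shift IsStationary IsErgodic IsRandomWave meas_eval meas_shift
  meas_W)
open Pool.Agent.Y265.RW (sy rr)

/-- the symbol of a finite combination of values: the corresponding combination of plane waves -/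
noncomputable def sb (τ : ℂ →₀ ℝ) (α : ℝ) : ℂ :=
  τ.sum fun w t => (t : ℂ) * Complex.exp ((rr w α : ℂ) * I)

theorem sb_add (τ τ' : ℂ →₀ ℝ) (α : ℝ) : sb (τ + τ') α = sb τ α + sb τ' α := by
  unfold sb
  exact Finsupp.sum_add_index' (fun _ => by simp) (fun _ _ _ => by push_cast; ring)

theorem sb_smul (r : ℝ) (τ : ℂ →₀ ℝ) (α : ℝ) : sb (r • τ) α = (r : ℂ) * sb τ α := by
  unfold sb
  rw [Finsupp.sum_smul_index' (fun _ => by simp), Finsupp.mul_sum]
  refine Finsupp.sum_congr fun w _ => ?_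
  rw [smul_eq_mul]
  push_cast
  ring

theorem sb_single (w : ℂ) (t : ℝ) (α : ℝ) :
    sb (Finsupp.single w t) α = (t : ℂ) * Complex.exp ((rr w α : ℂ) * I) := by
  unfold sb
  rw [Finsupp.sum_single_index (by simp)]

/-- functions which are uniform limits of symbols of combinations of values in `U` -/
def Ap (U : Set ℂ) (g : ℝ → ℂ) : Prop := ∀ ε : ℝ, 0 < ε → ∃ τ : ℂ →₀ ℝ, (↑τ.support : Set ℂ) ⊆ U ∧
  ∀ α, ‖g α - sb τ α‖ ≤ ε

theorem Ap.add {U : Set ℂ} {g h : ℝ → ℂ} (hg : Ap U g) (hh : Ap U h) :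
    Ap U (fun α => g α + h α) := by
  classical
  intro ε hε
  obtain ⟨τ, h1, h2⟩ := hg (ε / 2) (by positivity)
  obtain ⟨τ', h3, h4⟩ := hh (ε / 2) (by positivity)
  refine ⟨τ + τ', ?_, fun α => ?_⟩
  · intro w hw
    rcases Finset.mem_union.1 (Finsupp.support_add hw) with h | h
    · exact h1 h
    · exact h3 h
  · rw [sb_add]
    calc ‖g α + h α - (sb τ α + sb τ' α)‖ = ‖(g α - sb τ α) + (h α - sb τ' α)‖ := by
          congr 1
          ring
      _ ≤ ε / 2 + ε / 2 := (norm_add_le _ _).trans (add_le_add (h2 α) (h4 α))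
      _ = ε := by ring

theorem Ap.smul {U : Set ℂ} {g : ℝ → ℂ} (hg : Ap U g) (r : ℝ) : Ap U (fun α => (r : ℂ) * g α) := by
  intro ε hε
  obtain ⟨τ, h1, h2⟩ := hg (ε / (|r| + 1)) (by positivity)
  refine ⟨r • τ, ?_, fun α => ?_⟩
  · exact (Finset.coe_subset.2 Finsupp.support_smul).trans h1
  · rw [sb_smul, ← mul_sub, norm_mul, Complex.norm_real, Real.norm_eq_abs]
    calc |r| * ‖g α - sb τ α‖ ≤ (|r| + 1) * (ε / (|r| + 1)) := by
          apply mul_le_mul (by linarith) (h2 α) (norm_nonneg _) (by positivity)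
      _ = ε := by
          have : |r| + 1 ≠ 0 := by positivity
          field_simp

theorem Ap.lim {U : Set ℂ} {g : ℝ → ℂ} (h : ∀ ε : ℝ, 0 < ε → ∃ g', Ap U g' ∧ ∀ α, ‖g α - g' α‖ ≤ ε) :
    Ap U g := by
  intro ε hε
  obtain ⟨g', hg', h1⟩ := h (ε / 2) (by positivity)
  obtain ⟨τ, h2, h3⟩ := hg' (ε / 2) (by positivity)
  refine ⟨τ, h2, fun α => ?_⟩
  calc ‖g α - sb τ α‖ = ‖(g α - g' α) + (g' α - sb τ α)‖ := by
        congr 1
        ring
    _ ≤ ε / 2 + ε / 2 := (norm_add_le _ _).trans (add_le_add (h1 α) (h3 α))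
    _ = ε := by ring

theorem Ap.zero (U : Set ℂ) : Ap U (fun _ => 0) := by
  intro ε hε
  refine ⟨0, by simp, fun α => ?_⟩
  simp [sb, hε.le]

theorem Ap.sum {U : Set ℂ} {κ : Type*} (s : Finset κ) {g : κ → ℝ → ℂ} (h : ∀ i ∈ s, Ap U (g i)) :
    Ap U (fun α => ∑ i ∈ s, g i α) := by
  classical
  induction s using Finset.induction_on with
  | empty => simpa using Ap.zero U
  | insert a s ha ih =>
    have h1 := (h a (Finset.mem_insert_self _ _)).add (ih fun i hi => h i (Finset.mem_insert_of_mem hi))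
    simp_rw [Finset.sum_insert ha]
    exact h1

theorem Ap.point {U : Set ℂ} {w : ℂ} (hw : w ∈ U) : Ap U (fun α => Complex.exp ((rr w α : ℂ) * I)) := by
  intro ε hε
  refine ⟨Finsupp.single w 1, ?_, fun α => ?_⟩
  · intro v hv
    have := Finsupp.support_single_subset hv
    rw [Finset.mem_singleton] at this
    rw [this]
    exact hw
  · rw [sb_single]
    simp [hε.le]

theorem rr_add (v w : ℂ) (α : ℝ) : rr (v + w) α = rr v α + rr w α := by
  unfold rr
  rw [Complex.add_re, Complex.add_im]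
  ring

theorem rr_rmul (h : ℝ) (v : ℂ) (α : ℝ) : rr ((h : ℂ) * v) α = h * rr v α := by
  unfold rr
  simp only [Complex.mul_re, Complex.mul_im, Complex.ofReal_re, Complex.ofReal_im]
  ring

theorem rr_le (v : ℂ) (α : ℝ) : |rr v α| ≤ 2 * ‖v‖ := by
  unfold rr
  calc |v.re * Real.cos α + v.im * Real.sin α| ≤ |v.re * Real.cos α| + |v.im * Real.sin α| :=
        abs_add_le _ _
    _ ≤ ‖v‖ * 1 + ‖v‖ * 1 := by
        rw [abs_mul, abs_mul]
        gcongr
        · exact Complex.abs_re_le_norm v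
        · exact Real.abs_cos_le_one α
        · exact Complex.abs_im_le_norm v
        · exact Real.abs_sin_le_one α
    _ = 2 * ‖v‖ := by ring

theorem Ap.deriv {U : Set ℂ} (hU : IsOpen U) (v : ℂ) (n : ℕ) : ∀ x ∈ U,
    Ap U (fun α => ((rr v α : ℂ) * I) ^ n * Complex.exp ((rr x α : ℂ) * I)) := by
  induction n with
  | zero =>
    intro x hx
    simpa using Ap.point hx
  | succ n ih =>
    intro x hx
    apply Ap.lim
    intro ε hε
    set K : ℝ := (2 * ‖v‖) ^ (n + 2) + 1 with hK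
    have hK0 : 0 < K := by positivity
    have h1 : ∀ᶠ h : ℝ in 𝓝[>] 0, x + (h : ℂ) * v ∈ U ∧ h * K ≤ ε ∧ h * (2 * ‖v‖) ≤ 1 := by
      have c1 : Tendsto (fun h : ℝ => x + (h : ℂ) * v) (𝓝[>] 0) (𝓝 (x + ((0:ℝ) : ℂ) * v)) := by
        have : Continuous fun h : ℝ => x + (h : ℂ) * v := by fun_prop
        exact (this.tendsto 0).mono_left nhdsWithin_le_nhds
      have c2 : Tendsto (fun h : ℝ => h * K) (𝓝[>] 0) (𝓝 (0 * K)) := by
        have : Continuous fun h : ℝ => h * K := by fun_prop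
        exact (this.tendsto 0).mono_left nhdsWithin_le_nhds
      have c3 : Tendsto (fun h : ℝ => h * (2 * ‖v‖)) (𝓝[>] 0) (𝓝 (0 * (2 * ‖v‖))) := by
        have : Continuous fun h : ℝ => h * (2 * ‖v‖) := by fun_prop
        exact (this.tendsto 0).mono_left nhdsWithin_le_nhds
      refine (c1.eventually (hU.mem_nhds (by simpa using hx))).and
        (((c2.eventually (gt_mem_nhds (by simpa using hε))).mono fun _ h => le_of_lt h).and
        ((c3.eventually (gt_mem_nhds (by simp))).mono fun _ h => le_of_lt h))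
    obtain ⟨h, ⟨hxU, hhK, hhv⟩, hh0⟩ := (h1.and self_mem_nhdsWithin).exists
    have hh0 : 0 < h := hh0
    refine ⟨fun α => ((1 / h : ℝ) : ℂ) * (((rr v α : ℂ) * I) ^ n *
      Complex.exp ((rr (x + (h : ℂ) * v) α : ℂ) * I) + ((-1 : ℝ) : ℂ) * (((rr v α : ℂ) * I) ^ n *
      Complex.exp ((rr x α : ℂ) * I))), ((ih _ hxU).add ((ih x hx).smul (-1))).smul (1 / h),
      fun α => ?_⟩
    set s : ℝ := rr v α with hs
    have hsb : |s| ≤ 2 * ‖v‖ := rr_le v α
    have e1 : Complex.exp ((rr (x + (h : ℂ) * v) α : ℂ) * I) =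
        Complex.exp ((rr x α : ℂ) * I) * Complex.exp (((h * s : ℝ) : ℂ) * I) := by
      rw [rr_add, rr_rmul, ← Complex.exp_add]
      congr 1
      push_cast
      ring
    show ‖((s : ℂ) * I) ^ (n + 1) * Complex.exp ((rr x α : ℂ) * I) -
        ((1 / h : ℝ) : ℂ) * (((s : ℂ) * I) ^ n * Complex.exp ((rr (x + (h : ℂ) * v) α : ℂ) * I) +
          ((-1 : ℝ) : ℂ) * (((s : ℂ) * I) ^ n * Complex.exp ((rr x α : ℂ) * I)))‖ ≤ ε
    rw [e1]
    have e2 : ((s : ℂ) * I) ^ (n + 1) * Complex.exp ((rr x α : ℂ) * I) -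
        ((1 / h : ℝ) : ℂ) * (((s : ℂ) * I) ^ n * (Complex.exp ((rr x α : ℂ) * I) *
          Complex.exp (((h * s : ℝ) : ℂ) * I)) + ((-1 : ℝ) : ℂ) * (((s : ℂ) * I) ^ n *
          Complex.exp ((rr x α : ℂ) * I))) =
        -(((1 / h : ℝ) : ℂ) * ((s : ℂ) * I) ^ n * Complex.exp ((rr x α : ℂ) * I)) *
          (Complex.exp (((h * s : ℝ) : ℂ) * I) - 1 - ((h * s : ℝ) : ℂ) * I) := by
      have hh : (h : ℂ) ≠ 0 := by exact_mod_cast hh0.ne'
      push_cast
      field_simp
      ring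
    rw [e2, norm_mul, norm_neg, norm_mul, norm_mul, norm_pow, norm_mul, Complex.norm_I, mul_one,
      Complex.norm_real, Complex.norm_real, Real.norm_eq_abs, Real.norm_eq_abs,
      Complex.norm_exp_ofReal_mul_I, mul_one, abs_of_pos (by positivity : 0 < 1 / h)]
    have e3 : ‖Complex.exp (((h * s : ℝ) : ℂ) * I) - 1 - ((h * s : ℝ) : ℂ) * I‖ ≤ (h * |s|) ^ 2 := by
      have e4 : ‖(((h * s : ℝ) : ℂ) * I)‖ ≤ 1 := by
        rw [norm_mul, Complex.norm_I, mul_one, Complex.norm_real, Real.norm_eq_abs, abs_mul,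
          abs_of_pos hh0]
        exact (mul_le_mul_of_nonneg_left hsb hh0.le).trans hhv
      have e5 := Complex.norm_exp_sub_one_sub_id_le e4
      refine e5.trans ?_
      rw [norm_mul, Complex.norm_I, mul_one, Complex.norm_real, Real.norm_eq_abs, abs_mul,
        abs_of_pos hh0]
    calc 1 / h * |s| ^ n * ‖Complex.exp (((h * s : ℝ) : ℂ) * I) - 1 - ((h * s : ℝ) : ℂ) * I‖
        ≤ 1 / h * |s| ^ n * (h * |s|) ^ 2 := by gcongr
      _ = h * |s| ^ (n + 2) := by
          field_simp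
          ring
      _ ≤ h * (2 * ‖v‖) ^ (n + 2) := by gcongr
      _ ≤ h * K := by
          gcongr
          rw [hK]
          linarith
      _ ≤ ε := hhK

/-- every plane wave value is approximated by values in `U` -/
theorem Ap.any {U : Set ℂ} (hU : IsOpen U) (hne : U.Nonempty) (w : ℂ) :
    Ap U (fun α => Complex.exp ((rr w α : ℂ) * I)) := by
  obtain ⟨x, hx⟩ := hne
  set v := w - x with hv
  apply Ap.lim
  intro ε hε
  -- uniform convergence of the exponential series on a ball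
  have hr : Tendsto (fun N : ℕ => (2 * ‖v‖) ^ N / (N.factorial : ℝ)) atTop (𝓝 0) :=
    FloorSemiring.tendsto_pow_div_factorial_atTop _
  have hb : ∀ (N : ℕ) (s : ℝ), |s| ≤ 2 * ‖v‖ → ‖Complex.exp ((s : ℂ) * I) -
      ∑ m ∈ Finset.range N, ((s : ℂ) * I) ^ m / (m.factorial : ℂ)‖ ≤
        (∑' m : ℕ, (2 * ‖v‖) ^ (m + N) / ((m + N).factorial : ℝ)) := by
    intro N s hs
    have h1 : HasSum (fun m : ℕ => ((s : ℂ) * I) ^ m / (m.factorial : ℂ)) (Complex.exp ((s : ℂ) * I)) := by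
      have := NormedSpace.expSeries_div_hasSum_exp ((s : ℂ) * I)
      rwa [← Complex.exp_eq_exp_ℂ] at this
    have h2 := (hasSum_nat_add_iff' N).2 h1
    rw [← h2.tsum_eq]
    have h3 : ∀ m : ℕ, ‖((s : ℂ) * I) ^ (m + N) / ((m + N).factorial : ℂ)‖ ≤
        (2 * ‖v‖) ^ (m + N) / ((m + N).factorial : ℝ) := by
      intro m
      rw [norm_div, norm_pow, norm_mul, Complex.norm_I, mul_one, Complex.norm_real,
        Real.norm_eq_abs, Complex.norm_natCast]
      gcongr
    have h4 : Summable (fun m : ℕ => (2 * ‖v‖) ^ (m + N) / ((m + N).factorial : ℝ)) :=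
      (summable_nat_add_iff N).2 (Real.summable_pow_div_factorial _)
    exact tsum_of_norm_bounded h4.hasSum h3
  have ht : Tendsto (fun N : ℕ => ∑' m : ℕ, (2 * ‖v‖) ^ (m + N) / ((m + N).factorial : ℝ)) atTop
      (𝓝 0) := tendsto_sum_nat_add fun m : ℕ => (2 * ‖v‖) ^ m / (m.factorial : ℝ)
  obtain ⟨N, hN⟩ := (ht.eventually (gt_mem_nhds hε)).exists
  refine ⟨fun α => ∑ m ∈ Finset.range N, ((1 / (m.factorial : ℝ) : ℝ) : ℂ) *
    (((rr v α : ℂ) * I) ^ m * Complex.exp ((rr x α : ℂ) * I)),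
    Ap.sum _ fun m _ => (Ap.deriv hU v m x hx).smul _, fun α => ?_⟩
  have e1 : Complex.exp ((rr w α : ℂ) * I) = Complex.exp ((rr x α : ℂ) * I) *
      Complex.exp ((rr v α : ℂ) * I) := by
    rw [← Complex.exp_add, ← add_mul, ← Complex.ofReal_add, ← rr_add, hv]
    congr 4
    ring
  have e2 : Complex.exp ((rr w α : ℂ) * I) - ∑ m ∈ Finset.range N,
      ((1 / (m.factorial : ℝ) : ℝ) : ℂ) * (((rr v α : ℂ) * I) ^ m *
        Complex.exp ((rr x α : ℂ) * I)) = Complex.exp ((rr x α : ℂ) * I) *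
      (Complex.exp ((rr v α : ℂ) * I) - ∑ m ∈ Finset.range N, ((rr v α : ℂ) * I) ^ m /
        (m.factorial : ℂ)) := by
    rw [e1, mul_sub, Finset.mul_sum]
    congr 1
    refine Finset.sum_congr rfl fun m _ => ?_
    push_cast
    ring
  rw [e2, norm_mul, Complex.norm_exp_ofReal_mul_I, one_mul]
  exact (hb N _ (rr_le v α)).trans hN.le

theorem Ap.all {U : Set ℂ} (hU : IsOpen U) (hne : U.Nonempty) (τ : ℂ →₀ ℝ) : Ap U (sb τ) := by
  unfold sb Finsupp.sum
  exact Ap.sum _ fun w _ => (Ap.any hU hne w).smul _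

end Pool.Agent.H992.LB
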