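import Pool.Graph.R_pool_sql_team_seeded_63374d34.N661.BR.Base
import Mathlib

/-!
# The derivatives at one point determine the whole function, modulo null sets
-/

set_option autoImplicit false
open MeasureTheory Filter Topology Complex ProbabilityTheory
open scoped ContDiff ENNReal

namespace Pool.Agent.H992.LB

open Pool.Agent.N661.BR (MW lin shift W_smooth W_cont Dp_W Dm_W W_zero fd_lim meas_W meas_eval)
open Pool.Agent.W745.RW (dx dy Dp Dm W)

/-- the σ-algebra generated by the derivatives at the point `x` -/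
@[instance_reducible]
noncomputable def jet (x : ℂ) : MeasurableSpace MW :=
  ⨆ a : ℤ, MeasurableSpace.comap (fun f : MW => W 1 f a x) inferInstance

theorem jet_le (x : ℂ) : jet x ≤ (inferInstance : MeasurableSpace MW) :=
  iSup_le fun a => (meas_W a x).comap_le

theorem meas_jet (x : ℂ) (a : ℤ) : Measurable[jet x] (fun f : MW => W 1 f a x) := by
  intro B hB
  exact (le_iSup (fun a : ℤ => MeasurableSpace.comap (fun f : MW => W 1 f a x) inferInstance) a) _
    ⟨B, hB, rfl⟩

theorem fd_W (f : MW) (a : ℤ) (z v : ℂ) : fderiv ℝ (W 1 f a) z v =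
    v / 2 * W 1 f (a + 1) z - (starRingEnd ℂ) v / 2 * W 1 f (a - 1) z := by
  have h1 := Dp_W f a z
  have h2 := Dm_W f a z
  unfold Dp dx dy at h1
  unfold Dm dx dy at h2
  have h3 : fderiv ℝ (W 1 f a) z v = v.re • fderiv ℝ (W 1 f a) z 1 + v.im • fderiv ℝ (W 1 f a) z I := by
    rw [← map_smul, ← map_smul, ← map_add]
    congr 1
    apply Complex.ext <;> simp
  rw [h3, Complex.real_smul, Complex.real_smul]
  have h4 : W 1 f (a - 1) z = -(((1:ℝ):ℂ) * (fderiv ℝ (W 1 f a) z 1 + I * fderiv ℝ (W 1 f a) z I)) := by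
    rw [h2, neg_neg]
  rw [← h1, h4]
  have e1 : (v.re : ℂ) = (v + (starRingEnd ℂ) v) / 2 := by
    rw [Complex.add_conj]
    push_cast
    ring
  have e2 : (v.im : ℂ) = -I * (v - (starRingEnd ℂ) v) / 2 := by
    rw [Complex.sub_conj]
    push_cast
    linear_combination (v.im : ℂ) * I_sq
  rw [e1, e2]
  push_cast
  ring

/-- the derivatives of `s ↦ W_a (x + s v)` -/
noncomputable def H (x v : ℂ) (f : MW) : ℕ → ℤ → ℝ → ℂ
  | 0, a, s => W 1 f a (x + (s : ℂ) * v)
  | n + 1, a, s => v / 2 * H x v f n (a + 1) s - (starRingEnd ℂ) v / 2 * H x v f n (a - 1) s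

theorem H_deriv (x v : ℂ) (f : MW) (n : ℕ) (a : ℤ) (s : ℝ) :
    HasDerivAt (H x v f n a) (H x v f (n + 1) a s) s := by
  induction n generalizing a with
  | zero =>
    have h2 : HasDerivAt (fun t : ℝ => x + (t : ℂ) * v) v s := by
      have h3 := (Complex.ofRealCLM.hasDerivAt (x := s)).mul_const v
      have h4 := h3.const_add x
      simpa using h4
    have h5 : HasFDerivAt (W 1 f a) (fderiv ℝ (W 1 f a) (x + (s : ℂ) * v)) (x + (s : ℂ) * v) :=
      (((W_smooth f a).differentiable (by simp)) _).hasFDerivAt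
    have h6 := h5.comp_hasDerivAt s h2
    rw [fd_W] at h6
    exact h6
  | succ n ih =>
    have h1 := ((ih (a + 1)).const_mul (v / 2)).sub ((ih (a - 1)).const_mul ((starRingEnd ℂ) v / 2))
    exact h1

theorem H_cont (x v : ℂ) (f : MW) (n : ℕ) (a : ℤ) : Continuous (H x v f n a) :=
  continuous_iff_continuousAt.2 fun s => (H_deriv x v f n a s).continuousAt

theorem H_meas (x v : ℂ) (n : ℕ) (a : ℤ) (s : ℝ) : Measurable (fun f : MW => H x v f n a s) := by
  induction n generalizing a with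
  | zero => exact meas_W a _
  | succ n ih => exact ((ih (a + 1)).const_mul _).sub ((ih (a - 1)).const_mul _)

theorem H_jet (x v : ℂ) (n : ℕ) (a : ℤ) : Measurable[jet x] (fun f : MW => H x v f n a 0) := by
  induction n generalizing a with
  | zero =>
    have h := meas_jet x a
    have e : (fun f : MW => H x v f 0 a 0) = fun f : MW => W 1 f a x := by
      funext f
      simp [H]
    rw [e]
    exact h
  | succ n ih => exact ((ih (a + 1)).const_mul _).sub ((ih (a - 1)).const_mul _)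

/-- Taylor's formula with remainder -/
theorem taylor (x v : ℂ) (f : MW) (N : ℕ) : H x v f 0 0 1 =
    (∑ n ∈ Finset.range (N + 1), H x v f n 0 0 / (n.factorial : ℂ)) +
      ∫ s in (0:ℝ)..1, (((1 - s) ^ N / (N.factorial : ℝ) : ℝ) : ℂ) * H x v f (N + 1) 0 s := by
  induction N with
  | zero =>
    have h1 := intervalIntegral.integral_eq_sub_of_hasDerivAt (a := 0) (b := 1)
      (fun s _ => H_deriv x v f 0 0 s) ((H_cont x v f 1 0).intervalIntegrable _ _)
    have h2 : ∫ s in (0:ℝ)..1, (((1 - s) ^ 0 / ((Nat.factorial 0 : ℕ) : ℝ) : ℝ) : ℂ) * H x v f (0 + 1) 0 s =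
        ∫ s in (0:ℝ)..1, H x v f (0 + 1) 0 s := by
      refine intervalIntegral.integral_congr fun s _ => ?_
      simp
    rw [h2, h1]
    simp
  | succ N ih =>
    rw [ih, Finset.sum_range_succ (n := N + 1), add_assoc]
    congr 1
    have hN : ((N.factorial : ℝ)) ≠ 0 := by exact_mod_cast N.factorial_ne_zero
    have hd : ∀ s : ℝ, HasDerivAt (fun s : ℝ => (((1 - s) ^ (N + 1) / ((N + 1).factorial : ℝ) : ℝ) : ℂ) *
        H x v f (N + 1) 0 s)
        (-((((1 - s) ^ N / (N.factorial : ℝ) : ℝ) : ℂ) * H x v f (N + 1) 0 s) +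
          (((1 - s) ^ (N + 1) / ((N + 1).factorial : ℝ) : ℝ) : ℂ) * H x v f (N + 1 + 1) 0 s) s := by
      intro s
      have h1 : HasDerivAt (fun s : ℝ => (1 - s) ^ (N + 1) / ((N + 1).factorial : ℝ))
          (-((1 - s) ^ N / (N.factorial : ℝ))) s := by
        have h2 : HasDerivAt (fun s : ℝ => (1 - s)) (-1) s := by
          simpa using (hasDerivAt_id s).const_sub 1
        have h3 := (h2.pow (N + 1)).div_const ((N + 1).factorial : ℝ)
        refine h3.congr_deriv ?_
        rw [Nat.factorial_succ]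
        push_cast
        field_simp
      have h4 := (h1.ofReal_comp).mul (H_deriv x v f (N + 1) 0 s)
      refine h4.congr_deriv ?_
      push_cast
      ring
    have hc1 : Continuous fun s : ℝ => (((1 - s) ^ N / (N.factorial : ℝ) : ℝ) : ℂ) * H x v f (N + 1) 0 s := by
      have := H_cont x v f (N + 1) 0
      fun_prop
    have hc2 : Continuous fun s : ℝ => (((1 - s) ^ (N + 1) / ((N + 1).factorial : ℝ) : ℝ) : ℂ) *
        H x v f (N + 1 + 1) 0 s := by
      have := H_cont x v f (N + 1 + 1) 0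
      fun_prop
    have h1 := intervalIntegral.integral_eq_sub_of_hasDerivAt (a := 0) (b := 1)
      (fun s _ => hd s) ((hc1.neg.add hc2).intervalIntegrable _ _)
    have e0 := intervalIntegral.integral_add (μ := volume) (hc1.neg.intervalIntegrable 0 1)
      (hc2.intervalIntegrable 0 1)
    simp only [Pi.neg_apply] at e0
    rw [e0, intervalIntegral.integral_neg] at h1
    have h2 : (((1 - (1:ℝ)) ^ (N + 1) / ((N + 1).factorial : ℝ) : ℝ) : ℂ) * H x v f (N + 1) 0 1 = 0 := by
      simp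
    have h3 : (((1 - (0:ℝ)) ^ (N + 1) / ((N + 1).factorial : ℝ) : ℝ) : ℂ) * H x v f (N + 1) 0 0 =
        H x v f (N + 1) 0 0 / ((N + 1).factorial : ℂ) := by
      push_cast
      rw [sub_zero, one_pow]
      ring
    rw [h2, h3] at h1
    linear_combination (-1 : ℂ) * h1

/-- uniform bound for the mean of the derivatives -/
def Bd (ρ : Measure MW) (M : ℝ≥0∞) : Prop := ∀ (a : ℤ) (w : ℂ), ∫⁻ f : MW, ‖W 1 f a w‖ₑ ∂ρ ≤ M

theorem H_bd {ρ : Measure MW} {M : ℝ≥0∞} (hM : Bd ρ M) (x v : ℂ) (n : ℕ) (a : ℤ) (s : ℝ) :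
    ∫⁻ f : MW, ‖H x v f n a s‖ₑ ∂ρ ≤ ‖v‖ₑ ^ n * M := by
  induction n generalizing a with
  | zero =>
    rw [pow_zero, one_mul]
    exact hM a _
  | succ n ih =>
    have h2 : ∀ c : ℂ, ‖c / 2‖ₑ = ‖c‖ₑ / 2 := by
      intro c
      rw [div_eq_mul_inv, enorm_mul, div_eq_mul_inv]
      congr 1
      rw [enorm_inv (by norm_num)]
      congr 1
      rw [show (2 : ℂ) = ((2 : ℝ) : ℂ) by norm_num, ← ofReal_norm_eq_enorm, Complex.norm_real]
      norm_num
    calc ∫⁻ f : MW, ‖H x v f (n + 1) a s‖ₑ ∂ρ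
        ≤ ∫⁻ f : MW, (‖v‖ₑ / 2 * ‖H x v f n (a + 1) s‖ₑ +
            ‖v‖ₑ / 2 * ‖H x v f n (a - 1) s‖ₑ) ∂ρ := by
          refine lintegral_mono fun f => ?_
          show ‖v / 2 * H x v f n (a + 1) s - (starRingEnd ℂ) v / 2 * H x v f n (a - 1) s‖ₑ ≤ _
          refine (enorm_sub_le).trans ?_
          rw [enorm_mul, enorm_mul, h2, h2]
          have : ‖(starRingEnd ℂ) v‖ₑ = ‖v‖ₑ := by
            rw [← ofReal_norm_eq_enorm, ← ofReal_norm_eq_enorm, RCLike.norm_conj]
          rw [this]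
      _ = ‖v‖ₑ / 2 * ∫⁻ f : MW, ‖H x v f n (a + 1) s‖ₑ ∂ρ +
            ‖v‖ₑ / 2 * ∫⁻ f : MW, ‖H x v f n (a - 1) s‖ₑ ∂ρ := by
          rw [lintegral_add_left ((H_meas x v n (a + 1) s).enorm.const_mul _),
            lintegral_const_mul _ (H_meas x v n (a + 1) s).enorm,
            lintegral_const_mul _ (H_meas x v n (a - 1) s).enorm]
      _ ≤ ‖v‖ₑ / 2 * (‖v‖ₑ ^ n * M) + ‖v‖ₑ / 2 * (‖v‖ₑ ^ n * M) := by
          gcongr
          · exact ih _
          · exact ih _
      _ = ‖v‖ₑ ^ (n + 1) * M := by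
          rw [← add_mul, ENNReal.add_halves, pow_succ']
          ring

/-- the remainder -/
noncomputable def Rem (x v : ℂ) (N : ℕ) (f : MW) : ℂ :=
  ∫ s in (0:ℝ)..1, (((1 - s) ^ N / (N.factorial : ℝ) : ℝ) : ℂ) * H x v f (N + 1) 0 s

theorem Rem_bd {ρ : Measure MW} [SFinite ρ] {M : ℝ≥0∞} (hM : Bd ρ M) (x v : ℂ) (N : ℕ) :
    ∫⁻ f : MW, ‖Rem x v N f‖ₑ ∂ρ ≤
      ENNReal.ofReal (1 / (N.factorial : ℝ)) * (‖v‖ₑ ^ (N + 1) * M) := by
  have hjm : Measurable (Function.uncurry fun (f : MW) (s : ℝ) => H x v f (N + 1) 0 s) := by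
    have h1 : Measurable (Function.uncurry fun (s : ℝ) (f : MW) => H x v f (N + 1) 0 s) :=
      measurable_uncurry_of_continuous_of_measurable
        (u := fun (s : ℝ) (f : MW) => H x v f (N + 1) 0 s)
        (fun f => H_cont x v f (N + 1) 0) (fun s => H_meas x v (N + 1) 0 s)
    exact h1.comp measurable_swap
  have hpt : ∀ f : MW, ‖Rem x v N f‖ₑ ≤ ∫⁻ s in Set.Ioc (0:ℝ) 1,
      ENNReal.ofReal (1 / (N.factorial : ℝ)) * ‖H x v f (N + 1) 0 s‖ₑ := by
    intro f
    unfold Rem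
    rw [intervalIntegral.integral_of_le zero_le_one]
    refine (enorm_integral_le_lintegral_enorm _).trans ?_
    refine setLIntegral_mono' measurableSet_Ioc fun s hs => ?_
    rw [enorm_mul]
    gcongr
    rw [← ofReal_norm_eq_enorm, Complex.norm_real, Real.norm_eq_abs]
    apply ENNReal.ofReal_le_ofReal
    have hf : (0:ℝ) < (N.factorial : ℝ) := by exact_mod_cast N.factorial_pos
    rw [abs_div, abs_of_pos hf, abs_pow]
    have : |1 - s| ≤ 1 := by
      rw [abs_le]
      constructor <;> linarith [hs.1, hs.2]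
    gcongr
    exact pow_le_one₀ (abs_nonneg _) this
  calc ∫⁻ f : MW, ‖Rem x v N f‖ₑ ∂ρ
      ≤ ∫⁻ f : MW, (∫⁻ s in Set.Ioc (0:ℝ) 1,
          ENNReal.ofReal (1 / (N.factorial : ℝ)) * ‖H x v f (N + 1) 0 s‖ₑ) ∂ρ := lintegral_mono hpt
    _ = ∫⁻ s in Set.Ioc (0:ℝ) 1, (∫⁻ f : MW,
          ENNReal.ofReal (1 / (N.factorial : ℝ)) * ‖H x v f (N + 1) 0 s‖ₑ ∂ρ) := by
        rw [lintegral_lintegral_swap]
        exact (hjm.enorm.const_mul _).aemeasurable
    _ ≤ ∫⁻ s in Set.Ioc (0:ℝ) 1, ENNReal.ofReal (1 / (N.factorial : ℝ)) * (‖v‖ₑ ^ (N + 1) * M) := by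
        refine lintegral_mono fun s => ?_
        rw [lintegral_const_mul _ (H_meas x v (N + 1) 0 s).enorm]
        gcongr
        exact H_bd hM x v (N + 1) 0 s
    _ = ENNReal.ofReal (1 / (N.factorial : ℝ)) * (‖v‖ₑ ^ (N + 1) * M) := by
        rw [setLIntegral_const]
        simp

theorem Rem_meas (x v : ℂ) (N : ℕ) : Measurable (Rem x v N) := by
  have h1 : ∀ f : MW, Rem x v N f = W 1 f 0 (x + v) -
      (∑ n ∈ Finset.range (N + 1), H x v f n 0 0 / (n.factorial : ℂ)) := by
    intro f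
    have := taylor x v f N
    have e : H x v f 0 0 1 = W 1 f 0 (x + v) := by simp [H]
    rw [e] at this
    rw [this]
    unfold Rem
    ring
  have h2 : Rem x v N = fun f : MW => W 1 f 0 (x + v) -
      (∑ n ∈ Finset.range (N + 1), H x v f n 0 0 / (n.factorial : ℂ)) := funext h1
  rw [h2]
  exact (meas_W 0 _).sub (Finset.measurable_sum _ fun n _ => (H_meas x v n 0 0).div_const _)

theorem Rem_ae {ρ : Measure MW} [SFinite ρ] {M : ℝ≥0∞} (hM : Bd ρ M) (hM' : M ≠ ⊤) (x v : ℂ) :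
    ∀ᵐ f ∂ρ, Tendsto (fun N => Rem x v N f) atTop (𝓝 0) := by
  have h1 : ∫⁻ f : MW, ∑' N, ‖Rem x v N f‖ₑ ∂ρ ≠ ⊤ := by
    rw [lintegral_tsum fun N => (Rem_meas x v N).enorm.aemeasurable]
    refine ne_top_of_le_ne_top ?_ (ENNReal.tsum_le_tsum fun N => Rem_bd hM x v N)
    have e1 : ∀ N : ℕ, ENNReal.ofReal (1 / (N.factorial : ℝ)) * (‖v‖ₑ ^ (N + 1) * M) =
        ENNReal.ofReal (‖v‖ ^ N / (N.factorial : ℝ)) * (‖v‖ₑ * M) := by
      intro N
      rw [← ofReal_norm_eq_enorm, pow_succ, ← ENNReal.ofReal_pow (norm_nonneg _), div_eq_mul_inv,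
        div_eq_mul_inv, one_mul, ENNReal.ofReal_mul (by positivity)]
      ring
    simp_rw [e1]
    rw [ENNReal.tsum_mul_right]
    refine ENNReal.mul_ne_top ?_ (ENNReal.mul_ne_top enorm_ne_top hM')
    rw [← ENNReal.ofReal_tsum_of_nonneg (fun N => by positivity) (Real.summable_pow_div_factorial _)]
    exact ENNReal.ofReal_ne_top
  have h2 : ∀ᵐ f ∂ρ, ∑' N, ‖Rem x v N f‖ₑ < ⊤ :=
    ae_lt_top (Measurable.ennreal_tsum fun N => (Rem_meas x v N).enorm) h1
  filter_upwards [h2] with f hf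
  have h3 := ENNReal.tendsto_atTop_zero_of_tsum_ne_top hf.ne
  exact tendsto_iff_enorm_sub_tendsto_zero.2 (by simpa using h3)

/-- the value at `w` is a function of the derivatives at `x`, almost surely -/
theorem value_ae {ρ : Measure MW} [SFinite ρ] {M : ℝ≥0∞} (hM : Bd ρ M) (hM' : M ≠ ⊤) (x w : ℂ) :
    ∃ g : MW → ℝ, Measurable[jet x] g ∧ ∀ᵐ f ∂ρ, f w = g f := by
  let p : ℕ → MW → ℝ := fun N f =>
    (∑ n ∈ Finset.range (N + 1), H x (w - x) f n 0 0 / (n.factorial : ℂ)).re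
  have hp : ∀ N, Measurable[jet x] (p N) := by
    intro N
    have h1 : Measurable[jet x] (fun f : MW =>
        ∑ n ∈ Finset.range (N + 1), H x (w - x) f n 0 0 / (n.factorial : ℂ)) :=
      Finset.measurable_sum _ fun n _ => (H_jet x (w - x) n 0).div_const _
    exact Complex.measurable_re.comp h1
  refine ⟨fun f => limsup (fun N => p N f) atTop, Measurable.limsup hp, ?_⟩
  filter_upwards [Rem_ae hM hM' x (w - x)] with f hf
  have h2 : Tendsto (fun N => p N f) atTop (𝓝 (f w)) := by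
    have h3 : ∀ N, (f w : ℝ) - (Rem x (w - x) N f).re = p N f := by
      intro N
      have h4 := taylor x (w - x) f N
      have e : H x (w - x) f 0 0 1 = ((f w : ℝ) : ℂ) := by
        show W 1 f 0 (x + ((1:ℝ) : ℂ) * (w - x)) = _
        rw [W_zero]
        congr 2
        simp
      rw [e] at h4
      have h5 := congrArg Complex.re h4
      rw [Complex.ofReal_re, Complex.add_re] at h5
      simp only [p]
      unfold Rem
      linarith
    have h5 : Tendsto (fun N => (f w : ℝ) - (Rem x (w - x) N f).re) atTop (𝓝 ((f w : ℝ) - (0 : ℂ).re)) :=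
      ((Complex.continuous_re.tendsto _).comp hf).const_sub _
    rw [Complex.zero_re, sub_zero] at h5
    exact h5.congr h3
  exact h2.limsup_eq.symm

/-- **Determination.** Every event is, modulo null sets, an event for the derivatives at `x`. -/
theorem determ {ρ : Measure MW} [SFinite ρ] {M : ℝ≥0∞} (hM : Bd ρ M) (hM' : M ≠ ⊤) (x : ℂ)
    {A : Set MW} (hA : MeasurableSet A) : ∃ B : Set MW, MeasurableSet[jet x] B ∧ A =ᵐ[ρ] B := by
  have key : (inferInstance : MeasurableSpace MW) ≤ eventuallyMeasurableSpace (jet x) (ae ρ) := by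
    show MeasurableSpace.comap (Subtype.val : MW → (ℂ → ℝ))
      (⨆ w : ℂ, MeasurableSpace.comap (fun b : ℂ → ℝ => b w) inferInstance) ≤ _
    rw [MeasurableSpace.comap_iSup]
    refine iSup_le fun w => ?_
    rw [MeasurableSpace.comap_comp]
    obtain ⟨g, hg, hgw⟩ := value_ae hM hM' x w
    have h1 : EventuallyMeasurable (jet x) (ae ρ) (fun f : MW => f w) :=
      Measurable.eventuallyMeasurable_of_eventuallyEq hg hgw
    exact Measurable.comap_le h1
  exact key A hA

end Pool.Agent.H992.LB
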