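import Pool.Agent.H992.LB.Cv

/-!
# The bound for trigonometric sums in one open set implies convergence to the random wave
-/

set_option autoImplicit false
open MeasureTheory Filter Topology Complex ProbabilityTheory
open scoped ContDiff ENNReal

namespace Pool.Agent.H992.LB

open Pool.Agent.N661.BR (J0 MW lin shift IsStationary IsErgodic IsRandomWave meas_eval meas_shift
  meas_W)
open Pool.Agent.Y265.RW (sy rr)
open Pool.Agent.N814.BHM
open Pool.Agent.N814.BHASM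

variable {Ω : Set ℂ} {lam : ℕ → ℝ} {u : ℕ → ℂ → ℝ}

/-- the exponential on `MW` -/
noncomputable def eγ (τ : ℂ →₀ ℝ) (f : MW) : ℂ := Complex.exp (I * ((val τ f : ℝ) : ℂ))

theorem eγ_norm (τ : ℂ →₀ ℝ) (f : MW) : ‖eγ τ f‖ = 1 := by
  unfold eγ
  rw [mul_comm, Complex.norm_exp_ofReal_mul_I]

theorem eγ_meas (τ : ℂ →₀ ℝ) : Measurable (eγ τ) := by
  unfold eγ
  have := val_meas τ
  fun_prop

theorem eγ_sub (τ τ' : ℂ →₀ ℝ) (f : MW) : ‖eγ τ f - eγ τ' f‖ ≤ |val (τ - τ') f| := by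
  unfold eγ
  refine (Pool.Agent.N40.BRSTATH.exp_sub _ _).trans ?_
  rw [sub_eq_add_neg τ, val_add, val_neg, ← sub_eq_add_neg]

/-- the mean against a square integrable function -/
noncomputable def Rh (γ : Measure MW) (h : MW → ℂ) (τ : ℂ →₀ ℝ) : ℂ :=
  ∫ f, (starRingEnd ℂ) (h f) * eγ τ f ∂γ

theorem Rh_int {γ : Measure MW} [IsFiniteMeasure γ] {h : MW → ℂ} (hh : MemLp h 2 γ) (τ : ℂ →₀ ℝ) :
    Integrable (fun f => (starRingEnd ℂ) (h f) * eγ τ f) γ := by
  have hi : Integrable h γ := hh.integrable (by norm_num)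
  have hb : Integrable (fun x => (starRingEnd ℂ) (h x)) γ :=
    (Complex.conjLIE.toContinuousLinearEquiv.toContinuousLinearMap.integrable_comp hi)
  exact hb.mul_bdd (c := 1) (eγ_meas τ).aestronglyMeasurable
    (Eventually.of_forall fun x => (eγ_norm τ x).le)

theorem Rh_diff {γ : Measure MW} [IsProbabilityMeasure γ] (hγ : IsRandomWave γ) {h : MW → ℂ}
    (hh : MemLp h 2 γ) (τ τ' : ℂ →₀ ℝ) {ε : ℝ} (hε : 0 < ε) (hn : nn (τ - τ') ≤ ε ^ 2) :
    ‖Rh γ h τ - Rh γ h τ'‖ ≤ ε * ((∫ f, ‖h f‖ ^ 2 ∂γ) + 1) := by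
  have hsq : Integrable (fun f => ‖h f‖ ^ 2) γ := hh.integrable_norm_pow (by norm_num)
  obtain ⟨hv, hv2⟩ := val_sq hγ (τ - τ')
  unfold Rh
  rw [← integral_sub (Rh_int hh τ) (Rh_int hh τ')]
  have e1 : ‖∫ f, ((starRingEnd ℂ) (h f) * eγ τ f - (starRingEnd ℂ) (h f) * eγ τ' f) ∂γ‖ ≤
      ∫ f, (ε / 2 * ‖h f‖ ^ 2 + 1 / (2 * ε) * val (τ - τ') f ^ 2) ∂γ := by
    refine norm_integral_le_of_norm_le ((hsq.const_mul _).add (hv.const_mul _))
      (Eventually.of_forall fun f => ?_)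
    rw [← mul_sub, norm_mul, RCLike.norm_conj]
    have e2 := eγ_sub τ τ' f
    rw [← sq_abs (val (τ - τ') f)]
    set s := |val (τ - τ') f|
    set a := ‖h f‖
    have ha : 0 ≤ a := norm_nonneg _
    have e3 : 0 ≤ 1 / (2 * ε) * (ε * a - s) ^ 2 := by positivity
    have e4 : 1 / (2 * ε) * (ε * a - s) ^ 2 = ε / 2 * a ^ 2 + 1 / (2 * ε) * s ^ 2 - a * s := by
      field_simp
      ring
    calc a * ‖eγ τ f - eγ τ' f‖ ≤ a * s := by gcongr
      _ ≤ ε / 2 * a ^ 2 + 1 / (2 * ε) * s ^ 2 := by linarith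
  rw [integral_add (hsq.const_mul _) (hv.const_mul _), integral_const_mul, integral_const_mul,
    hv2] at e1
  refine e1.trans ?_
  have h0 : 0 ≤ ∫ f, ‖h f‖ ^ 2 ∂γ := integral_nonneg fun f => by positivity
  calc ε / 2 * ∫ f, ‖h f‖ ^ 2 ∂γ + 1 / (2 * ε) * nn (τ - τ')
      ≤ ε / 2 * ∫ f, ‖h f‖ ^ 2 ∂γ + 1 / (2 * ε) * ε ^ 2 := by gcongr
    _ = ε / 2 * (∫ f, ‖h f‖ ^ 2 ∂γ) + ε / 2 := by
        field_simp
    _ ≤ ε * ((∫ f, ‖h f‖ ^ 2 ∂γ) + 1) := by nlinarith

theorem val_shift (τ : ℂ →₀ ℝ) (x : ℂ) (f : MW) :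
    val (τ.mapDomain (· + x)) f = lin (fun j => pt τ j + x) (fun j => τ (pt τ j)) f := by
  unfold val
  rw [mapDomain_sum τ x _ (fun _ => by simp) (fun _ _ _ => by ring), sum_pt τ]
  rfl

/-- the mixing argument -/
theorem Rh_mix {γ : Measure MW} [IsProbabilityMeasure γ] (hγ : IsRandomWave γ) {h : MW → ℂ}
    (hh : MemLp h 2 γ) {L : (ℂ →₀ ℝ) → ℂ} (hL : ∀ τ, L τ = Rh γ h τ)
    (hs : ∀ τ x, L (τ.mapDomain (· + x)) = L τ) (h0 : L 0 = 1) (τ : ℂ →₀ ℝ) :
    L τ = ∫ f, eγ τ f ∂γ := by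
  obtain ⟨R, m, hR⟩ := exists_av' hγ (pt τ) (fun j => τ (pt τ j))
  have hi : Integrable h γ := hh.integrable (by norm_num)
  have hb : Integrable (fun x => (starRingEnd ℂ) (h x)) γ :=
    (Complex.conjLIE.toContinuousLinearEquiv.toContinuousLinearMap.integrable_comp hi)
  have h1 : Tendsto (fun n => ∫ f, (starRingEnd ℂ) (h f) *
      av (pt τ) (fun j => τ (pt τ j)) (R n) (m n) f ∂γ) atTop
      (𝓝 (∫ f, (starRingEnd ℂ) (h f) * (cc (pt τ) (fun j => τ (pt τ j)) : ℂ) ∂γ)) := by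
    refine tendsto_integral_of_dominated_convergence (fun f => ‖h f‖)
      (fun n => hb.aestronglyMeasurable.mul (av_meas _ _ _ _).aestronglyMeasurable) hi.norm
      (fun n => Eventually.of_forall fun f => ?_) ?_
    · rw [norm_mul, RCLike.norm_conj]
      exact mul_le_of_le_one_right (norm_nonneg _) (av_norm _ _ _ _ f)
    · filter_upwards [hR] with f hf
      exact hf.const_mul _
  have h2 : ∀ n, ∫ f, (starRingEnd ℂ) (h f) *
      av (pt τ) (fun j => τ (pt τ j)) (R n) (m n) f ∂γ = L τ := by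
    intro n
    have e1 : ∀ f, (starRingEnd ℂ) (h f) * av (pt τ) (fun j => τ (pt τ j)) (R n) (m n) f =
        (1 / ((m n : ℂ) + 1)) * ∑ j ∈ Finset.range (m n + 1), (starRingEnd ℂ) (h f) *
          eγ (τ.mapDomain (· + ((R n * j : ℝ) : ℂ))) f := by
      intro f
      unfold av
      rw [Finset.mul_sum, Finset.mul_sum, Finset.mul_sum]
      refine Finset.sum_congr rfl fun j _ => ?_
      unfold eγ ee
      rw [val_shift]
      ring
    simp_rw [e1]
    rw [integral_const_mul, integral_finset_sum _ fun j _ => Rh_int hh _]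
    have e2 : ∀ j ∈ Finset.range (m n + 1), ∫ f, (starRingEnd ℂ) (h f) *
        eγ (τ.mapDomain (· + ((R n * j : ℝ) : ℂ))) f ∂γ = L τ := by
      intro j _
      rw [← hs τ ((R n * j : ℝ) : ℂ), hL]
      rfl
    rw [Finset.sum_congr rfl e2, Finset.sum_const, Finset.card_range, nsmul_eq_mul]
    have : ((m n : ℂ) + 1) ≠ 0 := by exact_mod_cast Nat.succ_ne_zero (m n)
    push_cast
    field_simp
  simp_rw [h2] at h1
  have h3 := tendsto_nhds_unique tendsto_const_nhds h1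
  rw [h3, integral_mul_const]
  have h4 : ∫ f, (starRingEnd ℂ) (h f) ∂γ = 1 := by
    rw [← h0, hL]
    unfold Rh
    refine integral_congr_ae (Eventually.of_forall fun f => ?_)
    simp [eγ, val]
  rw [h4, one_mul]
  have h5 := ft hγ (pt τ) (fun j => τ (pt τ j))
  unfold eγ
  simp_rw [val_lin]
  rw [h5]
  rfl

/-- **Convergence.** -/
theorem conv_rw (H : Hyp Ω lam u) {γ : Measure MW} [IsProbabilityMeasure γ] (hγ : IsRandomWave γ)
    {U : Set ℂ} (hU : IsOpen U) (hne : U.Nonempty) {C : ℝ}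
    (hC : ∀ c : (U →₀ ℝ) →₀ ℂ, ∀ ε : ℝ, 0 < ε → ∀ᶠ n in atTop,
      ‖c.sum fun τ z => z * G Ω (lam n) (u n) (τ.mapDomain Subtype.val)‖ ^ 2 ≤
        C * (∫ f, ‖trig (ev U) c f‖ ^ 2 ∂γ) + ε) (τ : ℂ →₀ ℝ) :
    Tendsto (fun n => G Ω (lam n) (u n) τ) atTop (𝓝 (∫ f, eγ τ f ∂γ)) := by
  rw [tendsto_iff_ultrafilter]
  intro g hg
  -- the limits along the ultrafilter
  have hlim : ∀ τ : ℂ →₀ ℝ, ∃ L : ℂ, Tendsto (fun n => G Ω (lam n) (u n) τ) g (𝓝 L) := by
    intro τ
    have h1 : (g.map fun n => G Ω (lam n) (u n) τ : Filter ℂ) ≤ 𝓟 (Metric.closedBall (0:ℂ) 1) := by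
      rw [Filter.le_principal_iff, Ultrafilter.coe_map, Filter.mem_map]
      refine Filter.univ_mem' fun n => ?_
      rw [Set.mem_preimage, mem_closedBall_zero_iff]
      exact G_bd H n τ
    obtain ⟨L, -, hL⟩ := (isCompact_closedBall (0:ℂ) 1).ultrafilter_le_nhds _ h1
    exact ⟨L, hL⟩
  choose L hL using hlim
  have hLd : ∀ τ τ', ‖L τ - L τ'‖ ≤ √(nn (τ - τ')) := by
    intro τ τ'
    refine le_of_forall_pos_le_add fun ε hε => ?_
    exact le_of_tendsto ((hL τ).sub (hL τ')).norm (hg (G_diff H τ τ' hε))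
  have hLs : ∀ τ x, L (τ.mapDomain (· + x)) = L τ := by
    intro τ x
    have h1 : ‖L (τ.mapDomain (· + x)) - L τ‖ ≤ 0 := by
      refine le_of_forall_pos_le_add fun ε hε => ?_
      rw [zero_add]
      exact le_of_tendsto ((hL _).sub (hL τ)).norm (hg (G_shift H τ x hε))
    exact sub_eq_zero.1 (norm_le_zero_iff.1 h1)
  have hL0 : L 0 = 1 := by
    refine tendsto_nhds_unique (hL 0) ?_
    have : ∀ n, G Ω (lam n) (u n) 0 = 1 := by
      intro n
      haveI := probP H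
      unfold G eX SX
      simp
    simp_rw [this]
    exact tendsto_const_nhds
  -- the functional
  let ℓ : ((U →₀ ℝ) →₀ ℂ) →ₗ[ℂ] ℂ :=
    { toFun := fun c => c.sum fun τ z => z * L (τ.mapDomain Subtype.val)
      map_add' := fun c d => Finsupp.sum_add_index' (fun _ => zero_mul _) (fun _ _ _ => add_mul _ _ _)
      map_smul' := fun a c => by
        rw [Finsupp.sum_smul_index' (fun _ => zero_mul _), RingHom.id_apply, smul_eq_mul,
          Finsupp.mul_sum]
        refine Finsupp.sum_congr fun τ _ => ?_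
        rw [smul_eq_mul, mul_assoc] }
  have hℓ : ∀ c, ‖ℓ c‖ ^ 2 ≤ C * ∫ f, ‖trig (ev U) c f‖ ^ 2 ∂γ := by
    intro c
    have h1 : Tendsto (fun n => ‖c.sum fun τ z => z * G Ω (lam n) (u n) (τ.mapDomain Subtype.val)‖ ^ 2)
        g (𝓝 (‖ℓ c‖ ^ 2)) := by
      refine Tendsto.pow (Tendsto.norm ?_) 2
      show Tendsto _ _ (𝓝 (c.sum fun τ z => z * L (τ.mapDomain Subtype.val)))
      unfold Finsupp.sum
      exact tendsto_finset_sum _ fun τ _ => (hL _).const_mul _
    refine le_of_forall_pos_le_add fun ε hε => ?_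
    exact le_of_tendsto h1 (hg (hC c ε hε))
  obtain ⟨h, hh⟩ := riesz' (ev_meas U) ℓ γ hℓ
  have hm : MemLp (h : MW → ℂ) 2 γ := Lp.memLp h
  -- on `U`
  have hU1 : ∀ τ : U →₀ ℝ, L (τ.mapDomain Subtype.val) = Rh γ h (τ.mapDomain Subtype.val) := by
    intro τ
    have h1 := hh (Finsupp.single τ 1)
    rw [inner_toL] at h1
    have h2 : ℓ (Finsupp.single τ 1) = L (τ.mapDomain Subtype.val) := by
      show (Finsupp.single τ (1:ℂ)).sum (fun τ z => z * L (τ.mapDomain Subtype.val)) = _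
      rw [Finsupp.sum_single_index (zero_mul _), one_mul]
    rw [← h2, h1]
    unfold Rh
    refine integral_congr_ae (Eventually.of_forall fun f => ?_)
    simp only
    congr 1
    unfold ex eγ val
    rw [Finsupp.sum_mapDomain_index (fun _ => by simp) (fun _ _ _ => by ring)]
    rfl
  have hU2 : ∀ τ : ℂ →₀ ℝ, (↑τ.support : Set ℂ) ⊆ U → L τ = Rh γ h τ := by
    intro τ hτ
    have h1 : τ = (τ.comapDomain (Subtype.val : U → ℂ) Subtype.val_injective.injOn).mapDomain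
        Subtype.val := by
      rw [Finsupp.mapDomain_comapDomain _ Subtype.val_injective]
      intro w hw
      exact ⟨⟨w, hτ hw⟩, rfl⟩
    rw [h1]
    exact hU1 _
  -- everywhere
  have hall : ∀ τ, L τ = Rh γ h τ := by
    intro τ
    set K : ℝ := (∫ f, ‖h f‖ ^ 2 ∂γ) + 2 with hK
    have hK0 : 0 < K := by
      have : 0 ≤ ∫ f, ‖h f‖ ^ 2 ∂γ := integral_nonneg fun f => by positivity
      positivity
    have h1 : ‖L τ - Rh γ h τ‖ ≤ 0 := by
      refine le_of_forall_pos_le_add fun ε hε => ?_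
      rw [zero_add]
      obtain ⟨τ', hτ', hd⟩ := Ap.all hU hne τ (ε / K) (by positivity)
      have hn : nn (τ - τ') ≤ (ε / K) ^ 2 := by
        refine nn_le (by positivity) fun α => ?_
        have : sb (τ - τ') α = sb τ α - sb τ' α := by
          have e := sb_add (τ - τ') τ' α
          rw [sub_add_cancel] at e
          rw [e]
          ring
        rw [this]
        exact hd α
      have e1 : ‖L τ - L τ'‖ ≤ ε / K := by
        refine (hLd τ τ').trans ?_
        rw [Real.sqrt_le_left (by positivity)]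
        exact hn
      have e2 := Rh_diff hγ hm τ τ' (by positivity : 0 < ε / K) hn
      have e3 := hU2 τ' hτ'
      calc ‖L τ - Rh γ h τ‖ = ‖(L τ - L τ') - (Rh γ h τ - Rh γ h τ')‖ := by
            rw [e3]
            congr 1
            ring
        _ ≤ ε / K + ε / K * ((∫ f, ‖h f‖ ^ 2 ∂γ) + 1) := (norm_sub_le _ _).trans (add_le_add e1 e2)
        _ = ε / K * K := by
            rw [hK]
            ring
        _ = ε := by field_simp
    exact sub_eq_zero.1 (norm_le_zero_iff.1 h1)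
  have := Rh_mix hγ hm hall hLs hL0 τ
  rw [← this]
  exact hL τ

end Pool.Agent.H992.LB
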